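import Pool.Agent.Work.MP_298761_ths.Interface

/-! Block DEN of THEOREM S (helper44). -/

set_option autoImplicit false

namespace THS

open Filter Topology Polynomial Data

theorem DEN_symm {n : ℕ} (M : Matrix (Fin n) (Fin n) ℚ) (hM : M.transpose = M) (x y : Fin n → ℝ) :
    valR M x y = (M.map (Rat.castHom ℝ)).mulVec x ⬝ᵥ y := by
  rw [valR_eq_dot, Matrix.dotProduct_mulVec]
  congr 1
  rw [← Matrix.mulVec_transpose]
  congr 1
  rw [← Matrix.transpose_map, hM]

theorem DEN_eig {n : ℕ} (b Q : Matrix (Fin n) (Fin n) ℚ) (hb : b.transpose = b)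
    (hQ : Q.transpose = Q) (hd : b.det ≠ 0) (a : ℝ) (x : Fin n → ℝ)
    (h : ∀ y, valR Q x y = a * valR b x y) :
    ((b⁻¹ * Q).map (Rat.castHom ℝ)).mulVec x = a • x := by
  have h1 : (Q.map (Rat.castHom ℝ)).mulVec x = a • (b.map (Rat.castHom ℝ)).mulVec x := by
    apply dotProduct_eq
    intro y
    rw [← DEN_symm Q hQ, h y, DEN_symm b hb, smul_dotProduct, smul_eq_mul]
  have hbu : IsUnit b.det := isUnit_iff_ne_zero.2 hd
  have h2 : b * (b⁻¹ * Q) = Q := by
    rw [← Matrix.mul_assoc, Matrix.mul_nonsing_inv b hbu, Matrix.one_mul]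
  have h3 : (b.map (Rat.castHom ℝ)) * ((b⁻¹ * Q).map (Rat.castHom ℝ)) = Q.map (Rat.castHom ℝ) := by
    rw [← Matrix.map_mul, h2]
  have h4 : (b.map (Rat.castHom ℝ)).det ≠ 0 := by
    have : (b.map (Rat.castHom ℝ)).det = (Rat.castHom ℝ) b.det := by
      rw [RingHom.map_det]; rfl
    rw [this]
    simpa using hd
  have h5 : (b.map (Rat.castHom ℝ)).mulVec (((b⁻¹ * Q).map (Rat.castHom ℝ)).mulVec x - a • x) = 0 := by
    rw [Matrix.mulVec_sub, Matrix.mulVec_mulVec, h3, h1, Matrix.mulVec_smul, sub_self]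
  exact sub_eq_zero.1 (Matrix.eq_zero_of_mulVec_eq_zero h4 h5)

theorem DEN_pow {n : ℕ} (A : Matrix (Fin n) (Fin n) ℚ) (a : ℝ) (x : Fin n → ℝ)
    (h : (A.map (Rat.castHom ℝ)).mulVec x = a • x) (k : ℕ) :
    ((A ^ k).map (Rat.castHom ℝ)).mulVec x = a ^ k • x := by
  induction k with
  | zero =>
    rw [pow_zero, pow_zero, one_smul, Matrix.map_one _ (map_zero _) (map_one _), Matrix.one_mulVec]
  | succ k ih =>
    rw [pow_succ, Matrix.map_mul, ← Matrix.mulVec_mulVec, h, Matrix.mulVec_smul, ih, smul_smul,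
      pow_succ, mul_comm]

theorem DEN_aeval {n : ℕ} (A : Matrix (Fin n) (Fin n) ℚ) (a : ℝ) (x : Fin n → ℝ)
    (h : (A.map (Rat.castHom ℝ)).mulVec x = a • x) (q : ℚ[X]) :
    ((aeval A q : Matrix (Fin n) (Fin n) ℚ).map (Rat.castHom ℝ)).mulVec x = (aeval a q : ℝ) • x := by
  induction q using Polynomial.induction_on' with
  | add p q hp hq =>
    rw [map_add, map_add, Matrix.map_add _ (fun u v => map_add _ u v), Matrix.add_mulVec, hp, hq,
      add_smul]
  | monomial k c =>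
    rw [aeval_monomial, aeval_monomial, ← Algebra.smul_def, ← Algebra.smul_def]
    have h1 : ((c • A ^ k).map (Rat.castHom ℝ)) = (c : ℝ) • ((A ^ k).map (Rat.castHom ℝ)) := by
      ext i j
      simp
    rw [h1, Matrix.smul_mulVec, DEN_pow A a x h k, smul_smul]
    congr 1

/-- A rational vector as a real vector. -/
def DEN_toR {n : ℕ} (v : Fin n → ℚ) : Fin n → ℝ := fun i => (v i : ℝ)

theorem DEN_dense {n : ℕ} : DenseRange (DEN_toR : (Fin n → ℚ) → Fin n → ℝ) := by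
  have h : DenseRange (Pi.map (fun (_ : Fin n) (r : ℚ) => (r : ℝ))) :=
    DenseRange.piMap (fun _ => Rat.denseRange_cast)
  exact h

theorem DEN_mulVec {n : ℕ} (B : Matrix (Fin n) (Fin n) ℚ) (v : Fin n → ℚ) :
    (B.map (Rat.castHom ℝ)).mulVec (DEN_toR v) = DEN_toR (B.mulVec v) := by
  funext i
  simp [Matrix.mulVec, dotProduct, DEN_toR]

theorem DEN_val {n : ℕ} (b : Matrix (Fin n) (Fin n) ℚ) (v w : Fin n → ℚ) :
    valR b (DEN_toR v) (DEN_toR w) = ((valQ b v w : ℚ) : ℝ) := by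
  simp [valR, valQ, DEN_toR]

theorem DEN_cont {n : ℕ} (b : Matrix (Fin n) (Fin n) ℚ) : Continuous
    (fun x : Fin n → ℝ => valR b x x) := by
  unfold valR
  fun_prop

theorem p_DEN : Stmt_DEN := by
  intro n b Q hb hQ hd a x hx h q hq
  obtain ⟨B, hB⟩ : ∃ B : Matrix (Fin n) (Fin n) ℚ, B = aeval (b⁻¹ * Q) q := ⟨_, rfl⟩
  have hBx : (B.map (Rat.castHom ℝ)).mulVec x = (aeval a q : ℝ) • x := by
    rw [hB]
    exact DEN_aeval _ a x (DEN_eig b Q hb hQ hd a x h) q
  have hopen : IsOpen {v : Fin n → ℝ | 0 < valR b ((B.map (Rat.castHom ℝ)).mulVec v)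
      ((B.map (Rat.castHom ℝ)).mulVec v)} := by
    apply isOpen_lt continuous_const
    have hc : Continuous (fun v : Fin n → ℝ => (B.map (Rat.castHom ℝ)).mulVec v) :=
      Continuous.matrix_mulVec continuous_const continuous_id
    exact (DEN_cont b).comp hc
  have hne : {v : Fin n → ℝ | 0 < valR b ((B.map (Rat.castHom ℝ)).mulVec v)
      ((B.map (Rat.castHom ℝ)).mulVec v)}.Nonempty := by
    refine ⟨(aeval a q : ℝ)⁻¹ • x, ?_⟩
    show 0 < valR b _ _
    rw [Matrix.mulVec_smul, hBx, smul_smul, inv_mul_cancel₀ hq, one_smul]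
    exact hx
  obtain ⟨v, hv⟩ := DEN_dense.exists_mem_open hopen hne
  refine ⟨v, ?_⟩
  rw [← hB]
  have hv' : 0 < valR b ((B.map (Rat.castHom ℝ)).mulVec (DEN_toR v))
      ((B.map (Rat.castHom ℝ)).mulVec (DEN_toR v)) := hv
  rw [DEN_mulVec, DEN_val] at hv'
  exact_mod_cast hv'

end THS
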