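import Pool.Agent.Work.MP_298761_ths.Interface

set_option autoImplicit false

/-! Block EIG: a real eigenvector of the pencil with positive eigenvalue. -/

namespace THS

open Filter Topology Polynomial Data

theorem eig_valR {n : ℕ} (M : Matrix (Fin n) (Fin n) ℚ) (x y : Fin n → ℝ) :
    ((valR M x y : ℝ) : ℂ) = val M (rToC x) (rToC y) := by
  simp [val, valR, rToC]

theorem eig_conj {n : ℕ} (x : Fin n → ℝ) : conj (rToC x) = rToC x := by
  funext i; simp [conj, rToC]

theorem eig_re {n : ℕ} (z : Fin n → ℂ) :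
    rToC (fun i => (z i).re) = (1 / 2 : ℂ) • (z + conj z) := by
  funext i
  simp only [rToC, conj, Pi.smul_apply, Pi.add_apply, smul_eq_mul]
  rw [Complex.add_conj]
  push_cast
  ring

theorem eig_rToC_add {n : ℕ} (x y : Fin n → ℝ) : rToC (x + y) = rToC x + rToC y := by
  funext i; simp [rToC]

theorem eig_rToC_smul {n : ℕ} (c : ℝ) (x : Fin n → ℝ) :
    rToC (c • x) = (c : ℂ) • rToC x := by
  funext i; simp [rToC]

theorem eig_orth {n : ℕ} (M : Matrix (Fin n) (Fin n) ℚ) (x : Fin n → ℝ) (z : Fin n → ℂ)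
    (h : val M (rToC x) z = 0) : valR M x (fun i => (z i).re) = 0 := by
  have h1 : val M (rToC x) (conj z) = 0 := by
    rw [← eig_conj x, val_conj, h, map_zero]
  have h2 : ((valR M x (fun i => (z i).re) : ℝ) : ℂ) = 0 := by
    rw [eig_valR, eig_re, val_smul_right, val_add_right, h, h1, add_zero, mul_zero]
  exact_mod_cast h2

theorem eig_valR_add {n : ℕ} (M : Matrix (Fin n) (Fin n) ℚ) (x y z : Fin n → ℝ) :
    valR M x (y + z) = valR M x y + valR M x z := by
  simp only [valR, Pi.add_apply, mul_add, Finset.sum_add_distrib]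

theorem eig_symm {n : ℕ} (M : Matrix (Fin n) (Fin n) ℚ) (h : M.transpose = M)
    (x y : Fin n → ℂ) : val M x y = val M y x := by
  have h1 := val_transpose M x y
  rwa [h] at h1

/-- The real linear map `x ↦ val b (rToC x) σ`. -/
noncomputable def eigL {n : ℕ} (b : Matrix (Fin n) (Fin n) ℚ) (σ : Fin n → ℂ) :
    (Fin n → ℝ) →ₗ[ℝ] ℂ where
  toFun x := val b (rToC x) σ
  map_add' x y := by rw [eig_rToC_add, val_add_left]
  map_smul' c x := by
    rw [eig_rToC_smul, val_smul_left, RingHom.id_apply, Complex.real_smul]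

theorem p_EIG (hRAY : Stmt_RAY) (_hLNE : Stmt_LNE) : Stmt_EIG := by
  intro n b Q l σ h
  set R : Submodule ℝ (Fin n → ℝ) := LinearMap.ker (eigL b σ) with hR
  have hmem : ∀ x, x ∈ R ↔ val b (rToC x) σ = 0 := fun x => by
    rw [hR, LinearMap.mem_ker]; rfl
  have hq : ∀ x ∈ R, x ≠ 0 → 0 < valR Q x x := fun x hx hx0 => h.qpos x hx0 ((hmem x).1 hx)
  obtain ⟨P, N, hPN, hP4, hPpos, hNneg⟩ := h.sig
  have hex : ∃ x ∈ R, 0 < valR b x x := by
    have hlt : Module.finrank ℝ ℂ < Module.finrank ℝ P := by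
      rw [hP4, Complex.finrank_real_complex]; norm_num
    have hker := LinearMap.ker_ne_bot_of_finrank_lt (f := (eigL b σ).comp P.subtype) hlt
    obtain ⟨x, hx, hx0⟩ := Submodule.exists_mem_ne_zero_of_ne_bot hker
    refine ⟨x, ?_, hPpos x x.2 ?_⟩
    · rw [hR, LinearMap.mem_ker]
      exact LinearMap.mem_ker.1 hx
    · intro h0
      exact hx0 (Subtype.ext h0)
  obtain ⟨m, hm, x, hxR, hxb, hxy⟩ := hRAY n b Q R h.bsymm h.qsymm hq hex
  have hx0 : val b (rToC x) σ = 0 := (hmem x).1 hxR
  have hx1 : val Q (rToC x) σ = 0 := by rw [h.eig, hx0, mul_zero]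
  have hB : val b (conj σ) σ ≠ 0 := by
    intro h0
    have h1 := h.bpos
    rw [eig_symm b h.bsymm, h0] at h1
    simp at h1
  refine ⟨1 / m, one_div_pos.2 hm, x, hxb, fun y => ?_⟩
  set c : ℂ := val b (rToC y) σ with hc
  set t : ℂ := (starRingEnd ℂ) (2 * c / val b (conj σ) σ) with ht
  set z : Fin n → ℂ := t • σ with hz
  have hct : (starRingEnd ℂ) t = 2 * c / val b (conj σ) σ := by
    rw [ht, Complex.conj_conj]
  set y' : Fin n → ℝ := y + (-1 : ℝ) • (fun i => (z i).re) with hy'
  have hyy : y = y' + (fun i => (z i).re) := by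
    funext i
    simp [hy']
  have hy'R : y' ∈ R := by
    rw [hmem, hy', eig_rToC_add, eig_rToC_smul, val_add_left, val_smul_left, eig_re,
      val_smul_left, val_add_left, hz, conj_smul, val_smul_left, val_smul_left, h.iso, hct, ← hc]
    push_cast
    field_simp
    ring
  have h1 : valR b x (fun i => (z i).re) = 0 :=
    eig_orth b x z (by rw [hz, val_smul_right, hx0, mul_zero])
  have h2 : valR Q x (fun i => (z i).re) = 0 :=
    eig_orth Q x z (by rw [hz, val_smul_right, hx1, mul_zero])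
  have e1 : valR b x y = valR b x y' := by
    conv_lhs => rw [hyy]
    rw [eig_valR_add b x y' _, h1, add_zero]
  have e2 : valR Q x y = valR Q x y' := by
    conv_lhs => rw [hyy]
    rw [eig_valR_add Q x y' _, h2, add_zero]
  rw [e1, e2, hxy y' hy'R]
  field_simp

end THS
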