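import Pool.Agent.Work.MP_298761_ths.InterfaceY

/-! # Block EUL: the Euler form at arbitrary vectors -/

set_option autoImplicit false

namespace THS

open Filter Topology

section eul

/-- The value of a rational form over a field of characteristic zero. -/
def eul_gv {R : Type} [Field R] {n : ℕ} (M : Matrix (Fin n) (Fin n) ℚ) (x y : Fin n → R) : R :=
  ∑ i, ∑ j, x i * (M i j : R) * y j

theorem eul_sum {m : ℕ} {A : Type} [AddCommMonoid A] (F : Fin (m + 2) → A) :
    ∑ a, F a = F 0 + (∑ i : Fin m, F i.castSucc.succ + F (Fin.last _)) := by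
  rw [Fin.sum_univ_succ, Fin.sum_univ_castSucc, Fin.succ_last]

theorem eul_ne0 {m : ℕ} (i : Fin m) : (i.castSucc.succ : Fin (m + 2)) ≠ 0 := Fin.succ_ne_zero _

theorem eul_nel {m : ℕ} (i : Fin m) : (i.castSucc.succ : Fin (m + 2)) ≠ Fin.last _ := by
  rw [← Fin.succ_last]
  intro h
  exact (Fin.castSucc_lt_last i).ne (Fin.succ_injective _ h)

theorem eul_0l {m : ℕ} : (0 : Fin (m + 2)) ≠ Fin.last _ := by
  intro h
  have := congrArg Fin.val h
  simp at this

theorem eul_mid0 {m : ℕ} : mid (Pi.single 0 1 : Fin (m + 2) → ℚ) = 0 := by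
  funext i
  simp only [mid, Pi.zero_apply]
  rw [Pi.single_eq_of_ne (eul_ne0 i)]

theorem eul_midl {m : ℕ} : mid (Pi.single (Fin.last _) 1 : Fin (m + 2) → ℚ) = 0 := by
  funext i
  simp only [mid, Pi.zero_apply]
  rw [Pi.single_eq_of_ne (eul_nel i)]

theorem eul_midi {m : ℕ} (i : Fin m) :
    mid (Pi.single i.castSucc.succ 1 : Fin (m + 2) → ℚ) = Pi.single i 1 := by
  funext j
  simp only [mid]
  by_cases h : j = i
  · subst h; simp
  · rw [Pi.single_eq_of_ne h, Pi.single_eq_of_ne]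
    intro h2
    exact h (Fin.castSucc_injective _ (Fin.succ_injective _ h2))

theorem eul_v0 {n : ℕ} (M : Matrix (Fin n) (Fin n) ℚ) (x : Fin n → ℚ) : valQ M x 0 = 0 := by
  simp [valQ]

theorem eul_v0' {n : ℕ} (M : Matrix (Fin n) (Fin n) ℚ) (x : Fin n → ℚ) : valQ M 0 x = 0 := by
  simp [valQ]

theorem eul_vs {n : ℕ} (M : Matrix (Fin n) (Fin n) ℚ) (x : Fin n → ℚ) (j : Fin n) :
    valQ M x (Pi.single j 1) = ∑ k, x k * M k j := by
  unfold valQ
  refine Finset.sum_congr rfl fun k _ => ?_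
  rw [Finset.sum_eq_single j]
  · simp
  · intro b _ hb
    rw [Pi.single_eq_of_ne hb, mul_zero]
  · intro h; exact absurd (Finset.mem_univ _) h

theorem eul_vss {n : ℕ} (M : Matrix (Fin n) (Fin n) ℚ) (i j : Fin n) :
    valQ M (Pi.single i 1) (Pi.single j 1) = M i j := by
  rw [eul_vs, Finset.sum_eq_single i]
  · simp
  · intro b _ hb
    rw [Pi.single_eq_of_ne hb, zero_mul]
  · intro h; exact absurd (Finset.mem_univ _) h

variable (Y : Surface)

theorem eul_entry (a b : Fin (Y.m + 2)) : Y.euler a b =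
    (Pi.single a 1 : Fin (Y.m + 2) → ℚ) 0 * (Pi.single b 1 : Fin (Y.m + 2) → ℚ) (Fin.last _) +
      (Pi.single a 1 : Fin (Y.m + 2) → ℚ) (Fin.last _) * (Pi.single b 1 : Fin (Y.m + 2) → ℚ) 0 -
      valQ Y.cup (mid (Pi.single a 1)) (mid (Pi.single b 1)) -
      ((Pi.single a 1 : Fin (Y.m + 2) → ℚ) 0 * valQ Y.cup Y.K (mid (Pi.single b 1)) -
        (Pi.single b 1 : Fin (Y.m + 2) → ℚ) 0 * valQ Y.cup Y.K (mid (Pi.single a 1))) / 2 +
      Y.e * (Pi.single a 1 : Fin (Y.m + 2) → ℚ) 0 * (Pi.single b 1 : Fin (Y.m + 2) → ℚ) 0 := rfl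

theorem eul_e00 : Y.euler 0 0 = Y.e := by
  rw [eul_entry, eul_mid0, eul_v0, eul_v0, Pi.single_eq_same,
    Pi.single_eq_of_ne (eul_0l (m := Y.m)).symm]
  ring

theorem eul_e0l : Y.euler 0 (Fin.last _) = 1 := by
  rw [eul_entry, eul_mid0, eul_midl, eul_v0, eul_v0, Pi.single_eq_same, Pi.single_eq_same,
    Pi.single_eq_of_ne (eul_0l (m := Y.m)), Pi.single_eq_of_ne (eul_0l (m := Y.m)).symm]
  ring

theorem eul_el0 : Y.euler (Fin.last _) 0 = 1 := by
  rw [eul_entry, eul_mid0, eul_midl, eul_v0, eul_v0, Pi.single_eq_same, Pi.single_eq_same,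
    Pi.single_eq_of_ne (eul_0l (m := Y.m)), Pi.single_eq_of_ne (eul_0l (m := Y.m)).symm]
  ring

theorem eul_ell : Y.euler (Fin.last _) (Fin.last _) = 0 := by
  rw [eul_entry, eul_midl, eul_v0, eul_v0, Pi.single_eq_same,
    Pi.single_eq_of_ne (eul_0l (m := Y.m))]
  ring

theorem eul_e0i (i : Fin Y.m) : Y.euler 0 i.castSucc.succ = -(∑ k, Y.K k * Y.cup k i) / 2 := by
  rw [eul_entry, eul_mid0, eul_midi, eul_v0', eul_v0, eul_vs, Pi.single_eq_same,
    Pi.single_eq_of_ne (eul_0l (m := Y.m)).symm, Pi.single_eq_of_ne (eul_nel i).symm,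
    Pi.single_eq_of_ne (eul_ne0 i).symm]
  ring

theorem eul_ei0 (i : Fin Y.m) : Y.euler i.castSucc.succ 0 = (∑ k, Y.K k * Y.cup k i) / 2 := by
  rw [eul_entry, eul_mid0, eul_midi, eul_v0, eul_v0, eul_vs, Pi.single_eq_same,
    Pi.single_eq_of_ne (eul_0l (m := Y.m)).symm, Pi.single_eq_of_ne (eul_nel i).symm,
    Pi.single_eq_of_ne (eul_ne0 i).symm]
  ring

theorem eul_eli (i : Fin Y.m) : Y.euler (Fin.last _) i.castSucc.succ = 0 := by
  rw [eul_entry, eul_midl, eul_midi, eul_v0', eul_v0, eul_vs, Pi.single_eq_same,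
    Pi.single_eq_of_ne (eul_0l (m := Y.m)), Pi.single_eq_of_ne (eul_nel i).symm,
    Pi.single_eq_of_ne (eul_ne0 i).symm]
  ring

theorem eul_eil (i : Fin Y.m) : Y.euler i.castSucc.succ (Fin.last _) = 0 := by
  rw [eul_entry, eul_midl, eul_midi, eul_v0, eul_v0, eul_vs, Pi.single_eq_same,
    Pi.single_eq_of_ne (eul_0l (m := Y.m)), Pi.single_eq_of_ne (eul_nel i).symm,
    Pi.single_eq_of_ne (eul_ne0 i).symm]
  ring

theorem eul_eij (i j : Fin Y.m) : Y.euler i.castSucc.succ j.castSucc.succ = -Y.cup i j := by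
  rw [eul_entry, eul_midi, eul_midi, eul_vss, Pi.single_eq_of_ne (eul_nel i).symm,
    Pi.single_eq_of_ne (eul_ne0 i).symm, Pi.single_eq_of_ne (eul_nel j).symm,
    Pi.single_eq_of_ne (eul_ne0 j).symm]
  ring

theorem eul_kap {R : Type} [Field R] [CharZero R] (z : Fin Y.m → R) :
    eul_gv Y.cup (fun i => (Y.K i : R)) z =
      ∑ j, (∑ k, (Y.K k : R) * (Y.cup k j : R)) * z j := by
  unfold eul_gv
  rw [Finset.sum_comm]
  exact Finset.sum_congr rfl fun j _ => by rw [Finset.sum_mul]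

theorem eul_main {R : Type} [Field R] [CharZero R] (x y : Fin (Y.m + 2) → R) :
    eul_gv Y.euler x y = x 0 * y (Fin.last _) + x (Fin.last _) * y 0 -
      eul_gv Y.cup (mid x) (mid y) -
      (x 0 * eul_gv Y.cup (fun i => (Y.K i : R)) (mid y) -
        y 0 * eul_gv Y.cup (fun i => (Y.K i : R)) (mid x)) / 2 + (Y.e : R) * x 0 * y 0 := by
  set κ : Fin Y.m → R := fun j => ∑ k, (Y.K k : R) * (Y.cup k j : R) with hκ
  have hS : ∀ a : Fin (Y.m + 2), ∑ b, x a * (Y.euler a b : R) * y b =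
      x a * (Y.euler a 0 : R) * y 0 +
        (∑ i : Fin Y.m, x a * (Y.euler a i.castSucc.succ : R) * y i.castSucc.succ +
          x a * (Y.euler a (Fin.last _) : R) * y (Fin.last _)) := fun a => eul_sum _
  have h0 : ∑ b, x 0 * (Y.euler 0 b : R) * y b = x 0 * (Y.e : R) * y 0 +
      (-(x 0 * ∑ i, κ i * mid y i) / 2 + x 0 * y (Fin.last _)) := by
    rw [hS, eul_e00, eul_e0l]
    have h1 : ∑ i : Fin Y.m, x 0 * (Y.euler 0 i.castSucc.succ : R) * y i.castSucc.succ =
        -(x 0 * ∑ i, κ i * mid y i) / 2 := by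
      rw [Finset.mul_sum, ← Finset.sum_neg_distrib, Finset.sum_div]
      refine Finset.sum_congr rfl fun i _ => ?_
      rw [eul_e0i]
      simp only [hκ, mid]
      push_cast
      ring
    rw [h1]
    push_cast
    ring
  have hl : ∑ b, x (Fin.last _) * (Y.euler (Fin.last _) b : R) * y b =
      x (Fin.last _) * y 0 := by
    rw [hS, eul_el0, eul_ell]
    have h1 : ∑ i : Fin Y.m, x (Fin.last _) * (Y.euler (Fin.last _) i.castSucc.succ : R) *
        y i.castSucc.succ = 0 := by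
      refine Finset.sum_eq_zero fun i _ => ?_
      rw [eul_eli]
      simp
    rw [h1]
    push_cast
    ring
  have hi : ∀ i : Fin Y.m, ∑ b, x i.castSucc.succ * (Y.euler i.castSucc.succ b : R) * y b =
      y 0 * (κ i * mid x i) / 2 - ∑ j, mid x i * (Y.cup i j : R) * mid y j := by
    intro i
    rw [hS, eul_ei0, eul_eil]
    have h1 : ∑ j : Fin Y.m, x i.castSucc.succ * (Y.euler i.castSucc.succ j.castSucc.succ : R) *
        y j.castSucc.succ = -∑ j, mid x i * (Y.cup i j : R) * mid y j := by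
      rw [← Finset.sum_neg_distrib]
      refine Finset.sum_congr rfl fun j _ => ?_
      rw [eul_eij]
      simp only [mid]
      push_cast
      ring
    rw [h1]
    simp only [hκ, mid]
    push_cast
    ring
  rw [eul_kap, eul_kap]
  have hL : eul_gv Y.euler x y = ∑ a, ∑ b, x a * (Y.euler a b : R) * y b := rfl
  have hC : eul_gv Y.cup (mid x) (mid y) =
      ∑ i, ∑ j, mid x i * (Y.cup i j : R) * mid y j := rfl
  rw [hL, hC, eul_sum, h0, hl, Finset.sum_congr rfl fun i _ => hi i, Finset.sum_sub_distrib,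
    ← Finset.sum_div, ← Finset.mul_sum]
  simp only [hκ]
  ring

end eul

theorem p_EUL : Stmt_EUL := by
  intro Y
  refine ⟨fun x y => ?_, fun x y => ?_, fun hK x y => ?_⟩
  · exact eul_main Y x y
  · have h : ∀ {n : ℕ} (M : Matrix (Fin n) (Fin n) ℚ) (x y : Fin n → ℚ),
        valQ M x y = eul_gv M x y := by
      intro n M x y
      simp [valQ, eul_gv]
    have h1 := eul_main Y x y
    simp only [Rat.cast_id, ← h] at h1
    exact h1
  · have h1 := eul_main Y x y
    have h2 : ∀ z : Fin Y.m → ℝ, eul_gv Y.cup (fun i => (Y.K i : ℝ)) z = 0 := by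
      intro z
      simp [eul_gv, hK]
    rw [h2, h2] at h1
    have h3 : valR Y.euler x y = eul_gv Y.euler x y := rfl
    have h4 : valR Y.cup (mid x) (mid y) = eul_gv Y.cup (mid x) (mid y) := rfl
    rw [h3, h4, h1]
    ring

end THS
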