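import Pool.Agent.Work.MP_298761_ths.InterfaceY

/-!
# THEOREM S, block EXK (exp(K) and Serre duality), typed by helper20
-/

set_option autoImplicit false

namespace THS

open Filter Topology

theorem exk_ext {R : Type} {m : ℕ} {x y : Fin (m + 2) → R} (h0 : x 0 = y 0)
    (h1 : mid x = mid y) (h2 : x (Fin.last _) = y (Fin.last _)) : x = y := by
  funext i
  refine Fin.cases h0 (fun i => ?_) i
  refine Fin.lastCases h2 (fun i => ?_) i
  exact congrFun h1 i

theorem exk_vec_zero {R : Type} {m : ℕ} (r : R) (c : Fin m → R) (s : R) : vec r c s 0 = r := rfl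

theorem exk_vec_mid {R : Type} {m : ℕ} (r : R) (c : Fin m → R) (s : R) : mid (vec r c s) = c := by
  funext i
  show (Fin.cons r (Fin.snoc c s : Fin (m + 1) → R) : Fin (m + 2) → R) i.castSucc.succ = c i
  rw [Fin.cons_succ, Fin.snoc_castSucc]

theorem exk_vec_last {R : Type} {m : ℕ} (r : R) (c : Fin m → R) (s : R) :
    vec r c s (Fin.last _) = s := by
  show (Fin.cons r (Fin.snoc c s : Fin (m + 1) → R) : Fin (m + 2) → R) (Fin.last m).succ = s
  rw [Fin.cons_succ, Fin.snoc_last]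

theorem exk_mid_add {m : ℕ} (x y : Fin (m + 2) → ℚ) : mid (x + y) = mid x + mid y := rfl

theorem exk_mid_smul {m : ℕ} (a : ℚ) (x : Fin (m + 2) → ℚ) : mid (a • x) = a • mid x := rfl

theorem exk_valQ_transpose {n : ℕ} (M : Matrix (Fin n) (Fin n) ℚ) (x y : Fin n → ℚ) :
    valQ M.transpose x y = valQ M y x := by
  simp only [valQ, Matrix.transpose_apply]
  rw [Finset.sum_comm]
  refine Finset.sum_congr rfl fun i _ => Finset.sum_congr rfl fun j _ => by ring

theorem exk_symm (Y : Surface) (x y : Fin Y.m → ℚ) : valQ Y.cup x y = valQ Y.cup y x := by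
  rw [← exk_valQ_transpose, Y.symm]

/-- `exp(K)` -/
def exk_E (Y : Surface) : (Fin (Y.m + 2) → ℚ) →ₗ[ℚ] (Fin (Y.m + 2) → ℚ) where
  toFun x := x + vec 0 (x 0 • Y.K) (valQ Y.cup (mid x) Y.K + x 0 * valQ Y.cup Y.K Y.K / 2)
  map_add' x y := by
    refine exk_ext ?_ ?_ ?_
    · simp only [Pi.add_apply, exk_vec_zero]; ring
    · simp only [exk_mid_add, exk_vec_mid, Pi.add_apply, add_smul]
      abel
    · simp only [Pi.add_apply, exk_vec_last, exk_mid_add, valQ_add_left]; ring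
  map_smul' a x := by
    refine exk_ext ?_ ?_ ?_
    · simp only [Pi.add_apply, Pi.smul_apply, exk_vec_zero, RingHom.id_apply, smul_eq_mul]; ring
    · simp only [exk_mid_add, exk_mid_smul, exk_vec_mid, Pi.smul_apply, RingHom.id_apply,
        smul_eq_mul, smul_add, mul_smul]
    · simp only [Pi.add_apply, Pi.smul_apply, exk_vec_last, exk_mid_smul, valQ_smul_left,
        RingHom.id_apply, smul_eq_mul]; ring

theorem exk_E_apply (Y : Surface) (x : Fin (Y.m + 2) → ℚ) : exk_E Y x =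
    x + vec 0 (x 0 • Y.K) (valQ Y.cup (mid x) Y.K + x 0 * valQ Y.cup Y.K Y.K / 2) := rfl

theorem exk_E_sub (Y : Surface) (x : Fin (Y.m + 2) → ℚ) : exk_E Y x - x =
    vec 0 (x 0 • Y.K) (valQ Y.cup (mid x) Y.K + x 0 * valQ Y.cup Y.K Y.K / 2) := by
  rw [exk_E_apply]; abel

theorem exk_exists (Y : Surface) (hK : Y.K ≠ 0) : ∃ c : Fin Y.m → ℚ, valQ Y.cup c Y.K = 1 := by
  by_contra hcon
  push Not at hcon
  have h0 : ∀ c : Fin Y.m → ℚ, valQ Y.cup c Y.K = 0 := by
    intro c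
    by_contra hc
    apply hcon ((valQ Y.cup c Y.K)⁻¹ • c)
    rw [valQ_smul_left, inv_mul_cancel₀ hc]
  have h1 : (Y.cup).mulVec Y.K = 0 := by
    funext i
    have h2 := h0 (Pi.single i 1)
    rw [valQ_eq_dot] at h2
    simpa using h2
  exact hK (Matrix.eq_zero_of_mulVec_eq_zero Y.nondeg h1)

theorem p_EXK (h1 : Stmt_EUL) : Stmt_EXK := by
  intro Y
  obtain ⟨hC, hQ, -⟩ := h1 Y
  refine ⟨exk_E Y, ?_, ?_, ?_⟩
  · intro x y
    rw [hQ x y, hQ y (exk_E Y x), exk_E_apply]
    simp only [Pi.add_apply, exk_vec_zero, exk_vec_last, exk_mid_add, exk_vec_mid,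
      valQ_add_right, valQ_smul_right]
    rw [exk_symm Y (mid y) (mid x), exk_symm Y (mid y) Y.K, exk_symm Y (mid x) Y.K]
    ring
  · intro x a ha
    rw [exk_E_sub]
    refine Submodule.span_induction (p := fun a _ => val Y.euler
      (toC (vec 0 (x 0 • Y.K) (valQ Y.cup (mid x) Y.K + x 0 * valQ Y.cup Y.K Y.K / 2))) a = 0)
      ?_ ?_ ?_ ?_ ha
    · rintro _ ⟨j, rfl⟩
      simp only []
      rw [hC]
      have e0 : toC (vec 0 (x 0 • Y.K)
          (valQ Y.cup (mid x) Y.K + x 0 * valQ Y.cup Y.K Y.K / 2)) 0 = 0 := by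
        show (((0 : ℚ)) : ℂ) = 0
        simp
      have e1 : mid (toC (vec 0 (x 0 • Y.K)
          (valQ Y.cup (mid x) Y.K + x 0 * valQ Y.cup Y.K Y.K / 2))) = ((x 0 : ℚ) : ℂ) • toC Y.K := by
        rw [← toC_smul]
        funext i
        have := congrFun (exk_vec_mid 0 (x 0 • Y.K)
          (valQ Y.cup (mid x) Y.K + x 0 * valQ Y.cup Y.K Y.K / 2)) i
        show (((mid (vec 0 (x 0 • Y.K)
          (valQ Y.cup (mid x) Y.K + x 0 * valQ Y.cup Y.K Y.K / 2)) i : ℚ)) : ℂ) = _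
        rw [this]
        rfl
      rw [e0, e1, exk_vec_zero, exk_vec_mid, val_smul_left, Y.canonical j]
      ring
    · exact val_zero_right _ _
    · intro a b _ _ ha hb
      rw [val_add_right, ha, hb, add_zero]
    · intro c a _ ha
      rw [val_smul_right, ha, mul_zero]
  · intro hK
    obtain ⟨c, hc⟩ := exk_exists Y hK
    refine ⟨vec 0 c 0, ?_⟩
    rw [exk_E_sub, exk_vec_zero, exk_vec_mid, hc]
    show vec 0 _ _ = vec 0 0 1
    simp

end THS
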