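import Pool.Agent.Work.MP_298761_ths.InterfaceY

/-! Block FN1 of the table ths_blocks (helper55) -/

set_option autoImplicit false

namespace THS

open Filter Topology

theorem FN1_flat_add {n d g : ℕ} {χ : Matrix (Fin n) (Fin n) ℚ}
    {ω : (Fin d → ℂ) → Fin g → Fin n → ℂ} {x y : Fin n → ℚ} (hx : Flat χ ω x) (hy : Flat χ ω y) :
    Flat χ ω (x + y) := by
  intro s hs j
  rw [toC_add, val_add_left, hx s hs j, hy s hs j, add_zero]

theorem FN1_flat_smul {n d g : ℕ} {χ : Matrix (Fin n) (Fin n) ℚ}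
    {ω : (Fin d → ℂ) → Fin g → Fin n → ℂ} {x : Fin n → ℚ} (hx : Flat χ ω x) (c : ℚ) :
    Flat χ ω (c • x) := by
  intro s hs j
  rw [toC_smul, val_smul_left, hx s hs j, mul_zero]

theorem FN1_flat_zsmul {n d g : ℕ} {χ : Matrix (Fin n) (Fin n) ℚ}
    {ω : (Fin d → ℂ) → Fin g → Fin n → ℂ} {x : Fin n → ℚ} (hx : Flat χ ω x) (c : ℤ) :
    Flat χ ω (c • x) := by
  rw [← Int.cast_smul_eq_zsmul ℚ]
  exact FN1_flat_smul hx _

theorem FN1_flat_sub {n d g : ℕ} {χ : Matrix (Fin n) (Fin n) ℚ}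
    {ω : (Fin d → ℂ) → Fin g → Fin n → ℂ} {x y : Fin n → ℚ} (hx : Flat χ ω x) (hy : Flat χ ω y) :
    Flat χ ω (x - y) := by
  intro s hs j
  rw [toC_sub, val_sub_left, hx s hs j, hy s hs j, sub_zero]

theorem FN1_point_zero (Y : Surface) : Y.point 0 = 0 := rfl

theorem FN1_point_last (Y : Surface) : Y.point (Fin.last _) = 1 := by
  unfold Surface.point vec
  rw [show (Fin.last (Y.m + 1)) = (Fin.last Y.m).succ from rfl, Fin.cons_succ, Fin.snoc_last]

theorem FN1_point_mid (Y : Surface) : mid Y.point = 0 := by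
  funext i
  show Y.point i.castSucc.succ = 0
  unfold Surface.point vec
  rw [Fin.cons_succ, Fin.snoc_castSucc]
  rfl

theorem FN1_valQ_zero {n : ℕ} (M : Matrix (Fin n) (Fin n) ℚ) (x : Fin n → ℚ) :
    valQ M x 0 = 0 := by
  simp [valQ]

theorem p_FN1 (hEUL : Stmt_EUL) (hEXK : Stmt_EXK) (hSER : Stmt_SER) (hRKU : Stmt_RKU) :
    Stmt_FN1 := by
  intro Y d g ω hvar hspan hKp N M₀ hN φ hφ
  have hpf : Flat Y.euler ω Y.point := by
    rcases hKp with hK | hp
    · obtain ⟨E, hE1, hE2, hE3⟩ := hEXK Y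
      obtain ⟨x, hx⟩ := hE3 hK
      have h1 := hSER (Y.m + 2) d g Y.euler ω hvar E hE1 (fun x j => by
        apply hE2
        rw [← hspan]
        exact Submodule.subset_span ⟨j, rfl⟩) x
      rw [hx] at h1
      exact h1
    · intro s hs j
      exfalso
      have h1 : ω 0 j ∈ Y.F1 := by
        rw [← hspan]
        exact Submodule.subset_span ⟨j, rfl⟩
      have hemp : IsEmpty (Fin Y.p) := by
        rw [hp]
        infer_instance
      have h2 : Y.F1 = ⊥ := by
        unfold Surface.F1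
        rw [Set.range_eq_empty, Submodule.span_empty]
      rw [h2, Submodule.mem_bot] at h1
      exact (hvar.basis 0 (zero_mem_disc d)).ne_zero j h1
  have hp0 : Y.point ≠ 0 := by
    intro h
    have h1 := FN1_point_last Y
    rw [h] at h1
    simp at h1
  obtain ⟨u, hu, huf⟩ := hRKU (Y.m + 2) d g Y.euler ω hvar Y.point hp0 hpf
  have huf' : Flat Y.euler ω u := huf
  have hu0 : 0 < u 0 := by
    rw [(hEUL Y).2.1, FN1_point_zero, FN1_point_last, FN1_point_mid, FN1_valQ_zero,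
      FN1_valQ_zero] at hu
    simpa using hu
  obtain ⟨k, hk⟩ := exists_nat_gt (-(φ 0) / u 0)
  have hk' : 0 < φ 0 + k * u 0 := by
    rw [div_lt_iff₀ hu0] at hk
    linarith
  set x : Fin (Y.m + 2) → ℚ := φ + (k : ℚ) • u with hx
  have hxf : Flat Y.euler ω x := FN1_flat_add hφ (FN1_flat_smul huf' _)
  have hx0 : 0 < x 0 := by
    rw [hx]
    simpa using hk'
  set S : Set (Fin (Y.m + 2) → ℚ) := {x | Flat Y.euler ω x ∧ ∃ v, Flat Y.euler ω v ∧ 0 < v 0 ∧
    ∃ M ≥ M₀ v, x = N v • v - M • Y.point} with hS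
  have hmem : ∀ v, Flat Y.euler ω v → 0 < v 0 → ∀ M ≥ M₀ v,
      N v • v - M • Y.point ∈ Submodule.span ℚ S := by
    intro v hv hv0 M hM
    apply Submodule.subset_span
    exact ⟨FN1_flat_sub (FN1_flat_zsmul hv _) (FN1_flat_zsmul hpf _), v, hv, hv0, M, hM, rfl⟩
  have hpS : Y.point ∈ Submodule.span ℚ S := by
    have h1 := hmem u huf' hu0 (M₀ u) le_rfl
    have h2 := hmem u huf' hu0 (M₀ u + 1) (by linarith)
    have h3 := Submodule.sub_mem _ h1 h2
    have h4 : N u • u - M₀ u • Y.point - (N u • u - (M₀ u + 1) • Y.point) = Y.point := by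
      rw [add_smul, one_smul]
      abel
    rwa [h4] at h3
  have hvS : ∀ v, Flat Y.euler ω v → 0 < v 0 → v ∈ Submodule.span ℚ S := by
    intro v hv hv0
    have h1 := hmem v hv hv0 (M₀ v) le_rfl
    have h2 : N v • v ∈ Submodule.span ℚ S := by
      have h3 := Submodule.add_mem _ h1 (Submodule.smul_mem _ ((M₀ v : ℤ) : ℚ) hpS)
      rw [Int.cast_smul_eq_zsmul, sub_add_cancel] at h3
      exact h3
    have h4 := Submodule.smul_mem _ ((N v : ℚ)⁻¹) h2
    rw [← Int.cast_smul_eq_zsmul ℚ (N v) v, smul_smul, inv_mul_cancel₀, one_smul] at h4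
    · exact h4
    · exact_mod_cast (hN v).ne'
  have hfin : φ = x - (k : ℚ) • u := by
    rw [hx]
    abel
  rw [hfin]
  exact Submodule.sub_mem _ (hvS x hxf hx0) (Submodule.smul_mem _ _ (hvS u huf' hu0))

end THS
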