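import Pool.Agent.Work.MP_298761_ths.InterfaceY
import Pool.Agent.Work.MP_298761_ths.B_FN1

/-! The integral form of FN1 and FN2. -/

set_option autoImplicit false

namespace THS

open Filter Topology

/-- Integral form of FN1: generators of the group of flat Hodge classes in a lattice `L`. -/
theorem fz1 (hEUL : Stmt_EUL) (hEXK : Stmt_EXK) (hSER : Stmt_SER) (hRKU : Stmt_RKU)
    (Y : Surface) (d g : ℕ) (ω : (Fin d → ℂ) → Fin g → Fin (Y.m + 2) → ℂ)
    (hvar : IsVariation Y.euler ω) (hspan : Submodule.span ℂ (Set.range (ω 0)) = Y.F1)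
    (hKp : Y.K ≠ 0 ∨ Y.p = 0) (L : AddSubgroup (Fin (Y.m + 2) → ℚ))
    (hL : ∀ v, ∃ N : ℕ, 0 < N ∧ N • v ∈ L) (hpL : Y.point ∈ L)
    (M₀ : (Fin (Y.m + 2) → ℚ) → ℤ) (φ : Fin (Y.m + 2) → ℚ) (hφL : φ ∈ L)
    (hφ : Flat Y.euler ω φ) :
    φ ∈ AddSubgroup.closure {x | x ∈ L ∧ Flat Y.euler ω x ∧ ∃ v ∈ L, Flat Y.euler ω v ∧
      0 < v 0 ∧ ∃ M ≥ M₀ v, x = v - M • Y.point} := by
  have hpf : Flat Y.euler ω Y.point := by
    rcases hKp with hK | hp
    · obtain ⟨E, hE1, hE2, hE3⟩ := hEXK Y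
      obtain ⟨x, hx⟩ := hE3 hK
      have h1 := hSER (Y.m + 2) d g Y.euler ω hvar E hE1 (fun x j => by
        apply hE2
        rw [← hspan]
        exact Submodule.subset_span ⟨j, rfl⟩) x
      rw [hx] at h1
      exact h1
    · intro s hs j
      exfalso
      have h1 : ω 0 j ∈ Y.F1 := by
        rw [← hspan]
        exact Submodule.subset_span ⟨j, rfl⟩
      have hemp : IsEmpty (Fin Y.p) := by
        rw [hp]
        infer_instance
      have h2 : Y.F1 = ⊥ := by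
        unfold Surface.F1
        rw [Set.range_eq_empty, Submodule.span_empty]
      rw [h2, Submodule.mem_bot] at h1
      exact (hvar.basis 0 (zero_mem_disc d)).ne_zero j h1
  have hp0 : Y.point ≠ 0 := by
    intro h
    have h1 := FN1_point_last Y
    rw [h] at h1
    simp at h1
  obtain ⟨u₀, hu₀, hu₀f⟩ := hRKU (Y.m + 2) d g Y.euler ω hvar Y.point hp0 hpf
  have hu₀f' : Flat Y.euler ω u₀ := hu₀f
  have hu₀0 : 0 < u₀ 0 := by
    rw [(hEUL Y).2.1, FN1_point_zero, FN1_point_last, FN1_point_mid, FN1_valQ_zero,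
      FN1_valQ_zero] at hu₀
    simpa using hu₀
  -- an integral multiple of `u₀`
  obtain ⟨N, hN, hNu⟩ := hL u₀
  set u : Fin (Y.m + 2) → ℚ := N • u₀ with hu
  have huf : Flat Y.euler ω u := by
    rw [hu, ← Nat.cast_smul_eq_nsmul ℚ]
    exact FN1_flat_smul hu₀f' _
  have hu0 : 0 < u 0 := by
    rw [hu, Pi.smul_apply, nsmul_eq_mul]
    exact mul_pos (by exact_mod_cast hN) hu₀0
  obtain ⟨k, hk⟩ := exists_nat_gt (-(φ 0) / u 0)
  have hk' : 0 < φ 0 + k * u 0 := by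
    rw [div_lt_iff₀ hu0] at hk
    linarith
  set x : Fin (Y.m + 2) → ℚ := φ + k • u with hx
  have hxL : x ∈ L := L.add_mem hφL (L.nsmul_mem hNu k)
  have hxf : Flat Y.euler ω x := by
    rw [hx, ← Nat.cast_smul_eq_nsmul ℚ]
    exact FN1_flat_add hφ (FN1_flat_smul huf _)
  have hx0 : 0 < x 0 := by
    rw [hx]
    simpa using hk'
  set S : Set (Fin (Y.m + 2) → ℚ) := {x | x ∈ L ∧ Flat Y.euler ω x ∧ ∃ v ∈ L, Flat Y.euler ω v ∧
    0 < v 0 ∧ ∃ M ≥ M₀ v, x = v - M • Y.point} with hS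
  have hmem : ∀ v ∈ L, Flat Y.euler ω v → 0 < v 0 → ∀ M ≥ M₀ v,
      v - M • Y.point ∈ AddSubgroup.closure S := by
    intro v hvL hv hv0 M hM
    apply AddSubgroup.subset_closure
    exact ⟨L.sub_mem hvL (L.zsmul_mem hpL M), FN1_flat_sub hv (FN1_flat_zsmul hpf _), v, hvL, hv,
      hv0, M, hM, rfl⟩
  have hpS : Y.point ∈ AddSubgroup.closure S := by
    have h1 := hmem u hNu huf hu0 (M₀ u) le_rfl
    have h2 := hmem u hNu huf hu0 (M₀ u + 1) (by linarith)
    have h3 := AddSubgroup.sub_mem _ h1 h2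
    have h4 : u - M₀ u • Y.point - (u - (M₀ u + 1) • Y.point) = Y.point := by
      rw [add_smul, one_smul]
      abel
    rwa [h4] at h3
  have hvS : ∀ v ∈ L, Flat Y.euler ω v → 0 < v 0 → v ∈ AddSubgroup.closure S := by
    intro v hvL hv hv0
    have h1 := hmem v hvL hv hv0 (M₀ v) le_rfl
    have h3 := AddSubgroup.add_mem _ h1 (AddSubgroup.zsmul_mem _ hpS (M₀ v))
    rwa [sub_add_cancel] at h3
  have hfin : φ = x - k • u := by
    rw [hx]
    abel
  rw [hfin]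
  exact AddSubgroup.sub_mem _ (hvS x hxL hxf hx0) (AddSubgroup.nsmul_mem _ (hvS u hNu huf hu0) k)

/-- Integral form of FN2. -/
theorem fz2 (hS : Stmt_SGN) (hLIN : Stmt_LIN) (hP : Stmt_POS)
    (Y : Surface) (d g : ℕ) (ω : (Fin d → ℂ) → Fin g → Fin (Y.m + 2) → ℂ)
    (hV : IsVariation Y.euler ω) (hsp : Submodule.span ℂ (Set.range (ω 0)) = Y.F1)
    (hK : Y.K = 0) (hp : Y.p ≠ 0) (L : AddSubgroup (Fin (Y.m + 2) → ℚ))
    (hL : ∀ v, ∃ N : ℕ, 0 < N ∧ N • v ∈ L) (φ : Fin (Y.m + 2) → ℚ) (hφL : φ ∈ L)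
    (hφ : Flat Y.euler ω φ) :
    φ ∈ AddSubgroup.closure {x | x ∈ L ∧ Flat Y.euler ω x ∧ valQ Y.euler x x < 0} := by
  obtain ⟨hsym, hsig⟩ := hS Y hK hp
  have hind := hV.basis 0 (zero_mem_disc d)
  obtain ⟨hg, hneg, h', hh', hort⟩ := hLIN Y g (ω 0) hK hp hind hsp
  subst hg
  obtain ⟨w₀, hw₀, hw₀f⟩ := hP _ d Y.euler ω hV hsym hsig (hneg 0) h' hh' (hort 0)
  have hw₀F : Flat Y.euler ω w₀ := fun s hs j => by
    rw [Subsingleton.elim j 0]
    exact hw₀f s hs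
  obtain ⟨N, hN, hNw⟩ := hL w₀
  set w : Fin (Y.m + 2) → ℚ := N • w₀ with hwdef
  have hwF : Flat Y.euler ω w := by
    rw [hwdef, ← Nat.cast_smul_eq_nsmul ℚ]
    exact FN1_flat_smul hw₀F _
  have hw : valQ Y.euler w w < 0 := by
    rw [hwdef, ← Nat.cast_smul_eq_nsmul ℚ, valQ_smul_left, valQ_smul_right, ← mul_assoc]
    have : (0 : ℚ) < N := by exact_mod_cast hN
    exact mul_neg_of_pos_of_neg (mul_pos this this) hw₀
  set A := valQ Y.euler φ φ with hA
  set B := valQ Y.euler φ w + valQ Y.euler w φ with hB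
  set D := -valQ Y.euler w w with hD
  have hD0 : 0 < D := by rw [hD]; linarith
  obtain ⟨k, hk⟩ := exists_nat_gt ((|A| + |B|) / D)
  have hk1 : |A| + |B| < k * D := (div_lt_iff₀ hD0).1 hk
  have hk0 : (1 : ℚ) ≤ k := by
    have h1 : (0 : ℚ) < k := lt_of_le_of_lt
      (div_nonneg (add_nonneg (abs_nonneg _) (abs_nonneg _)) hD0.le) hk
    have h2 : 0 < k := by exact_mod_cast h1
    exact_mod_cast h2
  have hcast : φ + k • w = φ + (k : ℚ) • w := by rw [Nat.cast_smul_eq_nsmul]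
  have hneg2 : valQ Y.euler (φ + k • w) (φ + k • w) < 0 := by
    rw [hcast]
    have e : valQ Y.euler (φ + (k : ℚ) • w) (φ + (k : ℚ) • w) = A + k * B - k * (k * D) := by
      rw [valQ_add_left, valQ_add_right, valQ_add_right, valQ_smul_left, valQ_smul_left,
        valQ_smul_right, valQ_smul_right, hA, hB, hD]
      ring
    rw [e]
    have h1 : A ≤ k * |A| := by
      have := le_abs_self A
      nlinarith [abs_nonneg A]
    have h2 : k * B ≤ k * |B| := mul_le_mul_of_nonneg_left (le_abs_self B) (by linarith)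
    have h3 : (k : ℚ) * (|A| + |B|) < k * (k * D) := mul_lt_mul_of_pos_left hk1 (by linarith)
    linarith
  have hF2 : Flat Y.euler ω (φ + k • w) := by
    rw [hcast]
    exact FN1_flat_add hφ (FN1_flat_smul hwF _)
  have h1 : φ + k • w ∈ AddSubgroup.closure
      {x | x ∈ L ∧ Flat Y.euler ω x ∧ valQ Y.euler x x < 0} :=
    AddSubgroup.subset_closure ⟨L.add_mem hφL (L.nsmul_mem hNw k), hF2, hneg2⟩
  have h2 : w ∈ AddSubgroup.closure {x | x ∈ L ∧ Flat Y.euler ω x ∧ valQ Y.euler x x < 0} :=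
    AddSubgroup.subset_closure ⟨hNw, hwF, hw⟩
  have h3 := AddSubgroup.sub_mem _ h1 (AddSubgroup.nsmul_mem _ h2 k)
  rwa [add_sub_cancel_right] at h3

end THS
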