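import Pool.Agent.Work.MP_298761_ths.Interface

set_option autoImplicit false

/-! Block KEY: a polarisation gives a rational Hodge class of positive rank. -/

namespace THS

open Filter Topology Polynomial Data

theorem key_symm {n : ℕ} {Q χ : Matrix (Fin n) (Fin n) ℚ} {F : Submodule ℂ (Fin n → ℂ)}
    (hQ : Polarises Q χ F) (x y : Fin n → ℂ) : val Q x y = val Q y x := by
  have h := val_transpose Q x y
  rwa [hQ.symm] at h

/-- `x = a + z + conj c` is tested with `conj a`, `conj z` and `c`. -/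
theorem key_test {n : ℕ} {Q χ : Matrix (Fin n) (Fin n) ℚ} {F : Submodule ℂ (Fin n → ℂ)}
    (hQ : Polarises Q χ F) {a c z : Fin n → ℂ} (ha : a ∈ F) (hc : c ∈ F) (hz : Mid χ F z) :
    val Q (a + z + conj c) (conj a) = val Q a (conj a) ∧
    val Q (a + z + conj c) (conj z) = val Q z (conj z) ∧
    val Q (a + z + conj c) c = val Q c (conj c) := by
  have h1 : ∀ e ∈ F, ∀ w, Mid χ F w → val Q (conj e) w = 0 := by
    intro e he w hw
    rw [← conj_conj w, val_conj, hQ.fm e he _ hw.conj', map_zero]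
  refine ⟨?_, ?_, ?_⟩
  · rw [val_add_left, val_add_left, key_symm hQ z, h1 a ha z hz, val_conj, hQ.ff c hc a ha,
      map_zero, add_zero, add_zero]
  · rw [val_add_left, val_add_left, hQ.fm a ha _ hz.conj', h1 c hc _ hz.conj', zero_add, add_zero]
  · rw [val_add_left, val_add_left, hQ.ff a ha c hc, key_symm hQ z, hQ.fm c hc z hz,
      key_symm hQ (conj c), zero_add, zero_add]

theorem key_F_zero {n : ℕ} {Q χ : Matrix (Fin n) (Fin n) ℚ} {F : Submodule ℂ (Fin n → ℂ)}
    (hQ : Polarises Q χ F) {a : Fin n → ℂ} (ha : a ∈ F) (h : val Q a (conj a) = 0) : a = 0 := by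
  by_contra hne
  have := hQ.neg a ha hne
  rw [h] at this
  simp at this

theorem key_M_zero {n : ℕ} {Q χ : Matrix (Fin n) (Fin n) ℚ} {F : Submodule ℂ (Fin n → ℂ)}
    (hQ : Polarises Q χ F) {z : Fin n → ℂ} (hz : Mid χ F z) (h : val Q z (conj z) = 0) :
    z = 0 := by
  by_contra hne
  have := hQ.pos z hz hne
  rw [h] at this
  simp at this

theorem key_mulVec {n : ℕ} (M : Matrix (Fin n) (Fin n) ℚ) (v : Fin n → ℚ) :
    (M.map (Rat.castHom ℂ)).mulVec (toC v) = toC (M.mulVec v) := by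
  funext i
  simp [Matrix.mulVec, dotProduct, toC]

theorem key_det {n : ℕ} {Q χ : Matrix (Fin n) (Fin n) ℚ} {F : Submodule ℂ (Fin n → ℂ)}
    (hH : IsHodge χ F) (hQ : Polarises Q χ F) : Q.det ≠ 0 := by
  intro h0
  obtain ⟨v, hv, hv0⟩ := Matrix.exists_mulVec_eq_zero_iff.2 h0
  apply hv
  have hall : ∀ y, val Q (toC v) y = 0 := by
    intro y
    rw [key_symm hQ, val_eq_dot, key_mulVec, hv0, toC_zero, dotProduct_zero]
  obtain ⟨a, ha, c, hc, z, hz, hx⟩ := hH.decomp (toC v)
  obtain ⟨t1, t2, t3⟩ := key_test hQ ha hc hz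
  rw [← hx, hall] at t1 t2 t3
  have ea := key_F_zero hQ ha t1.symm
  have ec := key_F_zero hQ hc t3.symm
  have ez := key_M_zero hQ hz t2.symm
  apply toC_injective
  rw [hx, ea, ec, ez, conj_zero, toC_zero, add_zero, add_zero]

theorem p_KEY : Stmt_KEY := by
  intro n χ F hH p hp hpF
  obtain ⟨Q, hQ⟩ := hH.polar
  have hdet := key_det hH hQ
  have hu : Q.mulVec (Q⁻¹.mulVec (χ.mulVec p)) = χ.mulVec p := by
    rw [Matrix.mulVec_mulVec, Matrix.mul_nonsing_inv Q (isUnit_iff_ne_zero.2 hdet),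
      Matrix.one_mulVec]
  set u := Q⁻¹.mulVec (χ.mulVec p) with hu_def
  have hval : ∀ y, val Q (toC u) y = val χ y (toC p) := by
    intro y
    rw [key_symm hQ, val_eq_dot, key_mulVec, hu, val_eq_dot, key_mulVec]
  have hpM : Mid χ F (toC p) := mid_toC hpF
  obtain ⟨a, ha, c, hc, z, hz, hx⟩ := hH.decomp (toC u)
  obtain ⟨t1, t2, t3⟩ := key_test hQ ha hc hz
  rw [← hx, hval, (hH.sides _ hpM a ha).2] at t1
  rw [← hx, hval, (hH.sides _ hpM c hc).1] at t3
  have ea := key_F_zero hQ ha t1.symm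
  have ec := key_F_zero hQ hc t3.symm
  have huz : toC u = z := by
    rw [hx, ea, ec, conj_zero, zero_add, add_zero]
  have huM : Mid χ F (toC u) := by rw [huz]; exact hz
  have hune : toC u ≠ 0 := by
    intro h0
    have hu0 : u = 0 := by
      apply toC_injective
      rw [h0, toC_zero]
    rw [hu0, Matrix.mulVec_zero] at hu
    exact hp (Matrix.eq_zero_of_mulVec_eq_zero hH.nondeg hu.symm)
  refine ⟨u, fun a ha => (huM a ha).1, ?_⟩
  have h1 := hQ.pos _ huM hune
  rw [conj_toC, hval, val_toC] at h1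
  exact_mod_cast h1

end THS
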