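import Pool.Agent.Work.MP_298761_ths.InterfaceY

set_option autoImplicit false

namespace THS

open Filter Topology

theorem LIN_vec_zero {R : Type} {m : ℕ} (r : R) (c : Fin m → R) (s : R) :
    vec r c s 0 = r := rfl

theorem LIN_mid_vec {R : Type} {m : ℕ} (r : R) (c : Fin m → R) (s : R) :
    mid (vec r c s) = c := by
  funext i
  unfold mid vec
  rw [Fin.cons_succ, Fin.snoc_castSucc]

theorem p_LIN (hEUL : Stmt_EUL) : Stmt_LIN := by
  intro Y g τ hK hp hind hspan
  obtain ⟨hE1, hE2, -⟩ := hEUL Y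
  have hp1 : Y.p = 1 := le_antisymm (Y.trivial hK) (Nat.one_le_iff_ne_zero.2 hp)
  let j0 : Fin Y.p := ⟨0, by omega⟩
  have hj : ∀ j : Fin Y.p, j = j0 := fun j => by
    apply Fin.ext
    have := j.2
    show j.1 = 0
    omega
  set σ : Fin (Y.m + 2) → ℂ := vec 0 (Y.η j0) (val Y.cup (toC Y.B) (Y.η j0)) with hσ
  have hσ0 : σ 0 = 0 := rfl
  have hmid : mid σ = Y.η j0 := LIN_mid_vec _ _ _
  have hF : Y.F1 = Submodule.span ℂ {σ} := by
    unfold Surface.F1
    congr 1
    ext x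
    constructor
    · rintro ⟨j, rfl⟩
      rw [hj j]
      rfl
    · rintro rfl
      exact ⟨j0, rfl⟩
  have hη : Y.η j0 ≠ 0 := Y.indep.ne_zero j0
  have hσne : σ ≠ 0 := by
    intro h
    apply hη
    rw [← hmid, h]
    rfl
  have hg : g = 1 := by
    have h1 := finrank_span_eq_card hind
    rw [hspan, hF, finrank_span_singleton hσne, Fintype.card_fin] at h1
    exact h1.symm
  have hτ : ∀ j, ∃ t : ℂ, t ≠ 0 ∧ τ j = t • σ := by
    intro j
    have h1 : τ j ∈ Submodule.span ℂ {σ} := by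
      rw [← hF, ← hspan]
      exact Submodule.subset_span ⟨j, rfl⟩
    obtain ⟨t, ht⟩ := Submodule.mem_span_singleton.1 h1
    refine ⟨t, ?_, ht.symm⟩
    rintro rfl
    apply hind.ne_zero j
    rw [← ht, zero_smul]
  have hmidc : mid (conj σ) = conj (Y.η j0) := by
    rw [← hmid]
    rfl
  have hc0 : conj σ 0 = 0 := by
    show (starRingEnd ℂ) (σ 0) = 0
    rw [hσ0, map_zero]
  have hval : val Y.euler σ (conj σ) = -val Y.cup (Y.η j0) (conj (Y.η j0)) := by
    rw [hE1, hmid, hmidc, hσ0, hc0]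
    ring
  have hpos : 0 < (val Y.cup (Y.η j0) (conj (Y.η j0))).re :=
    Y.positive _ (Submodule.subset_span ⟨j0, rfl⟩) hη
  refine ⟨hg, ?_, vec 0 Y.h 0, ?_, ?_⟩
  · intro j
    obtain ⟨t, ht, hj'⟩ := hτ j
    rw [hj', conj_smul, val_smul_left, val_smul_right, hval, ← mul_assoc, Complex.mul_conj,
      Complex.re_ofReal_mul, Complex.neg_re]
    have h2 : 0 < Complex.normSq t := Complex.normSq_pos.2 ht
    nlinarith [mul_pos h2 hpos]
  · rw [hE2, LIN_mid_vec, LIN_vec_zero]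
    have := Y.square
    linarith
  · intro j
    obtain ⟨t, -, hj'⟩ := hτ j
    have h1 : toC (vec 0 Y.h 0) 0 = 0 := by
      show (((0 : ℚ)) : ℂ) = 0
      simp
    have h2 : mid (toC (vec (0 : ℚ) Y.h 0)) = toC Y.h := by
      have h3 : mid (vec (0 : ℚ) Y.h 0) = Y.h := LIN_mid_vec _ _ _
      have h4 : mid (toC (vec (0 : ℚ) Y.h 0)) = toC (mid (vec (0 : ℚ) Y.h 0)) := rfl
      rw [h4, h3]
    rw [hj', val_smul_right, hE1, h1, h2, hσ0, hmid, Y.ample j0]
    ring

end THS
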