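import Pool.Agent.Work.MP_298761_ths.Interface

set_option autoImplicit false

namespace THS

open Filter Topology Polynomial Data

theorem lne_symm {n : ℕ} (M : Matrix (Fin n) (Fin n) ℚ) (h : M.transpose = M)
    (x y : Fin n → ℂ) : val M x y = val M y x := by
  unfold val
  rw [Finset.sum_comm]
  refine Finset.sum_congr rfl fun i _ => Finset.sum_congr rfl fun j _ => ?_
  have h1 : M j i = M i j := by
    have := congrFun (congrFun h i) j
    simpa [Matrix.transpose_apply] using this
  rw [h1]; ring

theorem lne_conj {n : ℕ} (M : Matrix (Fin n) (Fin n) ℚ) (x : Fin n → ℂ) :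
    (starRingEnd ℂ) (val M x (conj x)) = val M (conj x) x := by
  unfold val conj
  rw [map_sum]
  refine Finset.sum_congr rfl fun i _ => ?_
  rw [map_sum]
  refine Finset.sum_congr rfl fun j _ => ?_
  simp

theorem lne_real {n : ℕ} (M : Matrix (Fin n) (Fin n) ℚ) (h : M.transpose = M)
    (x : Fin n → ℂ) : ((val M x (conj x)).re : ℂ) = val M x (conj x) := by
  have h1 : (starRingEnd ℂ) (val M x (conj x)) = val M x (conj x) := by
    rw [lne_conj, lne_symm M h]
  exact (Complex.conj_eq_iff_re).1 h1

theorem p_LNE : Stmt_LNE := by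
  intro n b Q l σ h
  have hb := lne_real b h.bsymm σ
  have hq := lne_real Q h.qsymm σ
  have h1 : val Q σ (conj σ) = l * val b σ (conj σ) := by
    rw [lne_symm Q h.qsymm, h.eig, lne_symm b h.bsymm]
  have hB : ((val b σ (conj σ)).re : ℂ) ≠ 0 := by
    exact_mod_cast (ne_of_gt h.bpos)
  refine ⟨(val Q σ (conj σ)).re / (val b σ (conj σ)).re, div_neg_of_neg_of_pos h.qneg h.bpos, ?_⟩
  rw [Complex.ofReal_div, eq_div_iff hB, hb, hq, h1]

end THS

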