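import Pool.Agent.Work.MP_298761_ths.Interface

/-! # Block MPP: a Serre functor respects the decomposition -/

set_option autoImplicit false

namespace THS

section MPP

variable {n : ℕ} {χ : Matrix (Fin n) (Fin n) ℚ} {F : Submodule ℂ (Fin n → ℂ)}

theorem MPP_cc (h : IsHodge χ F) {a b : Fin n → ℂ} (ha : a ∈ F) (hb : b ∈ F) :
    val χ (conj a) (conj b) = 0 := by
  rw [val_conj, h.ff a ha b hb, map_zero]

/-- A vector orthogonal from the right to the three pieces is `0`. -/
theorem MPP_zero (h : IsHodge χ F) {x : Fin n → ℂ} (h1 : ∀ a ∈ F, val χ a x = 0)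
    (h2 : ∀ z, Mid χ F z → val χ z x = 0) (h3 : ∀ b ∈ F, val χ (conj b) x = 0) : x = 0 := by
  refine eq_zero_of_right h.nondeg fun y => ?_
  obtain ⟨a, ha, b, hb, z, hz, rfl⟩ := h.decomp y
  rw [val_add_left, val_add_left, h1 a ha, h2 z hz, h3 b hb]
  simp

theorem MPP_one (h : IsHodge χ F) {x : Fin n → ℂ} (h1 : ∀ a ∈ F, val χ a x = 0)
    (h2 : ∀ z, Mid χ F z → val χ z x = 0) : x ∈ F := by
  obtain ⟨a, ha, c, hc, z, hz, hx⟩ := h.decomp x
  have h0 : x - a = 0 := by
    refine MPP_zero h (fun a' ha' => ?_) (fun z' hz' => ?_) (fun b hb => ?_)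
    · rw [val_sub_right, h1 a' ha', h.ff a' ha' a ha, sub_zero]
    · rw [val_sub_right, h2 z' hz', (hz' a ha).1, sub_zero]
    · have : x - a = z + conj c := by rw [hx]; abel
      rw [this, val_add_right, (h.sides z hz b hb).2, MPP_cc h hb hc, add_zero]
  rw [sub_eq_zero.1 h0]
  exact ha

theorem MPP_two (h : IsHodge χ F) {x : Fin n → ℂ} (h1 : ∀ a ∈ F, val χ a x = 0)
    (h3 : ∀ b ∈ F, val χ (conj b) x = 0) : Mid χ F x := by
  obtain ⟨a, ha, c, hc, z, hz, hx⟩ := h.decomp x
  have ha0 : a = 0 := by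
    refine MPP_zero h (fun a' ha' => h.ff a' ha' a ha) (fun z' hz' => (hz' a ha).1)
      (fun b hb => ?_)
    have h4 := h3 b hb
    rw [hx, val_add_right, val_add_right, (h.sides z hz b hb).2, MPP_cc h hb hc] at h4
    simpa using h4
  have hc0 : conj c = 0 := by
    refine MPP_zero h (fun a' ha' => ?_) (fun z' hz' => (hz' c hc).2)
      (fun b hb => MPP_cc h hb hc)
    have h4 := h1 a' ha'
    rw [hx, val_add_right, val_add_right, (h.sides z hz a' ha').1, h.ff a' ha' a ha] at h4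
    simpa using h4
  rw [hx, ha0, hc0, zero_add, add_zero]
  exact hz

theorem MPP_three (h : IsHodge χ F) {x : Fin n → ℂ} (h2 : ∀ z, Mid χ F z → val χ z x = 0)
    (h3 : ∀ b ∈ F, val χ (conj b) x = 0) : ∃ c ∈ F, x = conj c := by
  obtain ⟨a, ha, c, hc, z, hz, hx⟩ := h.decomp x
  refine ⟨c, hc, ?_⟩
  have h0 : x - conj c = 0 := by
    refine MPP_zero h (fun a' ha' => ?_) (fun z' hz' => ?_) (fun b hb => ?_)
    · have : x - conj c = a + z := by rw [hx]; abel
      rw [this, val_add_right, h.ff a' ha' a ha, (h.sides z hz a' ha').1, add_zero]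
    · rw [val_sub_right, h2 z' hz', (hz' c hc).2, sub_zero]
    · rw [val_sub_right, h3 b hb, MPP_cc h hb hc, sub_zero]
  exact sub_eq_zero.1 h0

end MPP

theorem p_MPP : Stmt_MPP := by
  intro n χ F h C hC
  refine ⟨fun a ha => ?_, fun z hz => ?_, fun a ha => ?_⟩
  · refine MPP_one h (fun a' ha' => ?_) (fun z hz => ?_)
    · rw [hC, h.ff a ha a' ha', h.ff a' ha' a ha, sub_zero]
    · rw [hC, (h.sides z hz a ha).1, (hz a ha).1, sub_zero]
  · refine MPP_two h (fun a' ha' => ?_) (fun b hb => ?_)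
    · rw [hC, (hz a' ha').1, (h.sides z hz a' ha').1, sub_zero]
    · rw [hC, (hz b hb).2, (h.sides z hz b hb).2, sub_zero]
  · refine MPP_three h (fun z hz => ?_) (fun b hb => ?_)
    · rw [hC, (h.sides z hz a ha).2, (hz a ha).2, sub_zero]
    · rw [hC, MPP_cc h ha hb, MPP_cc h hb ha, sub_zero]

end THS
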