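import Pool.Agent.Work.MP_298761_ths.Interface

/-! Block ORT of THEOREM S (MP_298761_ag). -/

set_option autoImplicit false

namespace THS

open Filter Topology Polynomial Data

theorem ort_poly {n : ℕ} (A : Matrix (Fin n) (Fin n) ℂ) (l : ℂ) (w : Fin n → ℂ)
    (h : ∀ y, (A.mulVec y) ⬝ᵥ w = l * (y ⬝ᵥ w)) (q : ℚ[X]) :
    ∀ y, ((aeval A q).mulVec y) ⬝ᵥ w = aeval l q * (y ⬝ᵥ w) := by
  induction q using Polynomial.induction_on with
  | C a =>
    intro y
    rw [aeval_C, aeval_C, Algebra.algebraMap_eq_smul_one, Algebra.algebraMap_eq_smul_one,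
      Matrix.smul_mulVec, Matrix.one_mulVec, smul_dotProduct, smul_mul_assoc, one_mul]
  | add p q hp hq =>
    intro y
    rw [map_add, map_add, Matrix.add_mulVec, add_dotProduct, hp, hq, add_mul]
  | monomial k a ih =>
    intro y
    have e : (C a * X ^ (k + 1) : ℚ[X]) = (C a * X ^ k) * X := by rw [pow_succ, mul_assoc]
    rw [e, map_mul (aeval A) (C a * X ^ k) X, map_mul (aeval l) (C a * X ^ k) X, aeval_X, aeval_X,
      ← Matrix.mulVec_mulVec, ih, h]
    ring

theorem ort_map {n : ℕ} (A : Matrix (Fin n) (Fin n) ℚ) (q : ℚ[X]) :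
    (aeval A q).map (Rat.castHom ℂ) = aeval (A.map (Rat.castHom ℂ)) q := by
  have h := Polynomial.aeval_algHom_apply
    ((Rat.castHom ℂ).mapMatrix (m := Fin n)).toRatAlgHom A q
  exact h.symm

theorem ort_toC {n : ℕ} (B : Matrix (Fin n) (Fin n) ℚ) (v : Fin n → ℚ) :
    toC (B.mulVec v) = (B.map (Rat.castHom ℂ)).mulVec (toC v) := by
  funext i
  exact RingHom.map_mulVec (Rat.castHom ℂ) B v i

theorem p_ORT : Stmt_ORT := by
  intro n b Q hb hQ hdet l τ hτ v
  have hbs : ∀ x y, val b x y = val b y x := fun x y => by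
    conv_lhs => rw [← hb]
    exact val_transpose b x y
  have hQs : ∀ x y, val Q x y = val Q y x := fun x y => by
    conv_lhs => rw [← hQ]
    exact val_transpose Q x y
  have hu : IsUnit b.det := isUnit_iff_ne_zero.mpr hdet
  have hm : (b.map (Rat.castHom ℂ)) * ((b⁻¹ * Q).map (Rat.castHom ℂ)) =
      Q.map (Rat.castHom ℂ) := by
    rw [← Matrix.map_mul, Matrix.mul_nonsing_inv_cancel_left b Q hu]
  have h0 : ∀ y, (((b⁻¹ * Q).map (Rat.castHom ℂ)).mulVec y) ⬝ᵥ
      ((b.map (Rat.castHom ℂ)).mulVec τ) = l * (y ⬝ᵥ ((b.map (Rat.castHom ℂ)).mulVec τ)) := by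
    intro y
    rw [← val_eq_dot, ← val_eq_dot, hbs, val_eq_dot, Matrix.mulVec_mulVec, hm, ← val_eq_dot, hQs,
      hτ]
  rw [ort_toC, ort_map, val_eq_dot, ort_poly _ l _ h0, minpoly.aeval, zero_mul]

end THS
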