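import Pool.Agent.Work.MP_298761_ths.Interface

set_option autoImplicit false

/-! Block PEN: one polarisation and one eigenvalue for the whole polydisc. -/

namespace THS

open Filter Topology Polynomial Data

theorem pen_symm {n : ℕ} (M : Matrix (Fin n) (Fin n) ℚ) (h : M.transpose = M)
    (x y : Fin n → ℂ) : val M x y = val M y x := by
  have h1 := val_transpose M x y
  rwa [h] at h1

theorem pen_neg {n : ℕ} (M : Matrix (Fin n) (Fin n) ℚ) (x y : Fin n → ℂ) :
    val (-M) x y = -val M x y := by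
  simp only [val, Matrix.neg_apply, Rat.cast_neg, mul_neg, neg_mul, Finset.sum_neg_distrib]

theorem pen_mem {n d : ℕ} (ω : (Fin d → ℂ) → Fin 1 → Fin n → ℂ) (s : Fin d → ℂ)
    (a : Fin n → ℂ) (ha : a ∈ Submodule.span ℂ (Set.range (ω s))) : ∃ c : ℂ, a = c • ω s 0 := by
  have h1 : Set.range (ω s) = {ω s 0} := by
    rw [Set.range_unique]; rfl
  rw [h1, Submodule.mem_span_singleton] at ha
  obtain ⟨c, hc⟩ := ha
  exact ⟨c, hc.symm⟩

theorem pen_self {n d : ℕ} (ω : (Fin d → ℂ) → Fin 1 → Fin n → ℂ) (s : Fin d → ℂ) :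
    ω s 0 ∈ Submodule.span ℂ (Set.range (ω s)) :=
  Submodule.subset_span (Set.mem_range_self 0)

/-- The eigenvalue equation at one point. -/
theorem pen_eig {n d : ℕ} {χ Q : Matrix (Fin n) (Fin n) ℚ}
    (ω : (Fin d → ℂ) → Fin 1 → Fin n → ℂ) (s : Fin d → ℂ) (hsymm : χ.transpose = χ)
    (hH : IsHodge χ (Submodule.span ℂ (Set.range (ω s))))
    (hQ : Polarises Q χ (Submodule.span ℂ (Set.range (ω s))))
    (hneg : (val χ (ω s 0) (conj (ω s 0))).re < 0) :
    ∃ l : ℂ, ∀ y, val Q y (ω s 0) = l * val (-χ) y (ω s 0) := by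
  have h0 : val χ (conj (ω s 0)) (ω s 0) ≠ 0 := by
    intro h
    rw [pen_symm χ hsymm, h] at hneg
    simp at hneg
  refine ⟨val Q (conj (ω s 0)) (ω s 0) / (-val χ (conj (ω s 0)) (ω s 0)), fun y => ?_⟩
  obtain ⟨a, ha, c, hc, z, hz, hx⟩ := hH.decomp y
  have hself := pen_self ω s
  obtain ⟨g, hg⟩ := pen_mem ω s c hc
  have e1 : val Q y (ω s 0) = (starRingEnd ℂ) g * val Q (conj (ω s 0)) (ω s 0) := by
    rw [hx, val_add_left, val_add_left, hQ.ff a ha _ hself, pen_symm Q hQ.symm z,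
      hQ.fm _ hself z hz, hg, conj_smul, val_smul_left, zero_add, zero_add]
  have e2 : val (-χ) y (ω s 0) = (starRingEnd ℂ) g * (-val χ (conj (ω s 0)) (ω s 0)) := by
    rw [pen_neg, hx, val_add_left, val_add_left, hH.ff a ha _ hself, (hz _ hself).1, hg,
      conj_smul, val_smul_left, zero_add, zero_add]
    ring
  have h0' : -val χ (conj (ω s 0)) (ω s 0) ≠ 0 := neg_ne_zero.2 h0
  rw [e1, e2]
  field_simp

/-- The eigenvalue is algebraic. -/
theorem pen_alg {n : ℕ} {b Q : Matrix (Fin n) (Fin n) ℚ} {l : ℂ} {σ : Fin n → ℂ}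
    (hb : b.det ≠ 0) (hσ : σ ≠ 0) (h : ∀ y, val Q y σ = l * val b y σ) : IsAlgebraic ℚ l := by
  set bC := b.map (Rat.castHom ℂ) with hbC
  set QC := Q.map (Rat.castHom ℂ) with hQC
  have h1 : QC.mulVec σ = l • bC.mulVec σ := by
    funext i
    have h2 := h (Pi.single i 1)
    rw [val_eq_dot, val_eq_dot] at h2
    rw [hQC, hbC]
    simpa using h2
  set A : Matrix (Fin n) (Fin n) ℚ := b⁻¹ * Q with hA
  have hbA : b * A = Q := by
    rw [hA, ← Matrix.mul_assoc, Matrix.mul_nonsing_inv b (isUnit_iff_ne_zero.2 hb), Matrix.one_mul]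
  have hbA' : bC * A.map (Rat.castHom ℂ) = QC := by
    rw [hbC, hQC, ← Matrix.map_mul, hbA]
  have hdet : bC.det ≠ 0 := by
    have h3 : bC.det = (Rat.castHom ℂ) b.det := by
      rw [RingHom.map_det]; rfl
    rw [h3]
    simpa using hb
  have h4 : bC.mulVec ((A.map (Rat.castHom ℂ)).mulVec σ - l • σ) = 0 := by
    rw [Matrix.mulVec_sub, Matrix.mulVec_mulVec, hbA', h1, Matrix.mulVec_smul, sub_self]
  have h5 := Matrix.eq_zero_of_mulVec_eq_zero hdet h4
  have h6 : (Matrix.scalar (Fin n) l - A.map (Rat.castHom ℂ)).det = 0 := by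
    refine Matrix.exists_mulVec_eq_zero_iff.1 ⟨σ, hσ, ?_⟩
    have h7 : (Matrix.scalar (Fin n) l).mulVec σ = l • σ := by
      funext i
      simp [Matrix.mulVec, dotProduct, Matrix.scalar_apply, Matrix.diagonal_apply]
    rw [Matrix.sub_mulVec, h7, ← neg_eq_zero, neg_sub]
    exact h5
  refine ⟨A.charpoly, A.charpoly_monic.ne_zero, ?_⟩
  have h8 : (A.map (Rat.castHom ℂ)).charpoly = A.charpoly.map (Rat.castHom ℂ) :=
    Matrix.charpoly_map A (Rat.castHom ℂ)
  have h9 := Matrix.eval_charpoly (A.map (Rat.castHom ℂ)) l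
  rw [h6, h8, Polynomial.eval_map] at h9
  rw [Polynomial.aeval_def]
  have h10 : algebraMap ℚ ℂ = Rat.castHom ℂ := Subsingleton.elim _ _
  rw [h10]
  exact h9

theorem pen_sum {n : ℕ} (M : Matrix (Fin n) (Fin n) ℚ) (x y : Fin n → ℂ) :
    val M x y = ∑ i, x i * val M (Pi.single i 1) y := by
  rw [val_eq_dot, dotProduct]
  refine Finset.sum_congr rfl fun i _ => ?_
  rw [val_eq_dot]
  simp

theorem pen_single {n : ℕ} {M N : Matrix (Fin n) (Fin n) ℚ} {l : ℂ} {σ : Fin n → ℂ}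
    (h : ∀ i, val M (Pi.single i 1) σ - l * val N (Pi.single i 1) σ = 0) (y : Fin n → ℂ) :
    val M y σ = l * val N y σ := by
  rw [pen_sum M y σ, pen_sum N y σ, Finset.mul_sum]
  refine Finset.sum_congr rfl fun i _ => ?_
  have h1 := sub_eq_zero.1 (h i)
  rw [h1]; ring

theorem p_PEN (hBAI : Stmt_BAI) (hPSN : Stmt_PSN) : Stmt_PEN := by
  intro n d χ ω hω hsymm hsig hneg
  have hps := hPSN n d χ ω hω hsymm hneg
  have hdet : (-χ).det ≠ 0 := by
    rw [Matrix.det_neg]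
    exact mul_ne_zero (pow_ne_zero _ (by norm_num)) (hω.hodge 0 (zero_mem_disc d)).nondeg
  have hne : ∀ s ∈ disc d, ω s 0 ≠ 0 := fun s hs => (hω.basis s hs).ne_zero 0
  have c1 : Countable {x : ℂ // IsAlgebraic ℚ x} := (Algebraic.countable ℚ ℂ).to_subtype
  have c2 : Countable (Matrix (Fin n) (Fin n) ℚ) :=
    inferInstanceAs (Countable (Fin n → Fin n → ℚ))
  let ι : Type := {p : Matrix (Fin n) (Fin n) ℚ × {x : ℂ // IsAlgebraic ℚ x} //
    ∃ s ∈ disc d, Polarises p.1 χ (Submodule.span ℂ (Set.range (ω s))) ∧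
      ∀ y, val p.1 y (ω s 0) = (p.2 : ℂ) * val (-χ) y (ω s 0)}
  have c3 : Countable ι := inferInstanceAs (Countable {p : Matrix (Fin n) (Fin n) ℚ ×
    {x : ℂ // IsAlgebraic ℚ x} //
    ∃ s ∈ disc d, Polarises p.1 χ (Submodule.span ℂ (Set.range (ω s))) ∧
      ∀ y, val p.1 y (ω s 0) = (p.2 : ℂ) * val (-χ) y (ω s 0)})
  obtain ⟨⟨⟨Q, l, hl⟩, s₁, hs₁, hQ, hQl⟩, hall⟩ := hBAI d ι (fun _ => Fin n)
    (fun p i s => val p.1.1 (Pi.single i 1) (ω s 0) -
      (p.1.2 : ℂ) * val (-χ) (Pi.single i 1) (ω s 0)) c3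
    (by
      intro p i
      exact (analytic_val p.1.1 _ (hω.holomorphic 0)).sub
        (analyticOnNhd_const.mul (analytic_val (-χ) _ (hω.holomorphic 0))))
    (by
      intro s hs
      obtain ⟨Q, hQ⟩ := (hω.hodge s hs).polar
      obtain ⟨l, hl⟩ := pen_eig ω s hsymm (hω.hodge s hs) hQ (hps s hs)
      refine ⟨⟨⟨Q, l, pen_alg hdet (hne s hs) hl⟩, s, hs, hQ, hl⟩, fun i => ?_⟩
      exact sub_eq_zero.2 (hl _))
  refine ⟨Q, l, s₁, hs₁, ?_, fun s hs y => pen_single (fun i => hall s hs i) y⟩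
  have hself := pen_self ω s₁
  refine ⟨by rw [Matrix.transpose_neg, hsymm], hQ.symm, hdet, hsig, ?_, ?_, ?_, ?_, hQl⟩
  · rw [pen_neg, (hω.hodge s₁ hs₁).ff _ hself _ hself, neg_zero]
  · rw [pen_neg, Complex.neg_re]
    linarith [hps s₁ hs₁]
  · exact hQ.neg _ hself (hne s₁ hs₁)
  · intro x hx hx0
    have hxr : conj (rToC x) = rToC x := by
      funext i; simp [conj, rToC]
    have h1 : val χ (rToC x) (ω s₁ 0) = 0 := by
      rw [pen_neg, neg_eq_zero] at hx0
      exact hx0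
    have hmid : Mid χ (Submodule.span ℂ (Set.range (ω s₁))) (rToC x) := by
      intro a ha
      obtain ⟨g, hg⟩ := pen_mem ω s₁ a ha
      constructor
      · rw [hg, val_smul_right, h1, mul_zero]
      · rw [hg, conj_smul, val_smul_right, ← hxr, val_conj, h1, map_zero, mul_zero]
    have hne0 : rToC x ≠ 0 := by
      intro h
      apply hx
      funext i
      have := congrFun h i
      simpa [rToC] using this
    have h2 := hQ.pos _ hmid hne0
    have h3 : val Q (rToC x) (conj (rToC x)) = ((valR Q x x : ℝ) : ℂ) := by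
      rw [hxr]
      simp [val, valR, rToC]
    rw [h3, Complex.ofReal_re] at h2
    exact h2

end THS
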