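import Pool.Agent.Work.MP_298761_ths.Interface

set_option autoImplicit false

namespace THS

open Filter Topology Polynomial Data

theorem pos_val_neg {n : ℕ} (M : Matrix (Fin n) (Fin n) ℚ) (x y : Fin n → ℂ) :
    val (-M) x y = -val M x y := by
  simp only [val, Matrix.neg_apply, Rat.cast_neg, mul_neg, neg_mul, Finset.sum_neg_distrib]

theorem pos_valQ_neg {n : ℕ} (M : Matrix (Fin n) (Fin n) ℚ) (x y : Fin n → ℚ) :
    valQ (-M) x y = -valQ M x y := by
  simp only [valQ, Matrix.neg_apply, mul_neg, neg_mul, Finset.sum_neg_distrib]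

/-- A real vector orthogonal to a nonzero multiple of `σ` or of its conjugate is orthogonal to
`σ`. -/
theorem pos_trans {n : ℕ} (χ : Matrix (Fin n) (Fin n) ℚ) (h : Fin n → ℚ) (σ τ : Fin n → ℂ)
    (hτ : τ ≠ 0) (ht : ∃ t : ℂ, τ = t • σ ∨ τ = t • conj σ) (h0 : val χ (toC h) τ = 0) :
    val χ (toC h) σ = 0 := by
  obtain ⟨t, ht | ht⟩ := ht
  · have ht0 : t ≠ 0 := by
      rintro rfl
      exact hτ (by rw [ht, zero_smul])
    rw [ht, val_smul_right] at h0
    exact (mul_eq_zero.1 h0).resolve_left ht0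
  · have ht0 : t ≠ 0 := by
      rintro rfl
      exact hτ (by rw [ht, zero_smul])
    rw [ht, val_smul_right] at h0
    have h1 : val χ (toC h) (conj σ) = 0 := (mul_eq_zero.1 h0).resolve_left ht0
    rw [← conj_toC h, val_conj] at h1
    have h2 := congrArg (starRingEnd ℂ) h1
    rw [Complex.conj_conj, map_zero] at h2
    exact h2

/-- A rational vector orthogonal to `σ` is orthogonal to the multiples of `σ` and its conjugate. -/
theorem pos_trans' {n : ℕ} (χ : Matrix (Fin n) (Fin n) ℚ) (h : Fin n → ℚ) (σ τ : Fin n → ℂ)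
    (ht : ∃ t : ℂ, τ = t • σ ∨ τ = t • conj σ) (h0 : val χ (toC h) σ = 0) :
    val χ (toC h) τ = 0 := by
  obtain ⟨t, ht | ht⟩ := ht
  · rw [ht, val_smul_right, h0, mul_zero]
  · rw [ht, val_smul_right, ← conj_toC h, val_conj, h0, map_zero, mul_zero]

theorem p_POS (hPEN : Stmt_PEN) (hTWO : Stmt_TWO) (hORT : Stmt_ORT) : Stmt_POS := by
  intro n d χ ω hω hsymm hsig hneg h hh h0
  obtain ⟨Q, l, s₁, hs₁, hP, hl⟩ := hPEN n d χ ω hω hsymm hsig hneg
  rcases hTWO n (-χ) Q l (ω s₁ 0) hP with ⟨v, hv⟩ | hall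
  · refine ⟨(aeval ((-χ)⁻¹ * Q) (minpoly ℚ l) : Matrix (Fin n) (Fin n) ℚ).mulVec v, ?_, ?_⟩
    · rw [pos_valQ_neg] at hv
      linarith
    · intro s hs
      have h1 := hORT n (-χ) Q hP.bsymm hP.qsymm hP.nondeg l (ω s 0) (hl s hs) v
      rw [pos_val_neg] at h1
      exact neg_eq_zero.1 h1
  · have hne : ∀ s ∈ disc d, ω s 0 ≠ 0 := fun s hs => (hω.basis s hs).ne_zero 0
    have hiso : ∀ s ∈ disc d, val (-χ) (ω s 0) (ω s 0) = 0 := by
      intro s hs
      rw [pos_val_neg, neg_eq_zero]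
      have hm : ω s 0 ∈ Submodule.span ℂ (Set.range (ω s)) :=
        Submodule.subset_span (Set.mem_range_self 0)
      exact (hω.hodge s hs).ff _ hm _ hm
    have hall' : ∀ s ∈ disc d, ∃ t : ℂ, ω s 0 = t • ω s₁ 0 ∨ ω s 0 = t • conj (ω s₁ 0) :=
      fun s hs => hall (ω s 0) (hl s hs) (hiso s hs)
    have h1 : val χ (toC h) (ω s₁ 0) = 0 :=
      pos_trans χ h _ _ (hne 0 (zero_mem_disc d)) (hall' 0 (zero_mem_disc d)) h0
    exact ⟨h, hh, fun s hs => pos_trans' χ h _ _ (hall' s hs) h1⟩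

end THS
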