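import Pool.Agent.Work.MP_298761_ths.Interface

set_option autoImplicit false

namespace THS

open Filter Topology Polynomial Data

theorem p_PSN : Stmt_PSN := by
  intro n d χ ω hV hsymm h0 s hs
  by_contra hcon
  push Not at hcon
  have hcont : ContinuousOn (fun s => (val χ (ω s 0) (conj (ω s 0))).re) (disc d) := by
    refine Complex.continuous_re.comp_continuousOn ?_
    unfold val
    refine continuousOn_finsetSum _ fun i _ => continuousOn_finsetSum _ fun j _ => ?_
    have h1 : ContinuousOn (fun s => ω s 0 i) (disc d) := (hV.holomorphic 0 i).continuousOn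
    have h2 : ContinuousOn (fun s => conj (ω s 0) j) (disc d) :=
      Complex.continuous_conj.comp_continuousOn (hV.holomorphic 0 j).continuousOn
    exact (h1.mul continuousOn_const).mul h2
  have himg := (isPreconnected_disc d).intermediate_value (zero_mem_disc d) hs hcont
  obtain ⟨s', hs', hz⟩ := himg ⟨h0.le, hcon⟩
  simp only at hz
  set x := ω s' 0 with hx
  have hreal : (starRingEnd ℂ) (val χ x (conj x)) = val χ x (conj x) := by
    rw [← val_conj, conj_conj, ← val_transpose, hsymm]
  have hval : val χ x (conj x) = 0 := by
    have him : (val χ x (conj x)).im = 0 := by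
      have := congrArg Complex.im hreal
      rw [Complex.conj_im] at this
      linarith
    exact Complex.ext hz him
  have hH := hV.hodge s' hs'
  have hmem : x ∈ Submodule.span ℂ (Set.range (ω s')) := Submodule.subset_span ⟨0, rfl⟩
  have hspan : ∀ a ∈ Submodule.span ℂ (Set.range (ω s')), ∃ c : ℂ, a = c • x := by
    intro a ha
    have hr : Set.range (ω s') = {x} := by
      ext y
      constructor
      · rintro ⟨i, rfl⟩
        rw [Subsingleton.elim i 0]
        rfl
      · rintro rfl
        exact ⟨0, rfl⟩
    rw [hr] at ha
    obtain ⟨c, hc⟩ := Submodule.mem_span_singleton.1 ha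
    exact ⟨c, hc.symm⟩
  have hx0 : x = 0 := by
    refine eq_zero_of_left hH.nondeg fun y => ?_
    obtain ⟨a, ha, b, hb, z, hzm, rfl⟩ := hH.decomp y
    obtain ⟨c, rfl⟩ := hspan b hb
    rw [val_add_right, val_add_right, hH.ff x hmem a ha, (hH.sides z hzm x hmem).1, conj_smul,
      val_smul_right, hval]
    simp
  exact (hV.basis s' hs').ne_zero 0 hx0

end THS
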