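import Pool.Agent.Work.MP_298761_ths.Interface

set_option autoImplicit false

namespace THS

open Filter Topology Polynomial Data

private theorem ray_add_left {n : ℕ} (M : Matrix (Fin n) (Fin n) ℚ) (x y z : Fin n → ℝ) :
    valR M (x + y) z = valR M x z + valR M y z := by
  simp only [valR, Pi.add_apply, add_mul, Finset.sum_add_distrib]

private theorem ray_add_right {n : ℕ} (M : Matrix (Fin n) (Fin n) ℚ) (x y z : Fin n → ℝ) :
    valR M x (y + z) = valR M x y + valR M x z := by
  simp only [valR, Pi.add_apply, mul_add, Finset.sum_add_distrib]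

private theorem ray_smul_left {n : ℕ} (M : Matrix (Fin n) (Fin n) ℚ) (c : ℝ) (x y : Fin n → ℝ) :
    valR M (c • x) y = c * valR M x y := by
  simp only [valR, Pi.smul_apply, smul_eq_mul, Finset.mul_sum, mul_assoc]

private theorem ray_smul_right {n : ℕ} (M : Matrix (Fin n) (Fin n) ℚ) (c : ℝ) (x y : Fin n → ℝ) :
    valR M x (c • y) = c * valR M x y := by
  simp only [valR, Pi.smul_apply, smul_eq_mul, Finset.mul_sum]
  refine Finset.sum_congr rfl fun i _ => Finset.sum_congr rfl fun j _ => by ring

private theorem ray_symm {n : ℕ} {M : Matrix (Fin n) (Fin n) ℚ} (hM : M.transpose = M)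
    (x y : Fin n → ℝ) : valR M x y = valR M y x := by
  conv_lhs => rw [← hM]
  simp only [valR, Matrix.transpose_apply]
  rw [Finset.sum_comm]
  refine Finset.sum_congr rfl fun i _ => Finset.sum_congr rfl fun j _ => by ring

private theorem ray_cont {n : ℕ} (M : Matrix (Fin n) (Fin n) ℚ) :
    Continuous fun x : Fin n → ℝ => valR M x x := by
  unfold valR
  fun_prop

theorem p_RAY : Stmt_RAY := by
  intro n b Q R hb hQ hpos hex
  obtain ⟨x₀, hx₀R, hx₀⟩ := hex
  have hx₀ne : x₀ ≠ 0 := by
    rintro rfl
    simp [valR] at hx₀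
  -- the compact set
  let S : Set (Fin n → ℝ) := {x | x ∈ R ∧ ‖x‖ = 1}
  have hSc : IsCompact S := by
    have h1 : S = Metric.sphere (0 : Fin n → ℝ) 1 ∩ (R : Set (Fin n → ℝ)) := by
      ext x
      simp [S, and_comm]
    rw [h1]
    exact (isCompact_sphere _ _).inter_right R.closed_of_finiteDimensional
  have hSn : S.Nonempty := by
    refine ⟨(‖x₀‖)⁻¹ • x₀, R.smul_mem _ hx₀R, ?_⟩
    rw [norm_smul, norm_inv, norm_norm, inv_mul_cancel₀ (norm_ne_zero_iff.2 hx₀ne)]
  have hSpos : ∀ x ∈ S, 0 < valR Q x x := by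
    intro x hx
    refine hpos x hx.1 ?_
    rintro rfl
    have := hx.2
    simp at this
  obtain ⟨x, hxS, hmax⟩ := hSc.exists_isMaxOn hSn
    (f := fun x => valR b x x / valR Q x x)
    (ContinuousOn.div (ray_cont b).continuousOn (ray_cont Q).continuousOn
      fun x hx => (hSpos x hx).ne')
  set m : ℝ := valR b x x / valR Q x x with hm
  have hle : ∀ y ∈ R, valR b y y ≤ m * valR Q y y := by
    intro y hy
    by_cases h0 : y = 0
    · subst h0
      simp [valR]
    have hny : ‖y‖ ≠ 0 := norm_ne_zero_iff.2 h0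
    have hyS : (‖y‖)⁻¹ • y ∈ S := by
      refine ⟨R.smul_mem _ hy, ?_⟩
      rw [norm_smul, norm_inv, norm_norm, inv_mul_cancel₀ hny]
    have h1 := hmax hyS
    simp only [Set.mem_ofPred_eq, ray_smul_left, ray_smul_right] at h1
    have h2 : valR b y y / valR Q y y ≤ m := by
      have h3 : (‖y‖⁻¹ * (‖y‖⁻¹ * valR b y y)) / (‖y‖⁻¹ * (‖y‖⁻¹ * valR Q y y)) =
          valR b y y / valR Q y y := by
        have : ‖y‖⁻¹ ≠ 0 := inv_ne_zero hny
        rw [mul_div_mul_left _ _ this, mul_div_mul_left _ _ this]
      rw [h3] at h1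
      exact h1
    rwa [div_le_iff₀ (hpos y hy h0)] at h2
  have hxpos := hSpos x hxS
  have hmeq : valR b x x = m * valR Q x x := by
    rw [hm, div_mul_cancel₀ _ hxpos.ne']
  have hmpos : 0 < m := by
    have h1 := hle x₀ hx₀R
    have h2 := hpos x₀ hx₀R hx₀ne
    by_contra h
    have : m * valR Q x₀ x₀ ≤ 0 := mul_nonpos_of_nonpos_of_nonneg (not_lt.1 h) h2.le
    linarith
  refine ⟨m, hmpos, x, hxS.1, ?_, ?_⟩
  · rw [hmeq]
    exact mul_pos hmpos hxpos
  · intro y hy
    -- D t = 2 t A + t² B
    set A : ℝ := m * valR Q x y - valR b x y with hA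
    set B : ℝ := m * valR Q y y - valR b y y with hB
    have hquad : ∀ t : ℝ, 0 ≤ 2 * t * A + t * t * B := by
      intro t
      have h1 := hle (x + t • y) (R.add_mem hxS.1 (R.smul_mem t hy))
      simp only [ray_add_left, ray_add_right, ray_smul_left, ray_smul_right,
        ray_symm hb y x, ray_symm hQ y x] at h1
      rw [hA, hB]
      nlinarith [h1, hmeq]
    have hA0 : A = 0 := by
      have hB0 : 0 ≤ B := by
        have := hle y hy
        rw [hB]
        linarith
      by_contra hne
      rcases lt_or_gt_of_ne hne with h | h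
      · -- A < 0
        have h1 := hquad (-A / (B + 1))
        have hB1 : 0 < B + 1 := by linarith
        have h2 : 2 * (-A / (B + 1)) * A + (-A / (B + 1)) * (-A / (B + 1)) * B =
            A ^ 2 * (B - 2 * (B + 1)) / (B + 1) ^ 2 := by
          field_simp
          ring
        rw [h2] at h1
        have h3 : A ^ 2 * (B - 2 * (B + 1)) / (B + 1) ^ 2 < 0 := by
          apply div_neg_of_neg_of_pos _ (by positivity)
          have : 0 < A ^ 2 := by positivity
          nlinarith
        linarith
      · have h1 := hquad (-A / (B + 1))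
        have hB1 : 0 < B + 1 := by linarith
        have h2 : 2 * (-A / (B + 1)) * A + (-A / (B + 1)) * (-A / (B + 1)) * B =
            A ^ 2 * (B - 2 * (B + 1)) / (B + 1) ^ 2 := by
          field_simp
          ring
        rw [h2] at h1
        have h3 : A ^ 2 * (B - 2 * (B + 1)) / (B + 1) ^ 2 < 0 := by
          apply div_neg_of_neg_of_pos _ (by positivity)
          have : 0 < A ^ 2 := by positivity
          nlinarith
        linarith
    have : valR b x y = m * valR Q x y := by linarith
    exact this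

end THS
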