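import Pool.Agent.Work.MP_298761_ths.Interface

set_option autoImplicit false

namespace THS

open Filter Topology Polynomial Data

/-- Orthogonality to a family gives orthogonality to its span. -/
theorem rku_span {n g : ℕ} (χ : Matrix (Fin n) (Fin n) ℚ) (w : Fin g → Fin n → ℂ)
    (x : Fin n → ℂ) (h : ∀ j, val χ x (w j) = 0) :
    ∀ a ∈ Submodule.span ℂ (Set.range w), val χ x a = 0 := by
  intro a ha
  induction ha using Submodule.span_induction with
  | mem y hy =>
    obtain ⟨j, rfl⟩ := hy
    exact h j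
  | zero => exact val_zero_right χ x
  | add y z _ _ hy hz => rw [val_add_right, hy, hz, add_zero]
  | smul c y _ hy => rw [val_smul_right, hy, mul_zero]

theorem p_RKU (hBAI : Stmt_BAI) (hKEY : Stmt_KEY) : Stmt_RKU := by
  intro n d g χ ω hV p hp hpo
  obtain ⟨u, hu⟩ := hBAI d {u : Fin n → ℚ // 0 < valQ χ u p} (fun _ => Fin g)
    (fun u j s => val χ (toC u.1) (ω s j)) inferInstance
    (fun u j => analytic_val χ (toC u.1) (f := fun s => ω s j) (fun i => hV.holomorphic j i))
    (fun s hs => by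
      obtain ⟨u, hu1, hu2⟩ := hKEY n χ (Submodule.span ℂ (Set.range (ω s))) (hV.hodge s hs) p hp
        (rku_span χ (ω s) (toC p) (hpo s hs))
      exact ⟨⟨u, hu2⟩, fun j => hu1 _ (Submodule.subset_span ⟨j, rfl⟩)⟩)
  exact ⟨u.1, u.2, hu⟩

end THS
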