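import Pool.Agent.Work.MP_298761_ths.Interface

set_option autoImplicit false

namespace THS

open Filter Topology Polynomial Data

/-- The rank of a square matrix does not change under a homomorphism of fields. -/
theorem rnk_map {K L : Type} [Field K] [Field L] {n : ℕ} (f : K →+* L)
    (M : Matrix (Fin n) (Fin n) K) : (M.map f).rank = M.rank := by
  classical
  obtain ⟨P, Q, D, hM⟩ := Matrix.Pivot.exists_list_transvec_mul_diagonal_mul_list_transvec M
  set U := (P.map Matrix.TransvectionStruct.toMatrix).prod with hU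
  set V := (Q.map Matrix.TransvectionStruct.toMatrix).prod with hV
  have dU : U.det = 1 := Matrix.TransvectionStruct.det_toMatrix_prod P
  have dV : V.det = 1 := Matrix.TransvectionStruct.det_toMatrix_prod Q
  have h1 : M.rank = Fintype.card {i // D i ≠ 0} := by
    rw [hM, Matrix.rank_mul_eq_left_of_isUnit_det V _ (by rw [dV]; exact isUnit_one),
      Matrix.rank_mul_eq_right_of_isUnit_det U _ (by rw [dU]; exact isUnit_one),
      Matrix.rank_diagonal]
  have dU' : (U.map f).det = 1 := by
    have := RingHom.map_det f U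
    rw [dU, map_one] at this
    rw [← RingHom.mapMatrix_apply]
    exact this.symm
  have dV' : (V.map f).det = 1 := by
    have := RingHom.map_det f V
    rw [dV, map_one] at this
    rw [← RingHom.mapMatrix_apply]
    exact this.symm
  have h2 : (M.map f).rank = Fintype.card {i // f (D i) ≠ 0} := by
    have e : M.map f = U.map f * Matrix.diagonal (fun i => f (D i)) * V.map f := by
      rw [hM, Matrix.map_mul, Matrix.map_mul, Matrix.diagonal_map (map_zero f)]
    rw [e, Matrix.rank_mul_eq_left_of_isUnit_det (V.map f) _ (by rw [dV']; exact isUnit_one),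
      Matrix.rank_mul_eq_right_of_isUnit_det (U.map f) _ (by rw [dU']; exact isUnit_one),
      Matrix.rank_diagonal]
  rw [h1, h2]
  refine Fintype.card_congr (Equiv.subtypeEquivRight fun i => ?_)
  exact (map_ne_zero f)

theorem p_RNK : Stmt_RNK := by
  intro n A a a' ha ha'
  haveI : Fact (Irreducible (minpoly ℚ a)) := ⟨minpoly.irreducible ha⟩
  have e1 : (minpoly ℚ a).eval₂ (Rat.castHom ℂ) a = 0 := by
    have h := minpoly.aeval ℚ a
    rw [aeval_def] at h
    rw [← h]
    congr 1
  have e2 : (minpoly ℚ a).eval₂ (Rat.castHom ℂ) a' = 0 := by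
    rw [aeval_def] at ha'
    rw [← ha']
    congr 1
  let f1 : AdjoinRoot (minpoly ℚ a) →+* ℂ := AdjoinRoot.lift (Rat.castHom ℂ) a e1
  let f2 : AdjoinRoot (minpoly ℚ a) →+* ℂ := AdjoinRoot.lift (Rat.castHom ℂ) a' e2
  let M : Matrix (Fin n) (Fin n) (AdjoinRoot (minpoly ℚ a)) :=
    A.map (AdjoinRoot.of (minpoly ℚ a)) - Matrix.scalar (Fin n) (AdjoinRoot.root (minpoly ℚ a))
  have k1 : M.map f1 = A.map (Rat.castHom ℂ) - Matrix.scalar (Fin n) a := by
    ext i j
    have h1 : f1 (AdjoinRoot.of (minpoly ℚ a) (A i j)) = Rat.castHom ℂ (A i j) :=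
      AdjoinRoot.lift_of e1
    have h2 : f1 (AdjoinRoot.root (minpoly ℚ a)) = a := AdjoinRoot.lift_root e1
    by_cases hij : i = j
    · subst hij
      simp only [M, Matrix.map_apply, Matrix.sub_apply, Matrix.scalar_apply,
        Matrix.diagonal_apply_eq, map_sub, h1, h2]
    · simp only [M, Matrix.map_apply, Matrix.sub_apply, Matrix.scalar_apply,
        Matrix.diagonal_apply_ne _ hij, map_sub, map_zero, h1]
  have k2 : M.map f2 = A.map (Rat.castHom ℂ) - Matrix.scalar (Fin n) a' := by
    ext i j
    have h1 : f2 (AdjoinRoot.of (minpoly ℚ a) (A i j)) = Rat.castHom ℂ (A i j) :=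
      AdjoinRoot.lift_of e2
    have h2 : f2 (AdjoinRoot.root (minpoly ℚ a)) = a' := AdjoinRoot.lift_root e2
    by_cases hij : i = j
    · subst hij
      simp only [M, Matrix.map_apply, Matrix.sub_apply, Matrix.scalar_apply,
        Matrix.diagonal_apply_eq, map_sub, h1, h2]
    · simp only [M, Matrix.map_apply, Matrix.sub_apply, Matrix.scalar_apply,
        Matrix.diagonal_apply_ne _ hij, map_sub, map_zero, h1]
  rw [← k1, ← k2, rnk_map, rnk_map]

end THS
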