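import Pool.Agent.Work.MP_298761_ths.Interface

set_option autoImplicit false

namespace THS

open Filter Topology

/-- The complex extension of `K - 1`. -/
noncomputable def SER_C {n : ℕ} (K : (Fin n → ℚ) →ₗ[ℚ] (Fin n → ℚ)) :
    (Fin n → ℂ) →ₗ[ℂ] (Fin n → ℂ) :=
  Matrix.toLin' ((LinearMap.toMatrix' (K - LinearMap.id)).map (Rat.castHom ℂ))

theorem SER_C_toC {n : ℕ} (K : (Fin n → ℚ) →ₗ[ℚ] (Fin n → ℚ)) (x : Fin n → ℚ) :
    SER_C K (toC x) = toC (K x - x) := by
  have h1 : toC x = (Rat.castHom ℂ) ∘ x := rfl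
  funext i
  rw [SER_C, Matrix.toLin'_apply, h1, ← RingHom.map_mulVec, LinearMap.toMatrix'_mulVec]
  simp [toC]

theorem SER_conj {n : ℕ} (K : (Fin n → ℚ) →ₗ[ℚ] (Fin n → ℚ)) (x : Fin n → ℂ) :
    conj (SER_C K x) = SER_C K (conj x) := by
  funext i
  rw [SER_C, Matrix.toLin'_apply, Matrix.toLin'_apply]
  simp only [conj, Matrix.mulVec, dotProduct, Matrix.map_apply, map_sum, map_mul]
  refine Finset.sum_congr rfl fun j _ => ?_
  simp

/-- A linear map which vanishes on rational vectors is zero. -/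
theorem SER_ext {n : ℕ} (f : (Fin n → ℂ) →ₗ[ℂ] ℂ) (h : ∀ v : Fin n → ℚ, f (toC v) = 0)
    (x : Fin n → ℂ) : f x = 0 := by
  have h0 : f = 0 := by
    refine (Pi.basisFun ℂ (Fin n)).ext fun i => ?_
    have h1 := h (Pi.single i 1)
    have h2 : toC (Pi.single i (1 : ℚ)) = (Pi.single i (1 : ℂ) : Fin n → ℂ) := by
      funext j
      by_cases hj : j = i
      · subst hj; simp [toC]
      · simp [toC, Pi.single_eq_of_ne hj]
    rw [h2] at h1
    simpa using h1
  rw [h0]; rfl

/-- `val` as a linear map in the first variable. -/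
noncomputable def SER_l {n : ℕ} (M : Matrix (Fin n) (Fin n) ℚ) (y : Fin n → ℂ) :
    (Fin n → ℂ) →ₗ[ℂ] ℂ where
  toFun x := val M x y
  map_add' := fun x z => val_add_left M x z y
  map_smul' := fun c x => by rw [val_smul_left]; rfl

/-- `val` as a linear map in the second variable. -/
noncomputable def SER_r {n : ℕ} (M : Matrix (Fin n) (Fin n) ℚ) (x : Fin n → ℂ) :
    (Fin n → ℂ) →ₗ[ℂ] ℂ where
  toFun y := val M x y
  map_add' := fun y z => val_add_right M x y z
  map_smul' := fun c y => by rw [val_smul_right]; rfl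

theorem SER_val {n : ℕ} (χ : Matrix (Fin n) (Fin n) ℚ) (K : (Fin n → ℚ) →ₗ[ℚ] (Fin n → ℚ))
    (h : ∀ x y, valQ χ x y = valQ χ y (K x)) (x y : Fin n → ℂ) :
    val χ y (SER_C K x) = val χ x y - val χ y x := by
  have h1 : ∀ u v : Fin n → ℚ,
      val χ (toC v) (SER_C K (toC u)) = val χ (toC u) (toC v) - val χ (toC v) (toC u) := by
    intro u v
    rw [SER_C_toC, toC_sub, val_sub_right, val_toC, val_toC, val_toC, h u v]
  have h2 : ∀ (u : Fin n → ℚ) (y : Fin n → ℂ),
      val χ y (SER_C K (toC u)) = val χ (toC u) y - val χ y (toC u) := by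
    intro u y
    have := SER_ext (SER_l χ (SER_C K (toC u)) - SER_r χ (toC u) + SER_l χ (toC u)) (by
      intro v
      have := h1 u v
      simp only [LinearMap.add_apply, LinearMap.sub_apply, SER_l, SER_r, LinearMap.coe_mk,
        AddHom.coe_mk]
      rw [this]; ring) y
    simp only [LinearMap.add_apply, LinearMap.sub_apply, SER_l, SER_r, LinearMap.coe_mk,
      AddHom.coe_mk] at this
    linear_combination this
  have := SER_ext (((SER_r χ y).comp (SER_C K)) - SER_l χ y + SER_r χ y) (by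
    intro u
    have := h2 u y
    simp only [LinearMap.add_apply, LinearMap.sub_apply, LinearMap.comp_apply, SER_l, SER_r,
      LinearMap.coe_mk, AddHom.coe_mk]
    rw [this]; ring) x
  simp only [LinearMap.add_apply, LinearMap.sub_apply, LinearMap.comp_apply, SER_l, SER_r,
    LinearMap.coe_mk, AddHom.coe_mk] at this
  linear_combination this

theorem SER_span {n g : ℕ} (χ : Matrix (Fin n) (Fin n) ℚ) (w : Fin g → Fin n → ℂ)
    (v : Fin n → ℂ) (h : ∀ j, val χ v (w j) = 0) :
    ∀ a ∈ Submodule.span ℂ (Set.range w), val χ v a = 0 := by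
  intro a ha
  have h1 : Submodule.span ℂ (Set.range w) ≤ LinearMap.ker (SER_r χ v) := by
    rw [Submodule.span_le]
    rintro _ ⟨j, rfl⟩
    exact h j
  exact h1 ha

/-- At the centre the image of `C` consists of middle vectors. -/
theorem SER_mid {n : ℕ} (χ : Matrix (Fin n) (Fin n) ℚ) (F : Submodule ℂ (Fin n → ℂ))
    (K : (Fin n → ℚ) →ₗ[ℚ] (Fin n → ℚ)) (h : ∀ v, Mid χ F (toC (K v - v)))
    (x : Fin n → ℂ) : Mid χ F (SER_C K x) := by
  intro a ha
  constructor
  · exact SER_ext ((SER_l χ a).comp (SER_C K)) (fun v => by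
      show val χ (SER_C K (toC v)) a = 0
      rw [SER_C_toC]; exact (h v a ha).1) x
  · exact SER_ext ((SER_l χ (conj a)).comp (SER_C K)) (fun v => by
      show val χ (SER_C K (toC v)) (conj a) = 0
      rw [SER_C_toC]; exact (h v a ha).2) x

/-- A middle vector in `F` is zero. -/
theorem SER_disj {n : ℕ} {χ : Matrix (Fin n) (Fin n) ℚ} {F : Submodule ℂ (Fin n → ℂ)}
    (hF : IsHodge χ F) {a : Fin n → ℂ} (ha : a ∈ F) (hm : Mid χ F a) : a = 0 := by
  by_contra h0
  obtain ⟨Q, hQ⟩ := hF.polar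
  have h1 := hQ.neg a ha h0
  rw [hQ.fm a ha (conj a) (Mid.conj' hm)] at h1
  simp at h1

theorem p_SER (hM : Stmt_MPP) : Stmt_SER := by
  intro n d g χ ω hω K hK h0 x s hs j
  have hA : ∀ i, AnalyticOnNhd ℂ (fun s => ω s j i) (disc d) := fun i => hω.holomorphic j i
  refine idt (f := fun s => val χ (toC (K x - x)) (ω s j))
    (analytic_val χ (toC (K x - x)) (f := fun s => ω s j) hA) (zero_mem_disc d) ?_ s hs
  have hH0 := hω.hodge 0 (zero_mem_disc d)
  -- the image of `C`
  set R : Submodule ℂ (Fin n → ℂ) := LinearMap.range (SER_C K) with hR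
  have hmid : ∀ v : Fin n → ℂ, Mid χ (Submodule.span ℂ (Set.range (ω 0))) (SER_C K v) :=
    SER_mid χ _ K fun v => mid_toC (SER_span χ (ω 0) _ (h0 v))
  have hdis : Disjoint R (Submodule.span ℂ (Set.range (ω 0))) := by
    rw [Submodule.disjoint_def]
    rintro a ⟨v, rfl⟩ ha
    exact SER_disj hH0 ha (hmid v)
  let c : Fin (Module.finrank ℂ R) → Fin n → ℂ := fun i => ((Module.finBasis ℂ R i : R) : Fin n → ℂ)
  have hcl : LinearIndependent ℂ c :=
    (Module.finBasis ℂ R).linearIndependent.map' R.subtype (Submodule.ker_subtype R)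
  have hcs : Submodule.span ℂ (Set.range c) = R := by
    have h1 : c = R.subtype ∘ (Module.finBasis ℂ R) := rfl
    rw [h1, Set.range_comp, Submodule.span_image, (Module.finBasis ℂ R).span_eq,
      Submodule.map_top, Submodule.range_subtype]
  have hli : LinearIndependent ℂ (Sum.elim c (ω 0)) :=
    hcl.sum_type (hω.basis 0 (zero_mem_disc d)) (by rw [hcs]; exact hdis)
  have hcont : ContinuousAt (fun s => (Sum.elim c (ω s) :
      Fin (Module.finrank ℂ R) ⊕ Fin g → Fin n → ℂ)) 0 := by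
    rw [continuousAt_pi]
    rintro (i | k)
    · exact continuousAt_const
    · show ContinuousAt (fun s => ω s k) 0
      rw [continuousAt_pi]
      intro i
      exact (hω.holomorphic k i 0 (zero_mem_disc d)).continuousAt
  have hev : ∀ᶠ s in 𝓝 (0 : Fin d → ℂ), LinearIndependent ℂ (Sum.elim c (ω s)) :=
    hcont.eventually (isOpen_setOfPred_linearIndependent.mem_nhds hli)
  filter_upwards [hev, (isOpen_disc d).mem_nhds (zero_mem_disc d)] with t ht htd
  have hHt := hω.hodge t htd
  have hdt : Disjoint R (Submodule.span ℂ (Set.range (ω t))) := by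
    have := (linearIndependent_sum.mp ht).2.2
    rw [Sum.elim_comp_inl, Sum.elim_comp_inr, hcs] at this
    exact this
  obtain ⟨m1, m2, m3⟩ := hM n χ _ hHt (SER_C K) (SER_val χ K hK)
  have hzero : ∀ a ∈ Submodule.span ℂ (Set.range (ω t)), SER_C K a = 0 := by
    intro a ha
    exact (Submodule.disjoint_def.mp hdt) _ ⟨a, rfl⟩ (m1 a ha)
  obtain ⟨a, ha, e, he, z, hz, hx⟩ := hHt.decomp (toC x)
  have hCx : SER_C K (toC x) = SER_C K z := by
    rw [hx, map_add, map_add, hzero a ha, ← SER_conj, hzero e he, conj_zero]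
    simp
  rw [← SER_C_toC, hCx]
  exact (m2 z hz (ω t j) (Submodule.subset_span ⟨j, rfl⟩)).1

end THS
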