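import Pool.Agent.Work.MP_298761_ths.InterfaceY

/-!
# SGN: the signature of the Mukai form
-/

set_option autoImplicit false

namespace THS

theorem SGN_vec_zero {R : Type} {m : ℕ} (r : R) (c : Fin m → R) (s : R) : vec r c s 0 = r := rfl

theorem SGN_vec_last {R : Type} {m : ℕ} (r : R) (c : Fin m → R) (s : R) :
    vec r c s (Fin.last _) = s := by
  rw [← Fin.succ_last]
  simp [vec]

theorem SGN_mid_vec {R : Type} {m : ℕ} (r : R) (c : Fin m → R) (s : R) :
    mid (vec r c s) = c := by
  funext i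
  simp [mid, vec]

theorem SGN_valR_neg {n : ℕ} (M : Matrix (Fin n) (Fin n) ℚ) (x y : Fin n → ℝ) :
    valR (-M) x y = - valR M x y := by
  simp [valR]

theorem SGN_valQ_symm {n : ℕ} {M : Matrix (Fin n) (Fin n) ℚ} (h : M.transpose = M)
    (x y : Fin n → ℚ) : valQ M x y = valQ M y x := by
  unfold valQ
  rw [Finset.sum_comm]
  refine Finset.sum_congr rfl fun i _ => Finset.sum_congr rfl fun j _ => ?_
  have : M j i = M i j := by
    conv_lhs => rw [← h]
    rfl
  rw [this]
  ring

theorem SGN_valR_symm {n : ℕ} {M : Matrix (Fin n) (Fin n) ℚ} (h : M.transpose = M)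
    (x y : Fin n → ℝ) : valR M x y = valR M y x := by
  unfold valR
  rw [Finset.sum_comm]
  refine Finset.sum_congr rfl fun i _ => Finset.sum_congr rfl fun j _ => ?_
  have : M j i = M i j := by
    conv_lhs => rw [← h]
    rfl
  rw [this]
  ring

theorem SGN_valR_add {n : ℕ} (M : Matrix (Fin n) (Fin n) ℚ) (x y z : Fin n → ℝ) :
    valR M x (y + z) = valR M x y + valR M x z := by
  simp only [valR, Pi.add_apply, mul_add, Finset.sum_add_distrib]

theorem SGN_valR_smul {n : ℕ} (M : Matrix (Fin n) (Fin n) ℚ) (c : ℝ) (x y : Fin n → ℝ) :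
    valR M x (c • y) = c * valR M x y := by
  simp only [valR, Pi.smul_apply, smul_eq_mul, Finset.mul_sum]
  refine Finset.sum_congr rfl fun i _ => Finset.sum_congr rfl fun j _ => by ring

theorem SGN_valR_zero {n : ℕ} (M : Matrix (Fin n) (Fin n) ℚ) (x : Fin n → ℝ) :
    valR M x 0 = 0 := by
  simp [valR]

/-- `valR M x` as a linear map. -/
def SGN_lin {n : ℕ} (M : Matrix (Fin n) (Fin n) ℚ) (x : Fin n → ℝ) : (Fin n → ℝ) →ₗ[ℝ] ℝ where
  toFun y := valR M x y
  map_add' y z := SGN_valR_add M x y z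
  map_smul' c y := by simp [SGN_valR_smul]

theorem SGN_valR_sum {n : ℕ} (M : Matrix (Fin n) (Fin n) ℚ) (x : Fin n → ℝ) {k : ℕ}
    (c : Fin k → ℝ) (w : Fin k → Fin n → ℝ) :
    valR M x (∑ i, c i • w i) = ∑ i, c i * valR M x (w i) := by
  have h := map_sum (SGN_lin M x) (fun i => c i • w i) Finset.univ
  have h2 : ∀ i, SGN_lin M x (c i • w i) = c i * valR M x (w i) := fun i =>
    SGN_valR_smul M (c i) x (w i)
  simp only [h2] at h
  exact h

/-- A positive orthogonal family splits off. -/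
theorem SGN_split {n : ℕ} (M : Matrix (Fin n) (Fin n) ℚ) (hM : M.transpose = M) {k : ℕ}
    (w : Fin k → Fin n → ℝ) (h0 : ∀ i j, i ≠ j → valR M (w i) (w j) = 0)
    (h1 : ∀ i, 0 < valR M (w i) (w i))
    (hN : ∀ x : Fin n → ℝ, (∀ i, valR M (w i) x = 0) → x ≠ 0 → valR M x x < 0) :
    ∃ P N : Submodule ℝ (Fin n → ℝ), IsCompl P N ∧ Module.finrank ℝ P = k ∧
    (∀ x ∈ P, x ≠ 0 → 0 < valR M x x) ∧ (∀ x ∈ N, x ≠ 0 → valR M x x < 0) := by
  have key : ∀ (c : Fin k → ℝ) (j : Fin k), valR M (w j) (∑ i, c i • w i)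
      = c j * valR M (w j) (w j) := by
    intro c j
    rw [SGN_valR_sum, Finset.sum_eq_single j]
    · intro i _ hij
      rw [h0 j i (Ne.symm hij), mul_zero]
    · intro h
      exact absurd (Finset.mem_univ j) h
  have hli : LinearIndependent ℝ w := by
    rw [Fintype.linearIndependent_iff]
    intro c hc j
    have h2 := key c j
    rw [hc, SGN_valR_zero] at h2
    exact (mul_eq_zero.mp h2.symm).resolve_right (h1 j).ne'
  have hmem : ∀ x ∈ Submodule.span ℝ (Set.range w), ∃ c : Fin k → ℝ, ∑ i, c i • w i = x := by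
    intro x hx
    exact (Submodule.mem_span_range_iff_exists_fun ℝ).mp hx
  refine ⟨Submodule.span ℝ (Set.range w), ⨅ i, LinearMap.ker (SGN_lin M (w i)), ?_, ?_, ?_, ?_⟩
  · have hNm : ∀ x, x ∈ (⨅ i, LinearMap.ker (SGN_lin M (w i))) ↔ ∀ i, valR M (w i) x = 0 := by
      intro x
      simp [Submodule.mem_iInf, LinearMap.mem_ker, SGN_lin]
    refine ⟨?_, ?_⟩
    · rw [Submodule.disjoint_def]
      intro x hx hx'
      obtain ⟨c, rfl⟩ := hmem x hx
      rw [hNm] at hx'
      have hc : ∀ j, c j = 0 := by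
        intro j
        have h2 := key c j
        rw [hx' j] at h2
        exact (mul_eq_zero.mp h2.symm).resolve_right (h1 j).ne'
      simp [hc]
    · rw [codisjoint_iff, eq_top_iff]
      intro x _
      rw [Submodule.mem_sup]
      refine ⟨∑ i, (valR M (w i) x / valR M (w i) (w i)) • w i, ?_,
        x - ∑ i, (valR M (w i) x / valR M (w i) (w i)) • w i, ?_, by simp⟩
      · exact (Submodule.mem_span_range_iff_exists_fun ℝ).mpr ⟨_, rfl⟩
      · rw [hNm]
        intro j
        have h2 := key (fun i => valR M (w i) x / valR M (w i) (w i)) j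
        have h3 : valR M (w j) (x - ∑ i, (valR M (w i) x / valR M (w i) (w i)) • w i)
            = valR M (w j) x - valR M (w j)
              (∑ i, (valR M (w i) x / valR M (w i) (w i)) • w i) := by
          exact map_sub (SGN_lin M (w j)) _ _
        rw [h3, h2, div_mul_cancel₀ _ (h1 j).ne', sub_self]
  · rw [finrank_span_eq_card hli, Fintype.card_fin]
  · intro x hx hx0
    obtain ⟨c, rfl⟩ := hmem x hx
    have h2 : valR M (∑ i, c i • w i) (∑ i, c i • w i)
        = ∑ i, c i ^ 2 * valR M (w i) (w i) := by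
      rw [SGN_valR_sum]
      refine Finset.sum_congr rfl fun i _ => ?_
      rw [SGN_valR_symm hM, key]
      ring
    rw [h2]
    have h3 : ∃ i, c i ≠ 0 := by
      by_contra hcon
      push Not at hcon
      exact hx0 (by simp [hcon])
    obtain ⟨i, hi⟩ := h3
    refine Finset.sum_pos' (fun j _ => mul_nonneg (sq_nonneg _) (h1 j).le)
      ⟨i, Finset.mem_univ i, mul_pos (by positivity) (h1 i)⟩
  · intro x hx hx0
    refine hN x (fun i => ?_) hx0
    rw [Submodule.mem_iInf] at hx
    exact LinearMap.mem_ker.mp (hx i)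

theorem SGN_val_ofR {n : ℕ} (M : Matrix (Fin n) (Fin n) ℚ) (x y : Fin n → ℝ) :
    val M (ofR x) (ofR y) = ((valR M x y : ℝ) : ℂ) := by
  simp [val, valR, ofR]

theorem SGN_decomp {n : ℕ} (z : Fin n → ℂ) :
    z = ofR (fun i => (z i).re) + Complex.I • ofR (fun i => (z i).im) := by
  funext i
  simp only [ofR, Pi.add_apply, Pi.smul_apply, smul_eq_mul]
  rw [mul_comm]
  exact (Complex.re_add_im (z i)).symm

theorem SGN_conj {n : ℕ} (z : Fin n → ℂ) :
    conj z = ofR (fun i => (z i).re) - Complex.I • ofR (fun i => (z i).im) := by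
  funext i
  simp only [ofR, conj, Pi.sub_apply, Pi.smul_apply, smul_eq_mul]
  apply Complex.ext <;> simp

theorem SGN_toC {n : ℕ} (v : Fin n → ℚ) : toC v = ofR (fun i => (v i : ℝ)) := by
  funext i
  simp [toC, ofR]

theorem SGN_val_right {n : ℕ} (M : Matrix (Fin n) (Fin n) ℚ) (x : Fin n → ℝ) (z : Fin n → ℂ) :
    val M (ofR x) z = ((valR M x (fun i => (z i).re) : ℝ) : ℂ)
      + Complex.I * ((valR M x (fun i => (z i).im) : ℝ) : ℂ) := by
  conv_lhs => rw [SGN_decomp z]
  rw [val_add_right, val_smul_right, SGN_val_ofR, SGN_val_ofR]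

theorem SGN_val_right_zero {n : ℕ} (M : Matrix (Fin n) (Fin n) ℚ) (x : Fin n → ℝ)
    (z : Fin n → ℂ) : val M (ofR x) z = 0 ↔ valR M x (fun i => (z i).re) = 0 ∧
      valR M x (fun i => (z i).im) = 0 := by
  rw [SGN_val_right]
  constructor
  · intro h
    have h1 := congrArg Complex.re h
    have h2 := congrArg Complex.im h
    simp at h1 h2
    exact ⟨h1, h2⟩
  · rintro ⟨h1, h2⟩
    rw [h1, h2]
    simp

theorem SGN_euler_symm (Y : Surface) (hK : Y.K = 0) : Y.euler.transpose = Y.euler := by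
  ext a b
  simp only [Matrix.transpose_apply, Surface.euler, Matrix.of_apply, hK]
  have h0 : ∀ z : Fin Y.m → ℚ, valQ Y.cup 0 z = 0 := by
    intro z; simp [valQ]
  rw [h0, h0, SGN_valQ_symm Y.symm (mid (Pi.single b 1)) (mid (Pi.single a 1))]
  ring

/-- SGN. -/
theorem p_SGN (h1 : Stmt_EUL) : Stmt_SGN := by
  intro Y hK hp
  have hsy := SGN_euler_symm Y hK
  refine ⟨hsy, ?_⟩
  have hE := (h1 Y).2.2 hK
  have hp0 : 0 < Y.p := Nat.pos_of_ne_zero hp
  obtain ⟨j0, hj0⟩ : ∃ j0 : Fin Y.p, ∀ j, j = j0 :=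
    ⟨⟨0, hp0⟩, fun j => Fin.ext (by have := Y.trivial hK; have := j.2; simp; omega)⟩
  set a : Fin Y.m → ℝ := fun i => (Y.η j0 i).re with ha
  set b : Fin Y.m → ℝ := fun i => (Y.η j0 i).im with hb
  set h : Fin Y.m → ℝ := fun i => (Y.h i : ℝ) with hh
  have hcs := fun x y => SGN_valR_symm Y.symm x y
  -- the products
  have hη : Y.η j0 = ofR a + Complex.I • ofR b := SGN_decomp _
  have hηc : conj (Y.η j0) = ofR a - Complex.I • ofR b := SGN_conj _
  have e1 := Y.isotropic j0 j0
  rw [hη, val_add_left, val_add_right, val_add_right, val_smul_left, val_smul_right,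
    val_smul_right, val_smul_left, SGN_val_ofR, SGN_val_ofR, SGN_val_ofR, SGN_val_ofR,
    hcs b a] at e1
  have e1r := congrArg Complex.re e1
  have e1i := congrArg Complex.im e1
  simp at e1r e1i
  have hab : valR Y.cup a b = 0 := by linarith
  have haabb : valR Y.cup a a = valR Y.cup b b := by linarith
  have e2 := Y.positive (Y.η j0) (Submodule.subset_span ⟨j0, rfl⟩) (Y.indep.ne_zero j0)
  rw [hηc, hη, val_add_left, val_sub_right, val_sub_right, val_smul_left, val_smul_right,
    val_smul_right, val_smul_left, SGN_val_ofR, SGN_val_ofR, SGN_val_ofR, SGN_val_ofR,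
    hcs b a] at e2
  simp at e2
  have haa : 0 < valR Y.cup a a := by linarith
  have hbb : 0 < valR Y.cup b b := by linarith
  have e3 := Y.ample j0
  rw [SGN_toC, SGN_val_right_zero] at e3
  obtain ⟨hha, hhb⟩ := e3
  have hhh : 0 < valR Y.cup h h := by
    have e4 : (valR Y.cup h h : ℝ) = ((valQ Y.cup Y.h Y.h : ℚ) : ℝ) := by
      simp [valR, valQ, hh]
    rw [e4]
    exact_mod_cast Y.square
  -- values of the form
  have hv : ∀ (r s r' s' : ℝ) (c c' : Fin Y.m → ℝ), valR (-Y.euler) (vec r c s) (vec r' c' s')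
      = valR Y.cup c c' - r * s' - s * r' - Y.e * r * r' := by
    intro r s r' s' c c'
    rw [SGN_valR_neg, hE, SGN_vec_zero, SGN_vec_last, SGN_vec_zero, SGN_vec_last, SGN_mid_vec,
      SGN_mid_vec]
    ring
  have hz : ∀ c : Fin Y.m → ℝ, valR Y.cup c 0 = 0 := fun c => SGN_valR_zero _ _
  have hz' : ∀ c : Fin Y.m → ℝ, valR Y.cup 0 c = 0 := fun c => by rw [hcs]; exact hz c
  let w : Fin 4 → Fin (Y.m + 2) → ℝ :=
    ![vec 0 a 0, vec 0 b 0, vec 0 h 0, vec 1 0 (-((Y.e : ℝ) + 1) / 2)]
  have hns : (-Y.euler).transpose = -Y.euler := by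
    rw [Matrix.transpose_neg, hsy]
  have hpos : ∀ i, 0 < valR (-Y.euler) (w i) (w i) := by
    intro i
    fin_cases i
    · show 0 < valR (-Y.euler) (vec 0 a 0) (vec 0 a 0)
      rw [hv]; simpa using haa
    · show 0 < valR (-Y.euler) (vec 0 b 0) (vec 0 b 0)
      rw [hv]; simpa using hbb
    · show 0 < valR (-Y.euler) (vec 0 h 0) (vec 0 h 0)
      rw [hv]; simpa using hhh
    · show 0 < valR (-Y.euler) (vec 1 0 (-((Y.e : ℝ) + 1) / 2)) (vec 1 0 (-((Y.e : ℝ) + 1) / 2))
      rw [hv, hz]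
      have : (0 : ℝ) - 1 * (-((Y.e : ℝ) + 1) / 2) - -((Y.e : ℝ) + 1) / 2 * 1 - Y.e * 1 * 1
          = 1 := by ring
      rw [this]
      norm_num
  have hlt : ∀ i j, i < j → valR (-Y.euler) (w i) (w j) = 0 := by
    intro i j hij
    fin_cases i <;> fin_cases j <;> first
      | (exfalso; revert hij; decide)
      | skip
    · show valR (-Y.euler) (vec 0 a 0) (vec 0 b 0) = 0
      rw [hv]; simpa using hab
    · show valR (-Y.euler) (vec 0 a 0) (vec 0 h 0) = 0
      rw [hv, hcs]; simpa using hha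
    · show valR (-Y.euler) (vec 0 a 0) (vec 1 0 (-((Y.e : ℝ) + 1) / 2)) = 0
      rw [hv, hz]; simp
    · show valR (-Y.euler) (vec 0 b 0) (vec 0 h 0) = 0
      rw [hv, hcs]; simpa using hhb
    · show valR (-Y.euler) (vec 0 b 0) (vec 1 0 (-((Y.e : ℝ) + 1) / 2)) = 0
      rw [hv, hz]; simp
    · show valR (-Y.euler) (vec 0 h 0) (vec 1 0 (-((Y.e : ℝ) + 1) / 2)) = 0
      rw [hv, hz]; simp
  have horth : ∀ i j, i ≠ j → valR (-Y.euler) (w i) (w j) = 0 := by
    intro i j hij
    rcases lt_or_gt_of_ne hij with h2 | h2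
    · exact hlt i j h2
    · rw [SGN_valR_symm hns]
      exact hlt j i h2
  have hN : ∀ x : Fin (Y.m + 2) → ℝ, (∀ i, valR (-Y.euler) (w i) x = 0) → x ≠ 0 →
      valR (-Y.euler) x x < 0 := by
    intro x hx hx0
    have hgen : ∀ (r s : ℝ) (c : Fin Y.m → ℝ), valR (-Y.euler) (vec r c s) x
        = valR Y.cup c (mid x) - r * x (Fin.last _) - s * x 0 - Y.e * r * x 0 := by
      intro r s c
      rw [SGN_valR_neg, hE, SGN_vec_zero, SGN_vec_last, SGN_mid_vec]
      ring
    have x0 : valR Y.cup a (mid x) = 0 := by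
      have := hx 0
      change valR (-Y.euler) (vec 0 a 0) x = 0 at this
      rw [hgen] at this
      simpa using this
    have x1 : valR Y.cup b (mid x) = 0 := by
      have := hx 1
      change valR (-Y.euler) (vec 0 b 0) x = 0 at this
      rw [hgen] at this
      simpa using this
    have x2 : valR Y.cup h (mid x) = 0 := by
      have := hx 2
      change valR (-Y.euler) (vec 0 h 0) x = 0 at this
      rw [hgen] at this
      simpa using this
    have x3 : x (Fin.last _) = x 0 * (1 - Y.e) / 2 := by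
      have := hx 3
      change valR (-Y.euler) (vec 1 0 (-((Y.e : ℝ) + 1) / 2)) x = 0 at this
      rw [hgen, hz'] at this
      linarith
    have hxx : valR (-Y.euler) x x = valR Y.cup (mid x) (mid x) - (x 0) ^ 2 := by
      rw [SGN_valR_neg, hE, x3]
      ring
    rw [hxx]
    by_cases hm : mid x = 0
    · rw [hm, hz]
      have h0 : x 0 ≠ 0 := by
        intro h0
        apply hx0
        have hl : x (Fin.last _) = 0 := by rw [x3, h0]; ring
        funext i
        refine Fin.cases h0 (fun j => ?_) i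
        refine Fin.lastCases ?_ (fun l => ?_) j
        · rw [Fin.succ_last]; exact hl
        · exact congrFun hm l
      have : 0 < (x 0) ^ 2 := by positivity
      linarith
    · have h3 := Y.index (mid x) hm (by
        rw [SGN_toC, SGN_val_ofR, x2]; simp) (by
        intro j
        rw [hj0 j, SGN_val_right_zero]
        exact ⟨by rw [hcs]; exact x0, by rw [hcs]; exact x1⟩)
      have : 0 ≤ (x 0) ^ 2 := by positivity
      linarith
  exact SGN_split (-Y.euler) hns w horth hpos hN

end THS
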