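import Pool.Agent.Work.MP_298761_ths.Interface

/-! Block TWO of the table ths_blocks (helper55) -/

set_option autoImplicit false

namespace THS

open Filter Topology Polynomial

theorem TWO_det {n : ℕ} {b : Matrix (Fin n) (Fin n) ℚ} (hb : b.det ≠ 0) :
    (b.map (Rat.castHom ℂ)).det ≠ 0 := by
  have : (b.map (Rat.castHom ℂ)).det = (Rat.castHom ℂ) b.det := by
    rw [RingHom.map_det]; rfl
  rw [this]
  simpa using hb

theorem TWO_ker {n : ℕ} {b Q : Matrix (Fin n) (Fin n) ℚ} (hb : b.det ≠ 0) {l : ℂ}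
    {τ : Fin n → ℂ} (h : ∀ y, val Q y τ = l * val b y τ) :
    (((b⁻¹ * Q).map (Rat.castHom ℂ)) - Matrix.scalar (Fin n) l).mulVec τ = 0 := by
  have h1 : (Q.map (Rat.castHom ℂ)).mulVec τ = l • (b.map (Rat.castHom ℂ)).mulVec τ := by
    funext i
    have h2 := h (Pi.single i 1)
    rw [val_eq_dot, val_eq_dot] at h2
    simpa using h2
  have h3 : b.map (Rat.castHom ℂ) * (b⁻¹ * Q).map (Rat.castHom ℂ) = Q.map (Rat.castHom ℂ) := by
    rw [← Matrix.map_mul, Matrix.mul_nonsing_inv_cancel_left]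
    exact (isUnit_iff_ne_zero.mpr hb)
  apply Matrix.eq_zero_of_mulVec_eq_zero (TWO_det hb)
  rw [Matrix.mulVec_mulVec, Matrix.mul_sub, h3, Matrix.sub_mulVec, h1]
  have h4 : b.map (Rat.castHom ℂ) * Matrix.scalar (Fin n) l
      = l • b.map (Rat.castHom ℂ) := by
    rw [Matrix.scalar_apply, ← Matrix.smul_one_eq_diagonal, Matrix.mul_smul, Matrix.mul_one]
  rw [h4, Matrix.smul_mulVec, sub_self]

theorem TWO_integral {n : ℕ} {A : Matrix (Fin n) (Fin n) ℚ} {l : ℂ} {σ : Fin n → ℂ} (hσ : σ ≠ 0)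
    (h : ((A.map (Rat.castHom ℂ)) - Matrix.scalar (Fin n) l).mulVec σ = 0) :
    IsIntegral ℚ l := by
  refine ⟨A.charpoly, A.charpoly_monic, ?_⟩
  have h1 : (Matrix.scalar (Fin n) l - A.map (Rat.castHom ℂ)).det = 0 := by
    apply Matrix.exists_mulVec_eq_zero_iff.mp
    refine ⟨σ, hσ, ?_⟩
    have h2 : Matrix.scalar (Fin n) l - A.map (Rat.castHom ℂ)
        = -(A.map (Rat.castHom ℂ) - Matrix.scalar (Fin n) l) := (neg_sub _ _).symm
    rw [h2, Matrix.neg_mulVec, h, neg_zero]
  have h3 : algebraMap ℚ ℂ = Rat.castHom ℂ := Subsingleton.elim _ _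
  rw [h3, Polynomial.eval₂_eq_eval_map, ← Matrix.charpoly_map, Matrix.eval_charpoly]
  exact h1

theorem p_TWO (hRNK : Stmt_RNK) (hDIM : Stmt_DIM) (hLNE : Stmt_LNE) (hEIG : Stmt_EIG)
    (hDEN : Stmt_DEN) : Stmt_TWO := by
  intro n b Q l σ hP
  by_cases hv : ∃ v : Fin n → ℚ, 0 < valQ b
    ((aeval (b⁻¹ * Q) (minpoly ℚ l) : Matrix (Fin n) (Fin n) ℚ).mulVec v)
    ((aeval (b⁻¹ * Q) (minpoly ℚ l) : Matrix (Fin n) (Fin n) ℚ).mulVec v)
  · exact Or.inl hv
  right
  obtain ⟨r, hr, hlr⟩ := hLNE n b Q l σ hP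
  obtain ⟨a, ha, x, hx, hxy⟩ := hEIG n b Q l σ hP
  have hqa : aeval a (minpoly ℚ l) = 0 := by
    by_contra hcon
    exact hv (hDEN n b Q hP.bsymm hP.qsymm hP.nondeg a x hx hxy (minpoly ℚ l) hcon)
  have hqa' : aeval (a : ℂ) (minpoly ℚ l) = 0 := by
    have h1 := Polynomial.aeval_algebraMap_apply ℂ a (minpoly ℚ l)
    rw [hqa, map_zero] at h1
    exact h1
  have hσ0 : σ ≠ 0 := by
    intro h
    have h1 := hP.bpos
    rw [h, val_zero_left] at h1
    simp at h1
  have hkσ := TWO_ker hP.nondeg hP.eig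
  have hint : IsIntegral ℚ l := TWO_integral hσ0 hkσ
  have hrank := hRNK n (b⁻¹ * Q) l (a : ℂ) hint hqa'
  have hdim := hDIM n b Q l σ hP a ha
  rw [← hrank] at hdim
  set M := ((b⁻¹ * Q).map (Rat.castHom ℂ)) - Matrix.scalar (Fin n) l with hM
  have hker : Module.finrank ℂ (LinearMap.ker M.mulVecLin) ≤ 2 := by
    have h1 := LinearMap.finrank_range_add_finrank_ker M.mulVecLin
    have h2 : Module.finrank ℂ (LinearMap.range M.mulVecLin) = M.rank := rfl
    rw [h2, Module.finrank_fin_fun] at h1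
    omega
  have hl : (starRingEnd ℂ) l = l := by rw [hlr, Complex.conj_ofReal]
  have heigc : ∀ y, val Q y (conj σ) = l * val b y (conj σ) := by
    intro y
    have h1 : val Q y (conj σ) = (starRingEnd ℂ) (val Q (conj y) σ) := by
      rw [← val_conj, conj_conj]
    have h2 : val b y (conj σ) = (starRingEnd ℂ) (val b (conj y) σ) := by
      rw [← val_conj, conj_conj]
    rw [h1, h2, hP.eig, map_mul, hl]
  have hkc := TWO_ker hP.nondeg heigc
  have hpos : val b σ (conj σ) ≠ 0 := by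
    intro h
    have h1 := hP.bpos
    rw [h] at h1
    simp at h1
  have hsym : ∀ x y, val b x y = val b y x := by
    intro x y
    have h1 := val_transpose b x y
    rw [hP.bsymm] at h1
    exact h1
  have hcc : val b (conj σ) (conj σ) = 0 := by
    rw [val_conj, hP.iso, map_zero]
  have hli : LinearIndependent ℂ ![σ, conj σ] := by
    rw [LinearIndependent.pair_iff]
    intro s t hst
    have h1 : val b σ (s • σ + t • conj σ) = 0 := by rw [hst, val_zero_right]
    have h2 : val b (conj σ) (s • σ + t • conj σ) = 0 := by rw [hst, val_zero_right]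
    rw [val_add_right, val_smul_right, val_smul_right, hP.iso, mul_zero, zero_add] at h1
    rw [val_add_right, val_smul_right, val_smul_right, hcc, mul_zero, add_zero,
      hsym (conj σ) σ] at h2
    exact ⟨(mul_eq_zero.mp h2).resolve_right hpos, (mul_eq_zero.mp h1).resolve_right hpos⟩
  have hle : Submodule.span ℂ (Set.range ![σ, conj σ]) ≤ LinearMap.ker M.mulVecLin := by
    rw [Submodule.span_le]
    rintro _ ⟨i, rfl⟩
    fin_cases i
    · exact hkσ
    · exact hkc
  have hspan : Submodule.span ℂ (Set.range ![σ, conj σ]) = LinearMap.ker M.mulVecLin := by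
    apply Submodule.eq_of_le_of_finrank_le hle
    rw [finrank_span_eq_card hli]
    simpa using hker
  intro τ hτ hτ0
  have hkτ : τ ∈ LinearMap.ker M.mulVecLin := TWO_ker hP.nondeg hτ
  rw [← hspan, Submodule.mem_span_range_iff_exists_fun] at hkτ
  obtain ⟨c, hc⟩ := hkτ
  rw [Fin.sum_univ_two] at hc
  simp only [Matrix.cons_val_zero, Matrix.cons_val_one] at hc
  rw [← hc, val_add_left, val_add_right, val_add_right, val_smul_left, val_smul_left,
    val_smul_left, val_smul_left, val_smul_right, val_smul_right, val_smul_right, val_smul_right,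
    hP.iso, hcc, hsym (conj σ) σ] at hτ0
  have h5 : c 0 * c 1 = 0 := by
    have h6 : 2 * (c 0 * c 1) * val b σ (conj σ) = 0 := by
      linear_combination hτ0
    have h7 := (mul_eq_zero.mp h6).resolve_right hpos
    have h8 : (2 : ℂ) ≠ 0 := two_ne_zero
    exact (mul_eq_zero.mp h7).resolve_left h8
  rcases mul_eq_zero.mp h5 with h6 | h6
  · refine ⟨c 1, Or.inr ?_⟩
    rw [← hc, h6, zero_smul, zero_add]
  · refine ⟨c 0, Or.inl ?_⟩
    rw [← hc, h6, zero_smul, add_zero]

end THS
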