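import Pool.Agent.Work.MP_298761_ths.Interface

set_option autoImplicit false

namespace THS

open Filter Topology Polynomial Data

theorem p_BAI : Stmt_BAI := by
  intro d ι κ f hι hf hcov
  haveI : Countable ι := hι
  haveI : LocallyCompactSpace (disc d) := (isOpen_disc d).locallyCompactSpace
  haveI : Nonempty (disc d) := ⟨⟨0, zero_mem_disc d⟩⟩
  let Z : ι → Set (disc d) := fun i => {s | ∀ k, f i k s.1 = 0}
  have hc : ∀ i, IsClosed (Z i) := by
    intro i
    have : Z i = ⋂ k, {s : disc d | f i k s.1 = 0} := by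
      ext s; simp [Z]
    rw [this]
    refine isClosed_iInter fun k => ?_
    have hcont : Continuous fun s : disc d => f i k s.1 :=
      (hf i k).continuousOn.comp_continuous continuous_subtype_val fun s => s.2
    exact isClosed_eq hcont continuous_const
  have hU : ⋃ i, Z i = Set.univ := by
    ext s
    simp only [Set.mem_iUnion, Set.mem_univ, iff_true]
    exact hcov s.1 s.2
  obtain ⟨i, s₀, hs₀⟩ := nonempty_interior_of_iUnion_of_closed hc hU
  refine ⟨i, fun s hs k => ?_⟩
  refine idt (hf i k) s₀.2 ?_ s hs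
  have h1 : Z i ∈ 𝓝 s₀ := mem_interior_iff_mem_nhds.1 hs₀
  have h2 : ∀ᶠ s : disc d in 𝓝 s₀, f i k s.1 = 0 := by
    filter_upwards [h1] with s hs using hs k
  have h3 : Filter.map (Subtype.val : disc d → _) (𝓝 s₀) = 𝓝 s₀.1 :=
    (isOpen_disc d).isOpenEmbedding_subtypeVal.map_nhds_eq s₀
  rw [← h3, Filter.eventually_map]
  exact h2

end THS
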