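import Pool.Agent.Work.MP_298761_ths.Interface

/-! Block DIM: the real eigenspace for a positive eigenvalue has dimension at most two. -/

set_option autoImplicit false

namespace THS

open Filter Topology Polynomial Data

section Dim

variable {n : ℕ} (M : Matrix (Fin n) (Fin n) ℚ)

theorem dim_add_left (x y z : Fin n → ℝ) : valR M (x + y) z = valR M x z + valR M y z := by
  simp only [valR, Pi.add_apply, add_mul, Finset.sum_add_distrib]

theorem dim_add_right (x y z : Fin n → ℝ) : valR M x (y + z) = valR M x y + valR M x z := by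
  simp only [valR, Pi.add_apply, mul_add, Finset.sum_add_distrib]

theorem dim_smul_left (c : ℝ) (x y : Fin n → ℝ) : valR M (c • x) y = c * valR M x y := by
  simp only [valR, Pi.smul_apply, smul_eq_mul, Finset.mul_sum, mul_assoc]

theorem dim_smul_right (c : ℝ) (x y : Fin n → ℝ) : valR M x (c • y) = c * valR M x y := by
  simp only [valR, Pi.smul_apply, smul_eq_mul, Finset.mul_sum]
  refine Finset.sum_congr rfl fun i _ => Finset.sum_congr rfl fun j _ => by ring

theorem dim_symm {M : Matrix (Fin n) (Fin n) ℚ} (hM : M.transpose = M) (x y : Fin n → ℝ) :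
    valR M x y = valR M y x := by
  simp only [valR]
  rw [Finset.sum_comm]
  refine Finset.sum_congr rfl fun i _ => Finset.sum_congr rfl fun j _ => ?_
  have h : M j i = M i j := congrFun (congrFun hM i) j
  rw [h]; ring

theorem dim_rToC (x y : Fin n → ℝ) : val M (rToC x) (rToC y) = ((valR M x y : ℝ) : ℂ) := by
  simp [val, valR, rToC]

theorem dim_split (σ : Fin n → ℂ) :
    rToC (fun i => (σ i).re) + Complex.I • rToC (fun i => (σ i).im) = σ := by
  funext i
  simp only [Pi.add_apply, Pi.smul_apply, rToC, smul_eq_mul]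
  rw [mul_comm]
  exact Complex.re_add_im (σ i)

theorem dim_split_conj (σ : Fin n → ℂ) :
    rToC (fun i => (σ i).re) + (-Complex.I) • rToC (fun i => (σ i).im) = conj σ := by
  funext i
  simp only [Pi.add_apply, Pi.smul_apply, rToC, smul_eq_mul, conj]
  apply Complex.ext <;> simp

theorem dim_plane {b Q : Matrix (Fin n) (Fin n) ℚ} {l : ℂ} {σ : Fin n → ℂ}
    (P : Pencil b Q l σ) (x0 y0 : Fin n → ℝ) (hx : x0 = fun i => (σ i).re)
    (hy : y0 = fun i => (σ i).im) :
    valR b x0 x0 = valR b y0 y0 ∧ valR b x0 y0 = 0 ∧ 0 < valR b x0 x0 := by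
  have hs : rToC x0 + Complex.I • rToC y0 = σ := by rw [hx, hy]; exact dim_split σ
  have hc : rToC x0 + (-Complex.I) • rToC y0 = conj σ := by rw [hx, hy]; exact dim_split_conj σ
  have h1 := P.iso
  have h2 := P.bpos
  have hsy : valR b y0 x0 = valR b x0 y0 := dim_symm P.bsymm y0 x0
  rw [← hc] at h2
  rw [← hs] at h1 h2
  simp only [val_add_left, val_add_right, val_smul_left, val_smul_right, dim_rToC, hsy] at h1 h2
  have h1r := congrArg Complex.re h1
  have h1i := congrArg Complex.im h1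
  simp at h1r h1i h2
  refine ⟨by linarith, by linarith, by linarith⟩

theorem dim_kernel {b Q : Matrix (Fin n) (Fin n) ℚ} {l : ℂ} {σ : Fin n → ℂ}
    (P : Pencil b Q l σ) (hl : ∃ r : ℝ, r < 0 ∧ l = (r : ℂ)) {a : ℝ} (ha : 0 < a)
    (z : Fin n → ℝ) (hz : ∀ y, valR Q y z = a * valR b y z)
    (x0 y0 : Fin n → ℝ) (hx : x0 = fun i => (σ i).re)
    (hy : y0 = fun i => (σ i).im) :
    valR b z x0 = 0 ∧ valR b z y0 = 0 ∧ (z ≠ 0 → 0 < valR b z z) := by
  obtain ⟨r, hr, rfl⟩ := hl
  have hs : rToC x0 + Complex.I • rToC y0 = σ := by rw [hx, hy]; exact dim_split σ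
  have h1 : val Q (rToC z) σ = (a : ℂ) * val b (rToC z) σ := by
    rw [← hs]
    simp only [val_add_right, val_smul_right, dim_rToC]
    rw [dim_symm P.qsymm z x0, dim_symm P.qsymm z y0, hz, hz, dim_symm P.bsymm z x0,
      dim_symm P.bsymm z y0]
    push_cast
    ring
  have h2 := P.eig (rToC z)
  have h3 : ((a : ℂ) - (r : ℂ)) * val b (rToC z) σ = 0 := by
    rw [sub_mul, ← h1, ← h2, sub_self]
  have h4 : val b (rToC z) σ = 0 := by
    rcases mul_eq_zero.mp h3 with h | h
    · exfalso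
      have h5 : a - r = 0 := by exact_mod_cast h
      linarith
    · exact h
  have h5 : ((valR b z x0 : ℝ) : ℂ) + Complex.I * ((valR b z y0 : ℝ) : ℂ) = 0 := by
    have h6 := h4
    rw [← hs, val_add_right, val_smul_right, dim_rToC, dim_rToC] at h6
    exact h6
  refine ⟨by simpa using congrArg Complex.re h5, by simpa using congrArg Complex.im h5,
    fun hne => ?_⟩
  have h6 := P.qpos z hne h4
  rw [hz z] at h6
  exact pos_of_mul_pos_right h6 ha.le

theorem dim_eig {b Q : Matrix (Fin n) (Fin n) ℚ} (hb : b.det ≠ 0) {a : ℝ} {z : Fin n → ℝ}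
    (hz : (((b⁻¹ * Q).map (Rat.castHom ℝ)) - Matrix.scalar (Fin n) a).mulVec z = 0)
    (y : Fin n → ℝ) : valR Q y z = a * valR b y z := by
  have h1 : ((b⁻¹ * Q).map (Rat.castHom ℝ)).mulVec z = a • z := by
    rw [Matrix.sub_mulVec, sub_eq_zero] at hz
    rw [hz]
    funext i
    simp [Matrix.scalar_apply, Matrix.mulVec_diagonal]
  have h2 : Q.map (Rat.castHom ℝ) =
      b.map (Rat.castHom ℝ) * (b⁻¹ * Q).map (Rat.castHom ℝ) := by
    rw [← Matrix.map_mul, Matrix.mul_nonsing_inv_cancel_left _ _ (isUnit_iff_ne_zero.mpr hb)]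
  rw [valR_eq_dot, valR_eq_dot, h2, ← Matrix.mulVec_mulVec, h1, Matrix.mulVec_smul,
    dotProduct_smul, smul_eq_mul]

theorem dim_real {b Q : Matrix (Fin n) (Fin n) ℚ} {l : ℂ} {σ : Fin n → ℂ}
    (P : Pencil b Q l σ) (hl : ∃ r : ℝ, r < 0 ∧ l = (r : ℂ)) {a : ℝ} (ha : 0 < a)
    (K : Submodule ℝ (Fin n → ℝ)) (hK : ∀ z ∈ K,
      (((b⁻¹ * Q).map (Rat.castHom ℝ)) - Matrix.scalar (Fin n) a).mulVec z = 0) :
    Module.finrank ℝ K ≤ 2 := by
  obtain ⟨P4, N, hPN, h4, -, hN⟩ := P.sig
  obtain ⟨x0, hx⟩ : ∃ x0 : Fin n → ℝ, x0 = fun i => (σ i).re := ⟨_, rfl⟩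
  obtain ⟨y0, hy⟩ : ∃ y0 : Fin n → ℝ, y0 = fun i => (σ i).im := ⟨_, rfl⟩
  obtain ⟨p1, p2, p3⟩ := dim_plane P x0 y0 hx hy
  let ψ : ((K × ℝ × ℝ) × N) →ₗ[ℝ] (Fin n → ℝ) :=
    { toFun := fun t => (t.1.1 : Fin n → ℝ) + t.1.2.1 • x0 + t.1.2.2 • y0 - (t.2 : Fin n → ℝ)
      map_add' := by
        intro s t
        simp only [Prod.fst_add, Prod.snd_add, Submodule.coe_add]
        module
      map_smul' := by
        intro c t
        simp only [Prod.smul_fst, Prod.smul_snd, Submodule.coe_smul, smul_eq_mul, RingHom.id_apply]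
        module }
  have hinj : Function.Injective ψ := by
    rw [injective_iff_map_eq_zero]
    rintro ⟨⟨⟨z, hz⟩, s, t⟩, ⟨w, hw⟩⟩ h
    have h1 : z + s • x0 + t • y0 = w := sub_eq_zero.mp h
    obtain ⟨q1, q2, q3⟩ := dim_kernel P hl ha z (dim_eig P.nondeg (hK z hz)) x0 y0 hx hy
    have h2 : valR b w w = valR b z z + s ^ 2 * valR b x0 x0 + t ^ 2 * valR b x0 x0 := by
      rw [← h1]
      simp only [dim_add_left, dim_add_right, dim_smul_left, dim_smul_right]
      rw [dim_symm P.bsymm x0 z, dim_symm P.bsymm y0 z, dim_symm P.bsymm y0 x0, q1, q2, p2, ← p1]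
      ring
    have hz0 : valR b (0 : Fin n → ℝ) 0 = 0 := by simp [valR]
    have h3 : 0 ≤ valR b z z := by
      by_cases hz1 : z = 0
      · rw [hz1, hz0]
      · exact (q3 hz1).le
    have hs2 : 0 ≤ s ^ 2 * valR b x0 x0 := mul_nonneg (sq_nonneg s) p3.le
    have ht2 : 0 ≤ t ^ 2 * valR b x0 x0 := mul_nonneg (sq_nonneg t) p3.le
    have hw0 : w = 0 := by
      by_contra hne
      have h5 := hN w hw hne
      linarith
    rw [hw0, hz0] at h2
    have hz2 : z = 0 := by
      by_contra hne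
      have h5 := q3 hne
      linarith
    have hs3 : s = 0 := by
      have h5 : s ^ 2 * valR b x0 x0 = 0 := by linarith
      rcases mul_eq_zero.mp h5 with h6 | h6
      · exact pow_eq_zero_iff (two_ne_zero) |>.mp h6
      · exact absurd h6 p3.ne'
    have ht3 : t = 0 := by
      have h5 : t ^ 2 * valR b x0 x0 = 0 := by linarith
      rcases mul_eq_zero.mp h5 with h6 | h6
      · exact pow_eq_zero_iff (two_ne_zero) |>.mp h6
      · exact absurd h6 p3.ne'
    subst hw0 hz2 hs3 ht3
    rfl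
  have h5 := LinearMap.finrank_le_finrank_of_injective hinj
  rw [Module.finrank_prod, Module.finrank_prod, Module.finrank_prod, Module.finrank_self,
    Module.finrank_fin_fun] at h5
  have h6 := Submodule.finrank_add_eq_of_isCompl hPN
  rw [h4, Module.finrank_fin_fun] at h6
  omega

theorem dim_complex {A : Matrix (Fin n) (Fin n) ℚ} {a : ℝ}
    (h : Module.finrank ℝ
      (LinearMap.ker ((A.map (Rat.castHom ℝ)) - Matrix.scalar (Fin n) a).mulVecLin) ≤ 2) :
    Module.finrank ℂ
      (LinearMap.ker ((A.map (Rat.castHom ℂ)) - Matrix.scalar (Fin n) (a : ℂ)).mulVecLin) ≤ 2 := by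
  set KR := LinearMap.ker ((A.map (Rat.castHom ℝ)) - Matrix.scalar (Fin n) a).mulVecLin with hKR
  set KC := LinearMap.ker ((A.map (Rat.castHom ℂ)) - Matrix.scalar (Fin n) (a : ℂ)).mulVecLin
    with hKC
  have hent : ∀ i j, ((A.map (Rat.castHom ℂ)) - Matrix.scalar (Fin n) (a : ℂ)) i j =
      ((((A.map (Rat.castHom ℝ)) - Matrix.scalar (Fin n) a) i j : ℝ) : ℂ) := by
    intro i j
    by_cases hij : i = j
    · subst hij
      simp [Matrix.sub_apply, Matrix.scalar_apply]
    · simp [Matrix.sub_apply, Matrix.scalar_apply, Matrix.diagonal_apply_ne _ hij]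
  have hre : ∀ z ∈ KC, (fun i => (z i).re) ∈ KR ∧ (fun i => (z i).im) ∈ KR := by
    intro z hz
    have hz' : ((A.map (Rat.castHom ℂ)) - Matrix.scalar (Fin n) (a : ℂ)).mulVec z = 0 := hz
    constructor
    · change ((A.map (Rat.castHom ℝ)) - Matrix.scalar (Fin n) a).mulVec _ = 0
      funext i
      have h1 := congrArg Complex.re (congrFun hz' i)
      simp only [Matrix.mulVec, dotProduct, hent, Complex.re_sum, Complex.re_ofReal_mul,
        Pi.zero_apply, Complex.zero_re] at h1
      simpa only [Matrix.mulVec, dotProduct, Pi.zero_apply] using h1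
    · change ((A.map (Rat.castHom ℝ)) - Matrix.scalar (Fin n) a).mulVec _ = 0
      funext i
      have h1 := congrArg Complex.im (congrFun hz' i)
      simp only [Matrix.mulVec, dotProduct, hent, Complex.im_sum, Complex.im_ofReal_mul,
        Pi.zero_apply, Complex.zero_im] at h1
      simpa only [Matrix.mulVec, dotProduct, Pi.zero_apply] using h1
  let f : KC →ₗ[ℝ] (KR × KR) :=
    { toFun := fun z => (⟨fun i => ((z : Fin n → ℂ) i).re, (hre z z.2).1⟩,
        ⟨fun i => ((z : Fin n → ℂ) i).im, (hre z z.2).2⟩)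
      map_add' := by
        intro x y
        refine Prod.ext (Subtype.ext ?_) (Subtype.ext ?_) <;> funext i <;> simp
      map_smul' := by
        intro c x
        refine Prod.ext (Subtype.ext ?_) (Subtype.ext ?_) <;> funext i <;> simp }
  have hinj : Function.Injective f := by
    intro x y hxy
    have h1 := congrArg (fun t => (t.1 : Fin n → ℝ)) hxy
    have h2 := congrArg (fun t => (t.2 : Fin n → ℝ)) hxy
    apply Subtype.ext
    funext i
    exact Complex.ext (congrFun h1 i) (congrFun h2 i)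
  have h3 := LinearMap.finrank_le_finrank_of_injective hinj
  rw [Module.finrank_prod] at h3
  have h4 : Module.finrank ℝ KC = 2 * Module.finrank ℂ KC := finrank_real_of_complex KC
  omega

end Dim

theorem p_DIM (hLNE : Stmt_LNE) : Stmt_DIM := by
  intro n b Q l σ P a ha
  have hl := hLNE n b Q l σ P
  have h1 := dim_real P hl ha
    (LinearMap.ker (((b⁻¹ * Q).map (Rat.castHom ℝ)) - Matrix.scalar (Fin n) a).mulVecLin)
    (fun z hz => hz)
  have h2 := dim_complex h1
  have h3 := LinearMap.finrank_range_add_finrank_ker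
    ((((b⁻¹ * Q).map (Rat.castHom ℂ)) - Matrix.scalar (Fin n) (a : ℂ)).mulVecLin)
  rw [Module.finrank_fin_fun] at h3
  have h4 : (((b⁻¹ * Q).map (Rat.castHom ℂ)) - Matrix.scalar (Fin n) (a : ℂ)).rank =
    Module.finrank ℂ (LinearMap.range
      ((((b⁻¹ * Q).map (Rat.castHom ℂ)) - Matrix.scalar (Fin n) (a : ℂ)).mulVecLin)) := rfl
  omega

end THS
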