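import Pool.Agent.Work.MP_298761_ths.InterfaceY

set_option autoImplicit false

namespace THS

open Filter Topology Polynomial Data

theorem p_FN2 (hS : Stmt_SGN) (hL : Stmt_LIN) (hP : Stmt_POS) : Stmt_FN2 := by
  intro Y d g ω hV hsp hK hp φ hφ
  obtain ⟨hsym, hsig⟩ := hS Y hK hp
  have hind := hV.basis 0 (zero_mem_disc d)
  obtain ⟨hg, hneg, h', hh', hort⟩ := hL Y g (ω 0) hK hp hind hsp
  subst hg
  obtain ⟨w, hw, hwf⟩ := hP _ d Y.euler ω hV hsym hsig (hneg 0) h' hh' (hort 0)
  have hwF : Flat Y.euler ω w := fun s hs j => by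
    rw [Subsingleton.elim j 0]
    exact hwf s hs
  set A := valQ Y.euler φ φ with hA
  set B := valQ Y.euler φ w + valQ Y.euler w φ with hB
  set D := -valQ Y.euler w w with hD
  have hD0 : 0 < D := by rw [hD]; linarith
  obtain ⟨k, hk⟩ := exists_nat_gt ((|A| + |B|) / D)
  have hk1 : |A| + |B| < k * D := (div_lt_iff₀ hD0).1 hk
  have hk0 : (1 : ℚ) ≤ k := by
    have h1 : (0 : ℚ) < k := lt_of_le_of_lt (div_nonneg (add_nonneg (abs_nonneg _) (abs_nonneg _)) hD0.le) hk
    have h2 : 0 < k := by exact_mod_cast h1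
    exact_mod_cast h2
  have hneg2 : valQ Y.euler (φ + (k : ℚ) • w) (φ + (k : ℚ) • w) < 0 := by
    have e : valQ Y.euler (φ + (k : ℚ) • w) (φ + (k : ℚ) • w) = A + k * B - k * (k * D) := by
      rw [valQ_add_left, valQ_add_right, valQ_add_right, valQ_smul_left, valQ_smul_left,
        valQ_smul_right, valQ_smul_right, hA, hB, hD]
      ring
    rw [e]
    have h1 : A ≤ k * |A| := by
      have := le_abs_self A
      nlinarith [abs_nonneg A]
    have h2 : k * B ≤ k * |B| := mul_le_mul_of_nonneg_left (le_abs_self B) (by linarith)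
    have h3 : (k : ℚ) * (|A| + |B|) < k * (k * D) := mul_lt_mul_of_pos_left hk1 (by linarith)
    linarith
  have hF2 : Flat Y.euler ω (φ + (k : ℚ) • w) := by
    intro s hs j
    rw [toC_add, toC_smul, val_add_left, val_smul_left, hφ s hs j, hwF s hs j, mul_zero, add_zero]
  have h1 : φ + (k : ℚ) • w ∈ Submodule.span ℚ {x | Flat Y.euler ω x ∧ valQ Y.euler x x < 0} :=
    Submodule.subset_span ⟨hF2, hneg2⟩
  have h2 : w ∈ Submodule.span ℚ {x | Flat Y.euler ω x ∧ valQ Y.euler x x < 0} :=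
    Submodule.subset_span ⟨hwF, hw⟩
  have h3 := Submodule.sub_mem _ h1 (Submodule.smul_mem _ (k : ℚ) h2)
  rwa [add_sub_cancel_right] at h3

end THS
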