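import Pool.Agent.Work.MP_298761_ths.Interface

/-! Block LEX of THEOREM S (helper44). -/

set_option autoImplicit false

namespace THS

open Filter Topology Polynomial Data

theorem p_LEX : Stmt_LEX := by
  intro T hT d L hE v hv
  have h0 : hdg v := by
    have h := hv 0 (zero_mem_disc d)
    rwa [hT.at_zero] at h
  obtain ⟨m, q, E, hE2, hvE⟩ := hE v h0
  have hall : ∀ᶠ s in 𝓝 (0 : Fin d → ℂ), ∀ i, alg (at_ L (T.cl (E i)) s) := by
    rw [Filter.eventually_all]
    intro i
    exact hT.deform d L (E i) (hE2 i)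
  filter_upwards [hall] with s hs
  show T.tr L s v ∈ T.Alg _
  rw [hvE, map_sum]
  apply Submodule.sum_mem
  intro i _
  rw [map_smul]
  exact Submodule.smul_mem _ _ (hs i)

end THS
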