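import Pool.Agent.Work.MP_298761_ths.Interface

/-! Block LK3 of THEOREM S for MP_298761_ag. -/

set_option autoImplicit false

namespace THS

open Filter Topology Polynomial Data

private theorem lk3_valR_neg {n : ℕ} (M : Matrix (Fin n) (Fin n) ℚ) (x y : Fin n → ℝ) :
    valR (-M) x y = -valR M x y := by
  simp [valR, Finset.sum_neg_distrib]

private theorem lk3_sig {n : ℕ} {M : Matrix (Fin n) (Fin n) ℚ}
    (h : ∃ P N : Submodule ℝ (Fin n → ℝ), IsCompl P N ∧ Module.finrank ℝ P = 4 ∧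
      (∀ x ∈ P, x ≠ 0 → valR M x x < 0) ∧ (∀ x ∈ N, x ≠ 0 → 0 < valR M x x)) : Sig4 (-M) := by
  obtain ⟨P, N, h1, h2, h3, h4⟩ := h
  refine ⟨P, N, h1, h2, fun x hx h0 => ?_, fun x hx h0 => ?_⟩
  · rw [lk3_valR_neg]; have := h3 x hx h0; linarith
  · rw [lk3_valR_neg]; have := h4 x hx h0; linarith

private theorem lk3_large (A B C : ℚ) (hC : C < 0) : ∃ m : ℕ, A + m * B + m * m * C < 0 := by
  obtain ⟨m, hm⟩ := exists_nat_gt ((|A| + |B|) / (-C) + 1)
  refine ⟨m, ?_⟩
  have hC' : 0 < -C := by linarith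
  have h0 : 0 ≤ (|A| + |B|) / (-C) := by positivity
  have h1 : (1 : ℚ) < m := by linarith
  have h2 : (|A| + |B|) / (-C) < m := by linarith
  rw [div_lt_iff₀ hC'] at h2
  have h3 : A ≤ |A| := le_abs_self A
  have h4 : B ≤ |B| := le_abs_self B
  have h5 : 0 ≤ |A| := abs_nonneg A
  have h6 : 0 ≤ |B| := abs_nonneg B
  have h7 : (m : ℚ) * B ≤ m * |B| := by nlinarith
  have h8 : |A| ≤ m * |A| := by nlinarith
  have h9 : (m : ℚ) * (|A| + |B|) < m * (m * -C) := by nlinarith
  nlinarith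

private theorem lk3_at_add {T : Data} {d : ℕ} (L : T.Loc d) (v w : T.V (T.cat L 0))
    (s : Fin d → ℂ) : at_ L (v + w) s = at_ L v s + at_ L w s := by
  unfold at_; exact map_add _ v w

private theorem lk3_at_smul {T : Data} {d : ℕ} (L : T.Loc d) (q : ℚ) (v : T.V (T.cat L 0))
    (s : Fin d → ℂ) : at_ L (q • v) s = q • at_ L v s := by
  unfold at_; exact map_smul _ q v

private theorem lk3_hdgOn_add {T : Data} {d : ℕ} (L : T.Loc d) {v w : T.V (T.cat L 0)}
    (hv : hdgOn L v) (hw : hdgOn L w) : hdgOn L (v + w) := by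
  intro s hs
  rw [lk3_at_add]
  exact Submodule.add_mem _ (hv s hs) (hw s hs)

private theorem lk3_hdgOn_smul {T : Data} {d : ℕ} (L : T.Loc d) (q : ℚ) {v : T.V (T.cat L 0)}
    (hv : hdgOn L v) : hdgOn L (q • v) := by
  intro s hs
  rw [lk3_at_smul]
  exact Submodule.smul_mem _ q (hv s hs)

private theorem lk3_algNear_add {T : Data} {d : ℕ} (L : T.Loc d) {v w : T.V (T.cat L 0)}
    (hv : algNear L v) (hw : algNear L w) : algNear L (v + w) := by
  unfold algNear at *
  filter_upwards [hv, hw] with s h1 h2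
  rw [lk3_at_add]
  exact Submodule.add_mem _ h1 h2

private theorem lk3_algNear_smul {T : Data} {d : ℕ} (L : T.Loc d) (q : ℚ) {v : T.V (T.cat L 0)}
    (hv : algNear L v) : algNear L (q • v) := by
  unfold algNear at *
  filter_upwards [hv] with s h1
  rw [lk3_at_smul]
  exact Submodule.smul_mem _ q h1

theorem p_LK3 (hPOS : Stmt_POS) : Stmt_LK3 := by
  intro T hT d L hS hK v hv
  obtain ⟨g, ω, hvar, hspan, hhdg⟩ := hT.period d L hS
  obtain ⟨σ, hσ, hneg⟩ := hK.form
  have hσ0 : σ ≠ 0 := by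
    rintro rfl
    rw [val_zero_left] at hneg
    simp at hneg
  have hli : LinearIndependent ℂ (ω 0) := hvar.basis 0 (zero_mem_disc d)
  have hg : g = 1 := by
    have h1 := finrank_span_eq_card hli
    rw [← hspan, hσ, finrank_span_singleton hσ0] at h1
    simpa using h1.symm
  subst hg
  have hmem : ω 0 0 ∈ Submodule.span ℂ {σ} := by
    rw [← hσ, hspan]
    exact Submodule.subset_span ⟨0, rfl⟩
  obtain ⟨t, ht⟩ := Submodule.mem_span_singleton.mp hmem
  have ht0 : t ≠ 0 := by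
    rintro rfl
    rw [zero_smul] at ht
    exact hli.ne_zero 0 ht.symm
  have hneg' : (val (T.chi (T.cat L 0)) (ω 0 0) (conj (ω 0 0))).re < 0 := by
    rw [← ht, conj_smul, val_smul_left, val_smul_right, ← mul_assoc, Complex.mul_conj]
    rw [Complex.re_ofReal_mul]
    have : 0 < Complex.normSq t := Complex.normSq_pos.mpr ht0
    exact mul_neg_of_pos_of_neg this hneg
  obtain ⟨h, hh, hhneg⟩ := hK.ample
  have hz := hT.at_zero d L
  have hh0 : val (T.chi (T.cat L 0)) (toC h) (ω 0 0) = 0 := by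
    have h1 := (hhdg 0 (zero_mem_disc d) h).mp (by rw [hz h]; exact hh)
    exact h1 0
  obtain ⟨w, hw, hw0⟩ := hPOS _ d (T.chi (T.cat L 0)) ω hvar hK.symm (lk3_sig hK.signature) hneg' h
    hhneg hh0
  have hwOn : hdgOn L w := by
    intro s hs
    refine (hhdg s hs w).mpr fun j => ?_
    rw [Subsingleton.elim j 0]
    exact hw0 s hs
  have key : ∀ u : T.V (T.cat L 0), hdgOn L u → eul u u < 0 → algNear L u := by
    intro u hu hneg
    have hu0 : hdg u := by
      have := hu 0 (zero_mem_disc d)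
      rwa [hz u] at this
    obtain ⟨q, hq, hsemi⟩ := hK.simple u hu0 hneg
    have h1 := hT.semiregular d L _ hsemi (lk3_hdgOn_smul L _ hu)
    have h2 := lk3_algNear_smul L q⁻¹ h1
    rwa [smul_smul, inv_mul_cancel₀ hq.ne', one_smul] at h2
  have hwN := key w hwOn hw
  obtain ⟨m, hm⟩ := lk3_large (valQ (T.chi (T.cat L 0)) v v)
    (valQ (T.chi (T.cat L 0)) v w + valQ (T.chi (T.cat L 0)) w v) (valQ (T.chi (T.cat L 0)) w w) hw
  have hvm : hdgOn L (v + (m : ℚ) • w) := lk3_hdgOn_add L hv (lk3_hdgOn_smul L _ hwOn)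
  have hvm' : eul (v + (m : ℚ) • w) (v + (m : ℚ) • w) < 0 := by
    unfold eul
    rw [valQ_add_left, valQ_add_right, valQ_add_right, valQ_smul_left, valQ_smul_left,
      valQ_smul_right, valQ_smul_right]
    refine lt_of_eq_of_lt ?_ hm
    ring
  have h3 := key _ hvm hvm'
  have h4 := lk3_algNear_add L h3 (lk3_algNear_smul L (-(m : ℚ)) hwN)
  have h5 : v + (m : ℚ) • w + -(m : ℚ) • w = v := by
    rw [neg_smul]; abel
  rwa [h5] at h4

end THS
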