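import Pool.Agent.Work.MP_298761_ths.Interface

/-! Block LSU of ths_blocks: the theory for surfaces. -/

set_option autoImplicit false

namespace THS

open Filter Topology Polynomial Data

theorem LSU_alg_add {T : Data} {d : ℕ} {L : T.Loc d} {v w : T.V (T.cat L 0)}
    (hv : algNear L v) (hw : algNear L w) : algNear L (v + w) := by
  refine (Filter.Eventually.and hv hw).mono fun s hs => ?_
  show at_ L (v + w) s ∈ T.Alg (T.cat L s)
  have e : at_ L (v + w) s = at_ L v s + at_ L w s := by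
    unfold at_
    rw [map_add]
  rw [e]
  exact Submodule.add_mem _ hs.1 hs.2

theorem LSU_alg_smul {T : Data} {d : ℕ} {L : T.Loc d} {v : T.V (T.cat L 0)} (c : ℚ)
    (hv : algNear L v) : algNear L (c • v) := by
  refine Filter.Eventually.mono hv fun s hs => ?_
  show at_ L (c • v) s ∈ T.Alg (T.cat L s)
  have e : at_ L (c • v) s = c • at_ L v s := by
    unfold at_
    rw [map_smul]
  rw [e]
  exact Submodule.smul_mem _ _ hs

theorem LSU_hdg_add {T : Data} {d : ℕ} {L : T.Loc d} {v w : T.V (T.cat L 0)}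
    (hv : hdgOn L v) (hw : hdgOn L w) : hdgOn L (v + w) := by
  intro s hs
  show at_ L (v + w) s ∈ T.Hdg (T.cat L s)
  have e : at_ L (v + w) s = at_ L v s + at_ L w s := by
    unfold at_
    rw [map_add]
  rw [e]
  exact Submodule.add_mem _ (hv s hs) (hw s hs)

theorem LSU_hdg_smul {T : Data} {d : ℕ} {L : T.Loc d} {v : T.V (T.cat L 0)} (c : ℚ)
    (hv : hdgOn L v) : hdgOn L (c • v) := by
  intro s hs
  show at_ L (c • v) s ∈ T.Hdg (T.cat L s)
  have e : at_ L (c • v) s = c • at_ L v s := by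
    unfold at_
    rw [map_smul]
  rw [e]
  exact Submodule.smul_mem _ _ (hv s hs)

/-- If a vector is orthogonal to all rational vectors it is orthogonal to everything. -/
theorem LSU_ext {n : ℕ} {M : Matrix (Fin n) (Fin n) ℚ} {z : Fin n → ℂ}
    (h : ∀ x : Fin n → ℚ, val M (toC x) z = 0) : ∀ y, val M y z = 0 := by
  have h1 : (M.map (Rat.castHom ℂ)).mulVec z = 0 := by
    funext i
    have h2 := h (Pi.single i 1)
    have e : toC (Pi.single i (1 : ℚ)) = (Pi.single i (1 : ℂ) : Fin n → ℂ) := by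
      funext j
      unfold toC
      by_cases hj : j = i
      · subst hj
        simp
      · simp [hj]
    rw [e, val_eq_dot] at h2
    simpa using h2
  intro y
  rw [val_eq_dot, h1, dotProduct_zero]

/-- The existence part: `p` is Hodge on the polydisc. -/
theorem LSU_point (hSER : Stmt_SER) {T : Data} (hF : T.Facts) {d : ℕ} (L : T.Loc d)
    {g : ℕ} {ω : (Fin d → ℂ) → Fin g → Fin (T.dim (T.cat L 0)) → ℂ}
    (hV : IsVariation (T.chi (T.cat L 0)) ω)
    (hiff : ∀ s ∈ disc d, ∀ v, hdg (at_ L v s) ↔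
      ∀ j, val (T.chi (T.cat L 0)) (toC v) (ω s j) = 0)
    {p : T.V (T.cat L 0)} {K : T.V (T.cat L 0) → T.V (T.cat L 0)}
    (hS : SurfaceFacts (T.cat L 0) p K)
    (hk : (∀ x : T.V (T.cat L 0), hdg x) ∨ (∃ x, K x - x = p)) : hdgOn L p := by
  have h0 : ∀ x : T.V (T.cat L 0), hdg x → ∀ j, val (T.chi (T.cat L 0)) (toC x) (ω 0 j) = 0 := by
    intro x hx
    apply (hiff 0 (zero_mem_disc d) x).mp
    rw [hF.at_zero]
    exact hx
  rcases hk with hk | ⟨x, hx⟩
  · intro s hs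
    rw [hiff s hs p]
    intro j
    exfalso
    have hz : ω 0 j = 0 := by
      apply eq_zero_of_right (hV.hodge 0 (zero_mem_disc d)).nondeg
      exact LSU_ext fun x => h0 x (hk x) j
    exact (hV.basis 0 (zero_mem_disc d)).ne_zero j hz
  · intro s hs
    rw [hiff s hs p]
    intro j
    have h1 := hSER _ d g (T.chi (T.cat L 0)) ω hV (hS.linear.mk' K)
      (fun x y => hS.serre x y)
      (fun x j => h0 (K x - x) (hS.canonical x) j) x s hs j
    have h2 : (hS.linear.mk' K) x - x = p := hx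
    rw [h2] at h1
    exact h1

theorem p_LSU (hSER : Stmt_SER) (hRKU : Stmt_RKU) : Stmt_LSU := by
  intro T hF d L hsurf p K hS hk v hv
  obtain ⟨g, ω, hV, -, hiff⟩ := hF.period d L hsurf
  have hp : hdgOn L p := LSU_point hSER hF L hV hiff hS hk
  obtain ⟨u, hu0, hu1⟩ := hRKU _ d g (T.chi (T.cat L 0)) ω hV p hS.point_ne
    (fun s hs j => (hiff s hs p).mp (hp s hs) j)
  have hu : hdgOn L u := fun s hs => (hiff s hs u).mpr (hu1 s hs)
  have at0 : ∀ x : T.V (T.cat L 0), hdgOn L x → hdg x := by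
    intro x hx
    have := hx 0 (zero_mem_disc d)
    rwa [hF.at_zero] at this
  -- the number `m`
  obtain ⟨m, hm⟩ := exists_nat_gt (-(valQ (T.chi (T.cat L 0)) v p) /
    valQ (T.chi (T.cat L 0)) u p)
  have hm' : 0 < eul (v + (m : ℚ) • u) p := by
    unfold eul
    rw [valQ_add_left, valQ_smul_left]
    rw [div_lt_iff₀ hu0] at hm
    linarith
  have hw : hdgOn L (v + (m : ℚ) • u) := LSU_hdg_add hv (LSU_hdg_smul _ hu)
  have semi : ∀ (N : ℕ) (M : ℤ) (x : T.V (T.cat L 0)), hdgOn L x →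
      Semi (N • x - M • p) → algNear L ((N : ℚ) • x + (-(M : ℚ)) • p) := by
    intro N M x hx hs
    have e : (N : ℚ) • x + (-(M : ℚ)) • p = N • x - M • p := by
      rw [neg_smul, ← sub_eq_add_neg, Nat.cast_smul_eq_nsmul, Int.cast_smul_eq_zsmul]
    have h1 : hdgOn L ((N : ℚ) • x + (-(M : ℚ)) • p) :=
      LSU_hdg_add (LSU_hdg_smul _ hx) (LSU_hdg_smul _ hp)
    apply hF.semiregular d L _ _ h1
    rw [e]
    exact hs
  obtain ⟨N₂, hN₂, M₂, hM₂⟩ := hS.sheaves u (at0 u hu) hu0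
  obtain ⟨N₁, hN₁, M₁, hM₁⟩ := hS.sheaves _ (at0 _ hw) hm'
  have a1 := semi N₁ M₁ _ hw (hM₁ M₁ le_rfl)
  have a2 := semi N₂ M₂ _ hu (hM₂ M₂ le_rfl)
  have a3 := semi N₂ (M₂ + 1) _ hu (hM₂ (M₂ + 1) (by omega))
  have hN₂' : (N₂ : ℚ) ≠ 0 := by
    have : N₂ ≠ 0 := by omega
    exact_mod_cast this
  have hN₁' : (N₁ : ℚ) ≠ 0 := by
    have : N₁ ≠ 0 := by omega
    exact_mod_cast this
  have ap : algNear L p := by
    have h1 := LSU_alg_add a2 (LSU_alg_smul (-1) a3)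
    have e : (N₂ : ℚ) • u + (-(M₂ : ℚ)) • p + (-1 : ℚ) • ((N₂ : ℚ) • u +
        (-((M₂ + 1 : ℤ) : ℚ)) • p) = p := by
      push_cast
      module
    rwa [e] at h1
  have au : algNear L u := by
    have h1 := LSU_alg_smul ((N₂ : ℚ)⁻¹) (LSU_alg_add a2 (LSU_alg_smul (M₂ : ℚ) ap))
    have e : ((N₂ : ℚ)⁻¹) • ((N₂ : ℚ) • u + (-(M₂ : ℚ)) • p + (M₂ : ℚ) • p) = u := by
      have e1 : (N₂ : ℚ) • u + (-(M₂ : ℚ)) • p + (M₂ : ℚ) • p = (N₂ : ℚ) • u := by
        module
      rw [e1, smul_smul, inv_mul_cancel₀ hN₂', one_smul]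
    rwa [e] at h1
  have aw : algNear L (v + (m : ℚ) • u) := by
    have h1 := LSU_alg_smul ((N₁ : ℚ)⁻¹) (LSU_alg_add a1 (LSU_alg_smul (M₁ : ℚ) ap))
    have e : ((N₁ : ℚ)⁻¹) • ((N₁ : ℚ) • (v + (m : ℚ) • u) + (-(M₁ : ℚ)) • p +
        (M₁ : ℚ) • p) = v + (m : ℚ) • u := by
      have e1 : (N₁ : ℚ) • (v + (m : ℚ) • u) + (-(M₁ : ℚ)) • p + (M₁ : ℚ) • p =
          (N₁ : ℚ) • (v + (m : ℚ) • u) := by
        module
      rw [e1, smul_smul, inv_mul_cancel₀ hN₁', one_smul]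
    rwa [e] at h1
  have h1 := LSU_alg_add aw (LSU_alg_smul (-(m : ℚ)) au)
  have e : v + (m : ℚ) • u + (-(m : ℚ)) • u = v := by
    module
  rwa [e] at h1

end THS
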