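import Pool.Agent.Work.MP_298761_ths.Interface

set_option autoImplicit false

namespace THS

open Filter Topology Polynomial Data

private theorem ths_aux (hLSU : Stmt_LSU) (hLK3 : Stmt_LK3) (hLEX : Stmt_LEX) (T : Data)
    (hT : T.Facts) (F : T.Fam) (o : T.Pt F) (k : ℕ) (D : Fin k → T.Cat) (hD : T.Sod F o D)
    (hk : ∀ i, ExtFree (D i) ∨ T.Surf (D i)) (φ : (s : T.Pt F) → Fin (T.dim (T.fib F s)) → ℚ)
    (hφ : φ ∈ T.Sec F) (ho : hdg (φ o)) (s : T.Pt F) : alg (φ s) := by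
  obtain ⟨A, hc, hcat, halg, hhdg, hflat, hlocus⟩ := hT.spread F o k D hD
  refine hlocus φ hφ ?_ s
  have hall : ∀ t, hdg (φ t) := fun t => hT.hodge_everywhere F φ hφ o t ho
  -- the components
  have hon : ∀ i, hdgOn (A.L i) (A.pr 0 i (φ (A.c 0))) := by
    intro i s hs
    rw [← hflat φ hφ s hs i]
    exact hhdg s hs _ (hall _) i
  have hnear : ∀ i, algNear (A.L i) (A.pr 0 i (φ (A.c 0))) := by
    intro i
    rcases hk i with h | h
    · rw [← hcat i] at h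
      exact hLEX T hT _ _ h _ (hon i)
    · rw [← hcat i] at h
      obtain ⟨p, K, hpK⟩ := hT.surface _ h
      rcases hpK.kinds with h1 | h1 | h1
      · exact hLSU T hT _ _ h p K hpK (Or.inl h1) _ (hon i)
      · exact hLSU T hT _ _ h p K hpK (Or.inr h1) _ (hon i)
      · exact hLK3 T hT _ _ h h1 _ (hon i)
  have hev : ∀ᶠ s in 𝓝 (0 : Fin A.d → ℂ), ∀ i, alg (at_ (A.L i) (A.pr 0 i (φ (A.c 0))) s) :=
    Filter.eventually_all.2 hnear
  have hd : ∀ᶠ s in 𝓝 (0 : Fin A.d → ℂ), s ∈ disc A.d :=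
    (isOpen_disc A.d).mem_nhds (zero_mem_disc A.d)
  filter_upwards [hev, hd] with s hs hsd
  refine halg s hsd _ fun i => ?_
  rw [hflat φ hφ s hsd i]
  exact hs i

theorem p_THS (hLSU : Stmt_LSU) (hLK3 : Stmt_LK3) (hLEX : Stmt_LEX) : Stmt_THS := by
  intro T hT F o k D hD hk φ hφ
  refine ⟨fun ho s => ths_aux hLSU hLK3 hLEX T hT F o k D hD hk φ hφ ho s, ?_⟩
  rintro ⟨t, ht⟩ s
  exact ths_aux hLSU hLK3 hLEX T hT F o k D hD hk φ hφ
    (hT.hodge_everywhere F φ hφ t o (hT.algebraic_hodge _ _ ht)) s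

end THS
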