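import Pool.Agent.Work.MP_298761_ths.Defs

/-! Elementary lemmas on `val`, `valR`, `valQ`, `toC`, `conj`. -/

set_option autoImplicit false

namespace THS

variable {n : ℕ} (M : Matrix (Fin n) (Fin n) ℚ)

theorem val_add_left (x y z : Fin n → ℂ) : val M (x + y) z = val M x z + val M y z := by
  simp only [val, Pi.add_apply, add_mul, Finset.sum_add_distrib]

theorem val_add_right (x y z : Fin n → ℂ) : val M x (y + z) = val M x y + val M x z := by
  simp only [val, Pi.add_apply, mul_add, Finset.sum_add_distrib]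

theorem val_smul_left (c : ℂ) (x y : Fin n → ℂ) : val M (c • x) y = c * val M x y := by
  simp only [val, Pi.smul_apply, smul_eq_mul, Finset.mul_sum, mul_assoc]

theorem val_smul_right (c : ℂ) (x y : Fin n → ℂ) : val M x (c • y) = c * val M x y := by
  simp only [val, Pi.smul_apply, smul_eq_mul, Finset.mul_sum]
  refine Finset.sum_congr rfl fun i _ => Finset.sum_congr rfl fun j _ => by ring

theorem val_zero_left (y : Fin n → ℂ) : val M 0 y = 0 := by simp [val]

theorem val_zero_right (y : Fin n → ℂ) : val M y 0 = 0 := by simp [val]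

theorem val_neg_left (x y : Fin n → ℂ) : val M (-x) y = -val M x y := by
  simpa using val_smul_left M (-1) x y

theorem val_neg_right (x y : Fin n → ℂ) : val M x (-y) = -val M x y := by
  simpa using val_smul_right M (-1) x y

theorem val_sub_left (x y z : Fin n → ℂ) : val M (x - y) z = val M x z - val M y z := by
  rw [sub_eq_add_neg, val_add_left, val_neg_left, sub_eq_add_neg]

theorem val_sub_right (x y z : Fin n → ℂ) : val M x (y - z) = val M x y - val M x z := by
  rw [sub_eq_add_neg, val_add_right, val_neg_right, sub_eq_add_neg]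

theorem conj_add (x y : Fin n → ℂ) : conj (x + y) = conj x + conj y := by
  funext i; simp [conj]

theorem conj_sub (x y : Fin n → ℂ) : conj (x - y) = conj x - conj y := by
  funext i; simp [conj]

theorem conj_smul (c : ℂ) (x : Fin n → ℂ) : conj (c • x) = (starRingEnd ℂ) c • conj x := by
  funext i; simp [conj]

theorem conj_conj (x : Fin n → ℂ) : conj (conj x) = x := by
  funext i; simp [conj]

theorem conj_zero : conj (0 : Fin n → ℂ) = 0 := by
  funext i; simp [conj]

theorem conj_eq_zero {x : Fin n → ℂ} : conj x = 0 ↔ x = 0 :=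
  ⟨fun h => by rw [← conj_conj x, h, conj_zero], fun h => by rw [h, conj_zero]⟩

theorem conj_toC (v : Fin n → ℚ) : conj (toC v) = toC v := by
  funext i; simp [conj, toC]

theorem val_conj (x y : Fin n → ℂ) : val M (conj x) (conj y) = (starRingEnd ℂ) (val M x y) := by
  simp [val, conj, map_sum]

theorem toC_add (x y : Fin n → ℚ) : toC (x + y) = toC x + toC y := by
  funext i; simp [toC]

theorem toC_sub (x y : Fin n → ℚ) : toC (x - y) = toC x - toC y := by
  funext i; simp [toC]

theorem toC_smul (c : ℚ) (x : Fin n → ℚ) : toC (c • x) = (c : ℂ) • toC x := by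
  funext i; simp [toC]

theorem toC_zero : toC (0 : Fin n → ℚ) = 0 := by
  funext i; simp [toC]

theorem toC_injective : Function.Injective (toC : (Fin n → ℚ) → Fin n → ℂ) := by
  intro x y h
  funext i
  have := congrFun h i
  simpa [toC] using this

theorem val_toC (x y : Fin n → ℚ) : val M (toC x) (toC y) = ((valQ M x y : ℚ) : ℂ) := by
  simp [val, valQ, toC]

theorem val_transpose (x y : Fin n → ℂ) : val M.transpose x y = val M y x := by
  simp only [val, Matrix.transpose_apply]
  rw [Finset.sum_comm]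
  refine Finset.sum_congr rfl fun i _ => Finset.sum_congr rfl fun j _ => by ring

theorem valQ_add_left (x y z : Fin n → ℚ) : valQ M (x + y) z = valQ M x z + valQ M y z := by
  simp only [valQ, Pi.add_apply, add_mul, Finset.sum_add_distrib]

theorem valQ_add_right (x y z : Fin n → ℚ) : valQ M x (y + z) = valQ M x y + valQ M x z := by
  simp only [valQ, Pi.add_apply, mul_add, Finset.sum_add_distrib]

theorem valQ_smul_left (c : ℚ) (x y : Fin n → ℚ) : valQ M (c • x) y = c * valQ M x y := by
  simp only [valQ, Pi.smul_apply, smul_eq_mul, Finset.mul_sum, mul_assoc]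

theorem valQ_smul_right (c : ℚ) (x y : Fin n → ℚ) : valQ M x (c • y) = c * valQ M x y := by
  simp only [valQ, Pi.smul_apply, smul_eq_mul, Finset.mul_sum]
  refine Finset.sum_congr rfl fun i _ => Finset.sum_congr rfl fun j _ => by ring

/-- `val` as a dot product. -/
theorem val_eq_dot (x y : Fin n → ℂ) :
    val M x y = x ⬝ᵥ (M.map (Rat.castHom ℂ)).mulVec y := by
  simp only [val, dotProduct, Matrix.mulVec, Matrix.map_apply, Finset.mul_sum, mul_assoc]
  rfl

theorem valR_eq_dot (x y : Fin n → ℝ) :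
    valR M x y = x ⬝ᵥ (M.map (Rat.castHom ℝ)).mulVec y := by
  simp only [valR, dotProduct, Matrix.mulVec, Matrix.map_apply, Finset.mul_sum, mul_assoc]
  rfl

theorem valQ_eq_dot (x y : Fin n → ℚ) : valQ M x y = x ⬝ᵥ M.mulVec y := by
  simp only [valQ, dotProduct, Matrix.mulVec, Finset.mul_sum, mul_assoc]

/-- A nondegenerate form: a vector orthogonal to everything from the right is `0`. -/
theorem eq_zero_of_right {M : Matrix (Fin n) (Fin n) ℚ} (hM : M.det ≠ 0) {x : Fin n → ℂ}
    (h : ∀ y, val M y x = 0) : x = 0 := by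
  have h1 : (M.map (Rat.castHom ℂ)).mulVec x = 0 := by
    funext i
    have h2 := h (Pi.single i 1)
    rw [val_eq_dot] at h2
    simpa using h2
  have h2 : (M.map (Rat.castHom ℂ)).det ≠ 0 := by
    have : (M.map (Rat.castHom ℂ)).det = (Rat.castHom ℂ) M.det := by
      rw [RingHom.map_det]; rfl
    rw [this]
    simpa using hM
  exact Matrix.eq_zero_of_mulVec_eq_zero h2 h1

/-- A nondegenerate form: a vector orthogonal to everything from the left is `0`. -/
theorem eq_zero_of_left {M : Matrix (Fin n) (Fin n) ℚ} (hM : M.det ≠ 0) {x : Fin n → ℂ}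
    (h : ∀ y, val M x y = 0) : x = 0 := by
  refine eq_zero_of_right (M := M.transpose) (by rwa [Matrix.det_transpose]) fun y => ?_
  rw [val_transpose]
  exact h y

theorem Mid.conj' {χ : Matrix (Fin n) (Fin n) ℚ} {F : Submodule ℂ (Fin n → ℂ)} {z : Fin n → ℂ}
    (h : Mid χ F z) : Mid χ F (conj z) := by
  intro a ha
  obtain ⟨h1, h2⟩ := h a ha
  constructor
  · rw [← conj_conj a, val_conj, h2, map_zero]
  · rw [val_conj, h1, map_zero]

theorem mid_add {χ : Matrix (Fin n) (Fin n) ℚ} {F : Submodule ℂ (Fin n → ℂ)} {z w : Fin n → ℂ}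
    (hz : Mid χ F z) (hw : Mid χ F w) : Mid χ F (z + w) := by
  intro a ha
  rw [val_add_left, val_add_left, (hz a ha).1, (hw a ha).1, (hz a ha).2, (hw a ha).2]
  simp

theorem mid_smul {χ : Matrix (Fin n) (Fin n) ℚ} {F : Submodule ℂ (Fin n → ℂ)} {z : Fin n → ℂ}
    (hz : Mid χ F z) (c : ℂ) : Mid χ F (c • z) := by
  intro a ha
  rw [val_smul_left, val_smul_left, (hz a ha).1, (hz a ha).2]
  simp

/-- A rational vector orthogonal to `F` is `Mid`. -/
theorem mid_toC {χ : Matrix (Fin n) (Fin n) ℚ} {F : Submodule ℂ (Fin n → ℂ)} {v : Fin n → ℚ}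
    (h : ∀ a ∈ F, val χ (toC v) a = 0) : Mid χ F (toC v) := by
  intro a ha
  refine ⟨h a ha, ?_⟩
  rw [← conj_toC v, val_conj, h a ha, map_zero]

theorem isOpen_disc (d : ℕ) : IsOpen (disc d) := Metric.isOpen_ball

theorem zero_mem_disc (d : ℕ) : (0 : Fin d → ℂ) ∈ disc d := Metric.mem_ball_self one_pos

theorem isPreconnected_disc (d : ℕ) : IsPreconnected (disc d) :=
  (convex_ball (0 : Fin d → ℂ) 1).isPreconnected

/-- The identity theorem on the polydisc. -/
theorem idt {d : ℕ} {f : (Fin d → ℂ) → ℂ} (hf : AnalyticOnNhd ℂ f (disc d)) {s₀ : Fin d → ℂ}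
    (h₀ : s₀ ∈ disc d) (h : ∀ᶠ s in nhds s₀, f s = 0) : ∀ s ∈ disc d, f s = 0 := fun s hs =>
  hf.eqOn_zero_of_preconnected_of_eventuallyEq_zero (isPreconnected_disc d) h₀ h hs

/-- `s ↦ val χ c (ω s j)` is analytic. -/
theorem analytic_val {d : ℕ} (M : Matrix (Fin n) (Fin n) ℚ) (c : Fin n → ℂ)
    {f : (Fin d → ℂ) → Fin n → ℂ} (hf : ∀ i, AnalyticOnNhd ℂ (fun s => f s i) (disc d)) :
    AnalyticOnNhd ℂ (fun s => val M c (f s)) (disc d) := by
  unfold val
  refine Finset.analyticOnNhd_fun_sum _ fun i _ => Finset.analyticOnNhd_fun_sum _ fun j _ => ?_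
  exact analyticOnNhd_const.mul (hf j)

end THS
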