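import Mathlib

/-!
# MP_298761_ag, THEOREM S: families with one fibre made of surfaces

`Data`: the admissible subcategories `D` of `D_perf(Y)`, `Y` smooth and proper over `ℂ`, their
rational vector spaces `V(D) = K₀ᵗᵒᵖ(D) ⊗ ℚ` with Euler form, Hodge classes and algebraic classes,
the families `C/S` of the problem, and families over polydiscs. `Facts`: the published facts on
them which are used. A basis identifies `V(D)` with `ℚⁿ`.
-/

set_option autoImplicit false

namespace THS

open Filter Topology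

/-- The value `xᵗ M y` of a rational bilinear form at complex vectors. -/
def val {n : ℕ} (M : Matrix (Fin n) (Fin n) ℚ) (x y : Fin n → ℂ) : ℂ :=
  ∑ i, ∑ j, x i * (M i j : ℂ) * y j

/-- The value at real vectors. -/
def valR {n : ℕ} (M : Matrix (Fin n) (Fin n) ℚ) (x y : Fin n → ℝ) : ℝ :=
  ∑ i, ∑ j, x i * (M i j : ℝ) * y j

/-- The value at rational vectors. -/
def valQ {n : ℕ} (M : Matrix (Fin n) (Fin n) ℚ) (x y : Fin n → ℚ) : ℚ :=
  ∑ i, ∑ j, x i * M i j * y j

/-- A rational vector as a complex vector. -/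
def toC {n : ℕ} (v : Fin n → ℚ) : Fin n → ℂ := fun i => (v i : ℂ)

/-- Complex conjugation of vectors. -/
def conj {n : ℕ} (x : Fin n → ℂ) : Fin n → ℂ := fun i => (starRingEnd ℂ) (x i)

/-- The unit polydisc in `ℂᵈ`. -/
def disc (d : ℕ) : Set (Fin d → ℂ) := Metric.ball 0 1

/-- `V^{0,0}` for `F = F¹ = V^{1,-1}`: the vectors orthogonal to `F` and its conjugate. -/
def Mid {n : ℕ} (χ : Matrix (Fin n) (Fin n) ℚ) (F : Submodule ℂ (Fin n → ℂ)) (z : Fin n → ℂ) :
    Prop :=
  ∀ a ∈ F, val χ z a = 0 ∧ val χ z (conj a) = 0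

/-- The rational symmetric form `Q` polarises the Hodge structure. -/
structure Polarises {n : ℕ} (Q χ : Matrix (Fin n) (Fin n) ℚ) (F : Submodule ℂ (Fin n → ℂ)) :
    Prop where
  symm : Q.transpose = Q
  ff : ∀ a ∈ F, ∀ b ∈ F, val Q a b = 0
  fm : ∀ a ∈ F, ∀ z, Mid χ F z → val Q a z = 0
  neg : ∀ a ∈ F, a ≠ 0 → (val Q a (conj a)).re < 0
  pos : ∀ z, Mid χ F z → z ≠ 0 → 0 < (val Q z (conj z)).re

/-- `F = F¹` is a polarisable rational Hodge structure of weight `0` on `ℚⁿ` with types `(1,-1)`,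
`(0,0)`, `(-1,1)`, and the nondegenerate form `χ` is a morphism of Hodge structures. -/
structure IsHodge {n : ℕ} (χ : Matrix (Fin n) (Fin n) ℚ) (F : Submodule ℂ (Fin n → ℂ)) :
    Prop where
  nondeg : χ.det ≠ 0
  ff : ∀ a ∈ F, ∀ b ∈ F, val χ a b = 0
  sides : ∀ z, Mid χ F z → ∀ a ∈ F, val χ a z = 0 ∧ val χ (conj a) z = 0
  decomp : ∀ x : Fin n → ℂ, ∃ a ∈ F, ∃ b ∈ F, ∃ z, Mid χ F z ∧ x = a + z + conj b
  polar : ∃ Q, Polarises Q χ F

/-- `ω` is a holomorphic basis of `F¹` for a variation of polarisable Hodge structures on the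
polydisc. -/
structure IsVariation {n d g : ℕ} (χ : Matrix (Fin n) (Fin n) ℚ)
    (ω : (Fin d → ℂ) → Fin g → Fin n → ℂ) : Prop where
  holomorphic : ∀ j i, AnalyticOnNhd ℂ (fun s => ω s j i) (disc d)
  basis : ∀ s ∈ disc d, LinearIndependent ℂ (ω s)
  hodge : ∀ s ∈ disc d, IsHodge χ (Submodule.span ℂ (Set.range (ω s)))

/-- Categories, classes, families. -/
structure Data where
  /-- the admissible subcategories `D ⊂ D_perf(Y)`, `Y` smooth and proper over `ℂ` -/
  Cat : Type
  /-- `dim V(D)`, where `V(D) = K₀ᵗᵒᵖ(D) ⊗ ℚ = ℚⁿ` after the choice of a basis -/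
  dim : Cat → ℕ
  /-- the Euler form on `V(D)` -/
  chi : (D : Cat) → Matrix (Fin (dim D)) (Fin (dim D)) ℚ
  /-- the rational Hodge classes -/
  Hdg : (D : Cat) → Submodule ℚ (Fin (dim D) → ℚ)
  /-- the algebraic classes: the image of `K₀(D) ⊗ ℚ` -/
  Alg : (D : Cat) → Submodule ℚ (Fin (dim D) → ℚ)
  /-- `HH₂(D) ⊂ V(D) ⊗ ℂ` (used for categories with `HHᵢ(D) = 0` for `|i| > 2`) -/
  F1 : (D : Cat) → Submodule ℂ (Fin (dim D) → ℂ)
  /-- the objects -/
  Obj : Cat → Type
  /-- the class of an object -/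
  cl : {D : Cat} → Obj D → (Fin (dim D) → ℚ)
  /-- the dimension of `Ext²(E, E)` -/
  ext2 : {D : Cat} → Obj D → ℕ
  /-- `E` is semiregular: `Ext²(E, E) → HH₋₂(D)` is injective -/
  SemiReg : {D : Cat} → Obj D → Prop
  /-- `D` is equivalent to `D^b(Y, α)`, `Y` a smooth projective surface, `α ∈ Br(Y)` -/
  Surf : Cat → Prop
  /-- the families of the problem: a variety `S`, `X → S` smooth and proper, `C ⊂ D_perf(X)`
  `S`-linear and admissible -/
  Fam : Type
  /-- the points of `S(ℂ)` -/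
  Pt : Fam → Type
  /-- the fibre `C_s` -/
  fib : (F : Fam) → Pt F → Cat
  /-- `C_o` has a semiorthogonal decomposition with components equivalent to `D₁, …, D_k` which
  extends to an étale neighbourhood of `o` in `S`; if `X → S` is projective every semiorthogonal
  decomposition of `C_o` extends (Belmans-Okawa-Ricolfi) -/
  Sod : (F : Fam) → Pt F → {k : ℕ} → (Fin k → Cat) → Prop
  /-- the global sections of the local system `K₀ᵗᵒᵖ(C/S) ⊗ ℚ` -/
  Sec : (F : Fam) → Set ((s : Pt F) → Fin (dim (fib F s)) → ℚ)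
  /-- families over the polydisc of `ℂᵈ`: restrictions of families of the problem over smooth bases
  to a polydisc in the base -/
  Loc : ℕ → Type
  /-- their fibres -/
  cat : {d : ℕ} → Loc d → (Fin d → ℂ) → Cat
  /-- the flat transport from `V(C_0)` to `V(C_s)` -/
  tr : {d : ℕ} → (L : Loc d) → (s : Fin d → ℂ) →
    (Fin (dim (cat L 0)) → ℚ) →ₗ[ℚ] (Fin (dim (cat L s)) → ℚ)

namespace Data

variable {T : Data}

/-- `V(D)` -/
abbrev V (T : Data) (D : T.Cat) : Type := Fin (T.dim D) → ℚ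

/-- `v` is algebraic. -/
def alg {D : T.Cat} (v : T.V D) : Prop := v ∈ T.Alg D

/-- `v` is a rational Hodge class. -/
def hdg {D : T.Cat} (v : T.V D) : Prop := v ∈ T.Hdg D

/-- The Euler form. -/
def eul {D : T.Cat} (v w : T.V D) : ℚ := valQ (T.chi D) v w

/-- The value at `s` of the flat section `v` of the family `L`. -/
def at_ {d : ℕ} (L : T.Loc d) (v : T.V (T.cat L 0)) (s : Fin d → ℂ) : T.V (T.cat L s) :=
  T.tr L s v

/-- `D` is of kind (a): every rational Hodge class is a combination of classes of objects with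
`Ext²(E, E) = 0`. -/
def ExtFree (D : T.Cat) : Prop :=
  ∀ v : T.V D, hdg v → ∃ (m : ℕ) (q : Fin m → ℚ) (E : Fin m → T.Obj D),
    (∀ i, T.ext2 (E i) = 0) ∧ v = ∑ i, q i • T.cl (E i)

/-- the signature of the Mukai form `-χ` is `(4, *)` -/
def MukaiSignature (D : T.Cat) : Prop :=
  ∃ P N : Submodule ℝ (Fin (T.dim D) → ℝ), IsCompl P N ∧ Module.finrank ℝ P = 4 ∧
    (∀ x ∈ P, x ≠ 0 → valR (T.chi D) x x < 0) ∧ (∀ x ∈ N, x ≠ 0 → 0 < valR (T.chi D) x x)

/-- `v` is the class of a semiregular object. -/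
def Semi {D : T.Cat} (v : T.V D) : Prop := ∃ E : T.Obj D, T.SemiReg E ∧ T.cl E = v

/-- The facts on `D = D^b(Y, α)`, `Y` a `K3` surface or an abelian surface. -/
structure K3Facts (D : T.Cat) : Prop where
  /-- Serre duality -/
  symm : (T.chi D).transpose = T.chi D
  signature : MukaiSignature D
  /-- the holomorphic symplectic form -/
  form : ∃ σ, T.F1 D = Submodule.span ℂ {σ} ∧ (val (T.chi D) σ (conj σ)).re < 0
  /-- an ample class -/
  ample : ∃ h : T.V D, hdg h ∧ eul h h < 0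
  /-- Mukai, Yoshioka, Bayer-Macrì: the primitive integral class proportional to `v` is the class of
  a simple object -/
  simple : ∀ v : T.V D, hdg v → eul v v < 0 → ∃ q : ℚ, 0 < q ∧ Semi (q • v)

/-- O'Grady, Gieseker-Li, Lieblich: if the rank `χ(v, p)` is positive there are semiregular
torsion-free (twisted) sheaves with class `N v - M p` for all large `M`. -/
def Sheaves (D : T.Cat) (p : T.V D) : Prop :=
  ∀ v : T.V D, hdg v → 0 < eul v p → ∃ N : ℕ, 0 < N ∧ ∃ M₀ : ℤ, ∀ M ≥ M₀, Semi (N • v - M • p)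

/-- The facts on `D = D^b(Y, α)`, `Y` a smooth projective surface; `p` is the class of a point, `K`
the tensor product with the canonical bundle `K_Y`. -/
structure SurfaceFacts (D : T.Cat) (p : T.V D) (K : T.V D → T.V D) : Prop where
  point : hdg p
  point_ne : p ≠ 0
  linear : IsLinearMap ℚ K
  /-- Serre duality -/
  serre : ∀ x y, eul x y = eul y (K x)
  /-- `x K_Y - x` is a combination of `K_Y` and `p` -/
  canonical : ∀ x, hdg (K x - x)
  sheaves : Sheaves D p
  /-- `p_g = 0`, or `K_Y` is not numerically trivial, or `Y` is `K3` or abelian -/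
  kinds : (∀ x : T.V D, hdg x) ∨ (∃ x, K x - x = p) ∨ K3Facts D

/-- A polydisc in (a resolution of) the base `S` and over it a decomposition into `k` families. -/
structure Near (F : T.Fam) (k : ℕ) where
  /-- the dimension -/
  d : ℕ
  /-- the polydisc in `S` -/
  c : (Fin d → ℂ) → T.Pt F
  /-- the components -/
  L : Fin k → T.Loc d
  /-- the projections of `V(C_s)` to the components -/
  pr : (s : Fin d → ℂ) → (i : Fin k) → T.V (T.fib F (c s)) → T.V (T.cat (L i) s)

/-- A class with algebraic components is algebraic. -/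
def Near.AlgOK {F : T.Fam} {k : ℕ} (A : Near F k) : Prop :=
  ∀ s ∈ disc A.d, ∀ v, (∀ i, alg (A.pr s i v)) → alg v

/-- The components of a Hodge class are Hodge classes. -/
def Near.HdgOK {F : T.Fam} {k : ℕ} (A : Near F k) : Prop :=
  ∀ s ∈ disc A.d, ∀ v, hdg v → ∀ i, hdg (A.pr s i v)

/-- The components of a flat section are flat. -/
def Near.FlatOK {F : T.Fam} {k : ℕ} (A : Near F k) : Prop :=
  ∀ φ ∈ T.Sec F, ∀ s ∈ disc A.d, ∀ i, A.pr s i (φ (A.c s)) = at_ (A.L i) (A.pr 0 i (φ (A.c 0))) s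

/-- A global section which is algebraic near the centre is algebraic everywhere (the set where it is
algebraic is a countable union of closed algebraic subsets of `S`). -/
def Near.LocusOK {F : T.Fam} {k : ℕ} (A : Near F k) : Prop :=
  ∀ φ ∈ T.Sec F, (∀ᶠ s in 𝓝 0, alg (φ (A.c s))) → ∀ t, alg (φ t)

/-- A semiorthogonal decomposition of `C_o` spreads out over a polydisc around `o`. -/
def Spreads (F : T.Fam) (o : T.Pt F) {k : ℕ} (D : Fin k → T.Cat) : Prop :=
  ∃ A : Near F k, A.c 0 = o ∧ (∀ i, T.cat (A.L i) 0 = D i) ∧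
    A.AlgOK ∧ A.HdgOK ∧ A.FlatOK ∧ A.LocusOK

/-- `v` is algebraic near `0`. -/
def algNear {d : ℕ} (L : T.Loc d) (v : T.V (T.cat L 0)) : Prop := ∀ᶠ s in 𝓝 0, alg (at_ L v s)

/-- `v` is a Hodge class on the polydisc. -/
def hdgOn {d : ℕ} (L : T.Loc d) (v : T.V (T.cat L 0)) : Prop := ∀ s ∈ disc d, hdg (at_ L v s)

/-- The variation of Hodge structures near a fibre `D^b(Y, α)`. -/
def Period {d : ℕ} (L : T.Loc d) : Prop :=
  ∃ (g : ℕ) (ω : (Fin d → ℂ) → Fin g → Fin (T.dim (T.cat L 0)) → ℂ),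
    IsVariation (T.chi (T.cat L 0)) ω ∧ T.F1 (T.cat L 0) = Submodule.span ℂ (Set.range (ω 0)) ∧
    ∀ s ∈ disc d, ∀ v, hdg (at_ L v s) ↔ ∀ j, val (T.chi (T.cat L 0)) (toC v) (ω s j) = 0

/-- The published facts which are used. -/
structure Facts (T : Data) : Prop where
  /-- algebraic classes are Hodge classes -/
  algebraic_hodge : ∀ (D : T.Cat) (v : T.V D), alg v → hdg v
  /-- a global section which is Hodge at one point is Hodge everywhere -/
  hodge_everywhere : ∀ (F : T.Fam), ∀ φ ∈ T.Sec F, ∀ o s, hdg (φ o) → hdg (φ s)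
  /-- an étale neighbourhood of `o` contains a polydisc -/
  spread : ∀ (F : T.Fam) (o : T.Pt F) (k : ℕ) (D : Fin k → T.Cat), T.Sod F o D → Spreads F o D
  /-- objects with `Ext²(E, E) = 0` deform (Lieblich, Toën-Vaquié) -/
  deform : ∀ (d : ℕ) (L : T.Loc d) (E : T.Obj (T.cat L 0)), T.ext2 E = 0 → algNear L (T.cl E)
  /-- semiregular objects whose class stays Hodge deform (Buchweitz-Flenner, Pridham) -/
  semiregular : ∀ (d : ℕ) (L : T.Loc d) (v : T.V (T.cat L 0)), Semi v → hdgOn L v → algNear L v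
  period : ∀ (d : ℕ) (L : T.Loc d), T.Surf (T.cat L 0) → Period L
  /-- the transport from `0` to `0` is the identity -/
  at_zero : ∀ (d : ℕ) (L : T.Loc d) (v : T.V (T.cat L 0)), at_ L v 0 = v
  surface : ∀ D, T.Surf D → ∃ p K, SurfaceFacts D p K

end Data

end THS
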