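import Pool.Agent.Work.MP_298761_ths.Basic

/-!
# THEOREM S for MP_298761_ag: the blocks

`b`, `χ`, `Q` are rational matrices, `val`, `valR`, `valQ` their values at complex, real, rational
vectors (lemmas in `Basic`). Paper proof: note 3415.
-/

set_option autoImplicit false

namespace THS

open Filter Topology Polynomial Data

/-- BAI (60 lines). Baire and identity theorem. The subspace `disc d` is open in a locally compact
space, hence a Baire space (`BaireSpace` instance for locally compact `T2` spaces, or use a complete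
metric). For each `i` the set `Z i = {s ∈ disc d | ∀ k, f i k s = 0}` is closed in `disc d`
(continuity), the union of the `Z i` is everything, so some `Z i` has an interior point
(`nonempty_interior_of_iUnion_of_closed`); `f i k` vanishes near it, hence on `disc d` by lemma
`idt` of Basic. (`ι` is nonempty because `0 ∈ disc d`.) -/
def Stmt_BAI : Prop := ∀ (d : ℕ) (ι : Type) (κ : ι → Type) (f : (i : ι) → κ i → (Fin d → ℂ) → ℂ),
  Countable ι → (∀ i k, AnalyticOnNhd ℂ (f i k) (disc d)) →
  (∀ s ∈ disc d, ∃ i, ∀ k, f i k s = 0) → ∃ i, ∀ s ∈ disc d, ∀ k, f i k s = 0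

/-- KEY (120 lines). Let `Q` polarise. `Q` is nondegenerate over `ℂ`: if `val Q x y = 0` for all `y`,
write `x = a + z + conj c`; testing with `y = conj a`, `y = conj z`, `y = c` gives
`val Q a (conj a) = 0`, `val Q z (conj z) = 0`, `val Q (conj c) c = 0` (use `fm`, `ff`, symmetry,
`val_conj`, `Mid.conj`), so `a = z = c = 0`. Hence `Q.det ≠ 0`, and there is a rational `u` with
`valQ Q u v = valQ χ v p` for all rational `v`, so (bilinearity, or `val_eq_dot`)
`val Q (toC u) y = val χ y (toC p)` for all complex `y`. `toC p` is `Mid`, so by `sides` the right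
side vanishes for `y ∈ F` and `y = conj a`. Write `toC u = a + z + conj c`: testing with `c` gives
`val Q (conj c) c = 0`, so `c = 0`; testing with `conj a` gives `a = 0`. So `toC u = z` is `Mid`, and
`valQ χ u p = valQ Q u u = (val Q z (conj z)).re > 0` because `u ≠ 0` (otherwise `p = 0` as `χ` is
nondegenerate) and `conj z = z`. -/
def Stmt_KEY : Prop := ∀ (n : ℕ) (χ : Matrix (Fin n) (Fin n) ℚ) (F : Submodule ℂ (Fin n → ℂ)),
  IsHodge χ F → ∀ p : Fin n → ℚ, p ≠ 0 → (∀ a ∈ F, val χ (toC p) a = 0) →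
  ∃ u : Fin n → ℚ, (∀ a ∈ F, val χ (toC u) a = 0) ∧ 0 < valQ χ u p

/-- MPP (100 lines). `C` respects the decomposition. (i) A vector `x` with `val χ y x = 0` for all
`y ∈ F` and all `Mid` vectors `y` is in `F`: write `x = a + z + conj c`; then `x' = x - a` has
`val χ y x' = 0` for `y ∈ F`, `y` `Mid` and `y ∈ conj F`, hence for all `y`
(`decomp`), so `x' = 0` by `eq_zero_of_right`. Similarly (ii) if `val χ y x = 0` for `y ∈ F` and
`y ∈ conj F` then `x` is `Mid` (show `a = 0` and `conj c = 0`: `a` is orthogonal from the right to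
`F`, `Mid`, and to `conj F` because `x` is), and (iii) if `val χ y x = 0` for `y ∈ conj F` and `y`
`Mid` then `x ∈ conj F`. Apply (i) to `C a`, `a ∈ F`: for `y ∈ F` or `y` `Mid` both terms of
`val χ a y - val χ y a` vanish (`ff`, `sides`, definition of `Mid`). Same for the other two. -/
def Stmt_MPP : Prop := ∀ (n : ℕ) (χ : Matrix (Fin n) (Fin n) ℚ) (F : Submodule ℂ (Fin n → ℂ)),
  IsHodge χ F → ∀ C : (Fin n → ℂ) →ₗ[ℂ] (Fin n → ℂ),
  (∀ x y, val χ y (C x) = val χ x y - val χ y x) →
  (∀ a ∈ F, C a ∈ F) ∧ (∀ z, Mid χ F z → Mid χ F (C z)) ∧ (∀ a ∈ F, ∃ c ∈ F, C (conj a) = conj c)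

/-- SER (150 lines; uses MPP). `C := K - 1`, extended to a complex linear map with
`C (toC x) = toC (K x - x)` (matrix of `K - 1`); `conj (C x) = C (conj x)`; for all complex `x`, `y`
`val χ y (C x) = val χ x y - val χ y x` (rational vectors span, `serre`). `M := range C`.
At `s = 0` every element of `M` is `Mid` (it is a combination of vectors `toC (K x - x)`, which are
real and orthogonal to `F_0`), and `M ∩ F_0 = 0` because `Mid ∩ F = 0` (an element `a` of both has
`val Q a (conj a) = 0` for the polarisation by `fm` with `conj a` `Mid`). Take a basis `c` of `M`: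
the family `Sum.elim c (ω s)` is linearly independent for `s = 0`, and depends continuously on `s`,
so it is linearly independent for `s` near `0` (`isOpen_setOf_linearIndependent`), so
`M ∩ F_s = 0` near `0`. For such `s ∈ disc d` and `x = a + z + conj e`: `C a ∈ F_s ∩ M = 0`,
`C (conj e) = conj (C e) = 0`, so `C x = C z` is `Mid`; so the analytic function
`s ↦ val χ (toC (K x - x)) (ω s j)` vanishes near `0`, hence on `disc d` (`idt`). -/
def Stmt_SER : Prop := ∀ (n d g : ℕ) (χ : Matrix (Fin n) (Fin n) ℚ)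
  (ω : (Fin d → ℂ) → Fin g → Fin n → ℂ), IsVariation χ ω →
  ∀ K : (Fin n → ℚ) →ₗ[ℚ] (Fin n → ℚ), (∀ x y, valQ χ x y = valQ χ y (K x)) →
  (∀ x j, val χ (toC (K x - x)) (ω 0 j) = 0) →
  ∀ x, ∀ s ∈ disc d, ∀ j, val χ (toC (K x - x)) (ω s j) = 0

/-- RKU (40 lines; uses BAI, KEY). Apply BAI to `ι = {u : Fin n → ℚ // 0 < valQ χ u p}`,
`f u j s = val χ (toC u) (ω s j)` (analytic: a finite sum of constants times `ω s j i`); at each `s`
use KEY for `F = span (range (ω s))`. -/
def Stmt_RKU : Prop := ∀ (n d g : ℕ) (χ : Matrix (Fin n) (Fin n) ℚ)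
  (ω : (Fin d → ℂ) → Fin g → Fin n → ℂ), IsVariation χ ω → ∀ p : Fin n → ℚ, p ≠ 0 →
  (∀ s ∈ disc d, ∀ j, val χ (toC p) (ω s j) = 0) →
  ∃ u, 0 < valQ χ u p ∧ ∀ s ∈ disc d, ∀ j, val χ (toC u) (ω s j) = 0

/-- RNK (80 lines). Rank of a rational matrix pencil at two conjugate numbers. For a field
homomorphism `f : K → L` the rank of `M.map f` is the rank of `M` (write `M` as invertible times
diagonal times invertible, `Matrix.Pivot.exists_list_transvec_mul_diagonal_mul_list_transvec`, and
`Matrix.rank_diagonal`; or use minors). Apply it to `K = ℚ⟮a⟯` (or `AdjoinRoot (minpoly ℚ a)`), its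
embedding in `ℂ` and the embedding sending the generator to `a'`, and `M = A - a`. -/
def Stmt_RNK : Prop := ∀ (n : ℕ) (A : Matrix (Fin n) (Fin n) ℚ) (a a' : ℂ), IsIntegral ℚ a →
  aeval a' (minpoly ℚ a) = 0 →
  ((A.map (Rat.castHom ℂ)) - Matrix.scalar (Fin n) a).rank =
    ((A.map (Rat.castHom ℂ)) - Matrix.scalar (Fin n) a').rank

/-- RAY (90 lines). Rayleigh quotient. The set `{x ∈ R | valR Q x x = 1}` is compact (closed; it is
bounded because `valR Q` is positive on the compact unit sphere of `R`) and not empty; let `x` be a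
maximum of `valR b x x` on it and `m` the value; `m > 0` by scaling the given vector. For `y ∈ R` and
all real `t`: `valR b (x + t y) (x + t y) ≤ m * valR Q (x + t y) (x + t y)` (scaling), so the linear
term in `t` of the difference vanishes. -/
def Stmt_RAY : Prop := ∀ (n : ℕ) (b Q : Matrix (Fin n) (Fin n) ℚ) (R : Submodule ℝ (Fin n → ℝ)),
  b.transpose = b → Q.transpose = Q → (∀ x ∈ R, x ≠ 0 → 0 < valR Q x x) →
  (∃ x ∈ R, 0 < valR b x x) →
  ∃ m : ℝ, 0 < m ∧ ∃ x ∈ R, 0 < valR b x x ∧ ∀ y ∈ R, valR b x y = m * valR Q x y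

/-- The signature of `b` is `(4, *)`. -/
def Sig4 {n : ℕ} (b : Matrix (Fin n) (Fin n) ℚ) : Prop :=
  ∃ P N : Submodule ℝ (Fin n → ℝ), IsCompl P N ∧ Module.finrank ℝ P = 4 ∧
    (∀ x ∈ P, x ≠ 0 → 0 < valR b x x) ∧ (∀ x ∈ N, x ≠ 0 → valR b x x < 0)

/-- A real vector as a complex vector. -/
def rToC {n : ℕ} (x : Fin n → ℝ) : Fin n → ℂ := fun i => (x i : ℂ)

/-- The situation at the point `s₁`: `σ` is an isotropic vector, positive for the hermitian form of
`b`, an eigenvector of the pencil `(Q, b)` with eigenvalue `l`, and `Q` is a polarisation. -/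
structure Pencil {n : ℕ} (b Q : Matrix (Fin n) (Fin n) ℚ) (l : ℂ) (σ : Fin n → ℂ) : Prop where
  bsymm : b.transpose = b
  qsymm : Q.transpose = Q
  nondeg : b.det ≠ 0
  sig : Sig4 b
  iso : val b σ σ = 0
  bpos : 0 < (val b σ (conj σ)).re
  qneg : (val Q σ (conj σ)).re < 0
  qpos : ∀ x : Fin n → ℝ, x ≠ 0 → val b (rToC x) σ = 0 → 0 < valR Q x x
  eig : ∀ y, val Q y σ = l * val b y σ

/-- LNE (30 lines). `val b σ (conj σ)` is real (it is its own conjugate by symmetry) and
`val Q σ (conj σ) = val Q (conj σ) σ = l * val b (conj σ) σ`, so `l` is real and negative. -/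
def Stmt_LNE : Prop := ∀ (n : ℕ) (b Q : Matrix (Fin n) (Fin n) ℚ) (l : ℂ) (σ : Fin n → ℂ),
  Pencil b Q l σ → ∃ r : ℝ, r < 0 ∧ l = (r : ℂ)

/-- EIG (120 lines; uses RAY, LNE). Let `R` be the real vectors `x` with `val b (rToC x) σ = 0`, the
kernel of a real linear map to `ℝ²`; `P` of `Sig4` has dimension `4`, so `P ∩ R ≠ 0` and RAY applies:
`m`, `x`. Every real vector is `y = y' + Re (t • σ)` with `y' ∈ R` and `t` complex (choose `t` with
`val b (rToC y) σ = val b (rToC (Re (t • σ))) σ`, possible because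
`val b (Re (t • σ)) σ = (conj t) * val b (conj σ) σ / 2`), and both forms vanish at
`(x, Re (t • σ))`: `val b (rToC x) σ = 0`, and `val Q (rToC x) σ = l * val b (rToC x) σ = 0`. So
`valR b x y = m * valR Q x y` for all real `y`; take `a = 1 / m`. -/
def Stmt_EIG : Prop := ∀ (n : ℕ) (b Q : Matrix (Fin n) (Fin n) ℚ) (l : ℂ) (σ : Fin n → ℂ),
  Pencil b Q l σ → ∃ a : ℝ, 0 < a ∧ ∃ x : Fin n → ℝ, 0 < valR b x x ∧
    ∀ y, valR Q x y = a * valR b x y

/-- DEN (70 lines). Let `A = b⁻¹ Q` and `B = q(A)` (rational matrix). `valR Q x y = a * valR b x y`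
for all `y` gives `A x = a x` over `ℝ` (symmetry of `b`, `Q`), so `B x = q(a) x` with `q(a) ≠ 0`, and
for `x' = x / q(a)`: `valR b (B x') (B x') = valR b x x > 0`. The function
`v ↦ valR b (B v) (B v)` is continuous and rational vectors are dense in `ℝⁿ`, so it is positive at a
rational vector. -/
def Stmt_DEN : Prop := ∀ (n : ℕ) (b Q : Matrix (Fin n) (Fin n) ℚ), b.transpose = b →
  Q.transpose = Q → b.det ≠ 0 → ∀ (a : ℝ) (x : Fin n → ℝ), 0 < valR b x x →
  (∀ y, valR Q x y = a * valR b x y) → ∀ q : ℚ[X], aeval a q ≠ 0 →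
  ∃ v : Fin n → ℚ, 0 < valQ b ((aeval (b⁻¹ * Q) q : Matrix (Fin n) (Fin n) ℚ).mulVec v)
    ((aeval (b⁻¹ * Q) q : Matrix (Fin n) (Fin n) ℚ).mulVec v)

/-- ORT (50 lines). `A = b⁻¹ Q`; `val b (A y) τ = val Q y τ = l * val b y τ` (symmetry), so
`val b (q(A) y) τ = q(l) * val b y τ` for every polynomial `q` (induction), which is `0` for the
minimal polynomial of `l`. -/
def Stmt_ORT : Prop := ∀ (n : ℕ) (b Q : Matrix (Fin n) (Fin n) ℚ), b.transpose = b →
  Q.transpose = Q → b.det ≠ 0 → ∀ (l : ℂ) (τ : Fin n → ℂ), (∀ y, val Q y τ = l * val b y τ) →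
  ∀ v : Fin n → ℚ, val b (toC ((aeval (b⁻¹ * Q) (minpoly ℚ l) :
    Matrix (Fin n) (Fin n) ℚ).mulVec v)) τ = 0

/-- DIM (130 lines; uses LNE). The complex kernel `E` of `A - a`, `A = b⁻¹ Q`, is closed under `conj`
(`a` real), so it is spanned by real vectors and its dimension is that of the real kernel `E_ℝ`. A
real `z ∈ E_ℝ`: `val Q (rToC z) σ = a * val b (rToC z) σ` and `= l * val b (rToC z) σ` with
`l < 0 < a`, so `val b (rToC z) σ = 0` and, if `z ≠ 0`, `0 < valR Q z z = a * valR b z z`. So `b` is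
positive definite on the real subspace `E_ℝ + ⟨Re σ, Im σ⟩` of dimension `dim E_ℝ + 2` (orthogonal
sum; on the plane by `iso` and `bpos`), which therefore meets `N` of `Sig4` in `0` and has dimension
at most `4`. -/
def Stmt_DIM : Prop := ∀ (n : ℕ) (b Q : Matrix (Fin n) (Fin n) ℚ) (l : ℂ) (σ : Fin n → ℂ),
  Pencil b Q l σ → ∀ a : ℝ, 0 < a →
  n ≤ (((b⁻¹ * Q).map (Rat.castHom ℂ)) - Matrix.scalar (Fin n) (a : ℂ)).rank + 2

/-- TWO (80 lines; uses RNK, DIM, LNE, EIG, DEN). If no rational vector `q(A) v`, `q = minpoly ℚ l`,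
has positive square, then by EIG and DEN `q(a) = 0` for the `a > 0` of EIG (`l` is algebraic: it is a
root of the characteristic polynomial of `A`), so by RNK and DIM the kernel of `A - l` has dimension
at most `2`; it contains `σ` and `conj σ` (`l` is real), which are independent (`iso`, `bpos`). So
every `τ` with `val Q y τ = l * val b y τ` for all `y` is `t • σ + u • conj σ`; if `val b τ τ = 0`
then `2 t u val b σ (conj σ) = 0`, so `t = 0` or `u = 0`. -/
def Stmt_TWO : Prop := ∀ (n : ℕ) (b Q : Matrix (Fin n) (Fin n) ℚ) (l : ℂ) (σ : Fin n → ℂ),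
  Pencil b Q l σ →
  (∃ v : Fin n → ℚ, 0 < valQ b
    ((aeval (b⁻¹ * Q) (minpoly ℚ l) : Matrix (Fin n) (Fin n) ℚ).mulVec v)
    ((aeval (b⁻¹ * Q) (minpoly ℚ l) : Matrix (Fin n) (Fin n) ℚ).mulVec v)) ∨
  ∀ τ, (∀ y, val Q y τ = l * val b y τ) → val b τ τ = 0 →
    ∃ t : ℂ, τ = t • σ ∨ τ = t • conj σ

/-- PSN (50 lines). The real continuous function `s ↦ (val b (σ s) (conj (σ s))).re` does not vanish
on the connected set `disc d`: at `s` put `F = span {σ s}`; if it vanished then (it is real by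
symmetry) `val χ (σ s) (conj (σ s)) = 0` and `σ s` would be orthogonal from the left to `F`, to
`conj F` and to all `Mid` vectors (`sides`), hence to everything (`decomp`), so `σ s = 0`, against
linear independence. So it keeps the sign of its value at `0`. -/
def Stmt_PSN : Prop := ∀ (n d : ℕ) (χ : Matrix (Fin n) (Fin n) ℚ)
  (ω : (Fin d → ℂ) → Fin 1 → Fin n → ℂ), IsVariation χ ω → χ.transpose = χ →
  (val χ (ω 0 0) (conj (ω 0 0))).re < 0 → ∀ s ∈ disc d, (val χ (ω s 0) (conj (ω s 0))).re < 0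

/-- PEN (120 lines; uses BAI, PSN). With `b = -χ`. At each `s` the polarisation `Q` satisfies
`val Q (ω s 0) z = 0` for every `z` with `val b (ω s 0) z = 0` (write `z = a + z' + conj c`, the
pairing `val b (ω s 0) (conj c)` is a nonzero multiple if `c ≠ 0`), so
`val Q y (ω s 0) = l * val b y (ω s 0)` for a complex `l` and all `y`; `l` is a root of the
polynomial `det (Q - X b) ≠ 0` over `ℚ`, so algebraic. Apply BAI to the countable type of pairs
`(Q, l)`, `l` algebraic (`Algebraic.countable`), for which `Q` polarises at some point of `disc d`,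
and the functions `val Q e_i (ω s 0) - l * val b e_i (ω s 0)`, `e_i` the standard basis. At the point
`s₁` where `Q` polarises all fields of `Pencil` hold (`qpos`: a real vector orthogonal to `σ` is
`Mid`). -/
def Stmt_PEN : Prop := ∀ (n d : ℕ) (χ : Matrix (Fin n) (Fin n) ℚ)
  (ω : (Fin d → ℂ) → Fin 1 → Fin n → ℂ), IsVariation χ ω → χ.transpose = χ → Sig4 (-χ) →
  (val χ (ω 0 0) (conj (ω 0 0))).re < 0 →
  ∃ (Q : Matrix (Fin n) (Fin n) ℚ) (l : ℂ), ∃ s₁ ∈ disc d, Pencil (-χ) Q l (ω s₁ 0) ∧
    ∀ s ∈ disc d, ∀ y, val Q y (ω s 0) = l * val (-χ) y (ω s 0)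

/-- POS (60 lines; uses PEN, TWO, ORT). Take `(Q, l, s₁)` of PEN, `b = -χ`. In the first case of TWO
`w = q(A) v` is orthogonal to all `ω s 0` by ORT (symmetry) and has positive square. In the second
case each `ω s 0` is a multiple of `ω s₁ 0` or of its conjugate, by a nonzero number; so the rational
vector `h`, orthogonal to `ω 0 0`, is orthogonal to `ω s₁ 0` (conjugate if necessary) and to all
`ω s 0`: take `w = h`. -/
def Stmt_POS : Prop := ∀ (n d : ℕ) (χ : Matrix (Fin n) (Fin n) ℚ)
  (ω : (Fin d → ℂ) → Fin 1 → Fin n → ℂ), IsVariation χ ω → χ.transpose = χ → Sig4 (-χ) →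
  (val χ (ω 0 0) (conj (ω 0 0))).re < 0 →
  ∀ h : Fin n → ℚ, valQ χ h h < 0 → val χ (toC h) (ω 0 0) = 0 →
  ∃ w : Fin n → ℚ, valQ χ w w < 0 ∧ ∀ s ∈ disc d, val χ (toC w) (ω s 0) = 0

/-- LSU (150 lines; uses SER, RKU). Steps 1-4 of note 3415: `p_g = 0` or `K_Y` not numerically
trivial. `algNear L` is closed under rational combinations (`at_ L` is linear in `v`, `Alg` is a
subspace), and so is `hdgOn L`; a class which is `Semi` and `hdgOn` is `algNear` (`semiregular`).
First: `hdgOn L p` and there is `u` with `hdgOn L u` and `0 < eul u p`. (1) If every `x` is Hodge at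
`0`, then by `Period` at `s = 0` and nondegeneracy (`eq_zero_of_right`, rational vectors span)
`ω 0 j = 0` for every `j`, so `g = 0` by linear independence and every class is `hdgOn`; `u` exists
because `χ` is nondegenerate and `p ≠ 0`. (2) If `p = K x - x`: `canonical`, `at_zero` and `Period`
at `0` give the hypothesis of SER (linear map `linear.mk' K`), so `hdgOn L p`, and RKU gives `u`.
Then for `v` with `hdgOn L v` choose a natural number `m` with `0 < eul (v + m • u) p`; apply
`sheaves` to `v + m • u` (with `M = M₀`) and to `u` (with `M = M₀` and `M = M₀ + 1`): three classes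
which are `Semi` and `hdgOn`, so `algNear`; the difference of the last two is `p`; so `p`, `u`
(divide by `N > 0`), `v + m • u` and `v` are `algNear`. -/
def Stmt_LSU : Prop := ∀ (T : Data), T.Facts → ∀ (d : ℕ) (L : T.Loc d), T.Surf (T.cat L 0) →
  ∀ p K, SurfaceFacts (T.cat L 0) p K →
  ((∀ x : T.V (T.cat L 0), hdg x) ∨ (∃ x, K x - x = p)) →
  ∀ v : T.V (T.cat L 0), hdgOn L v → algNear L v

/-- LK3 (120 lines; uses POS). Step 5 of note 3415. `form` and `Period` at `0`: the span of `ω 0` is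
the line of `σ`, so `g = 1` (linear independence; then `subst` and work with `Fin 1`) and
`ω 0 0 = t • σ`, `t ≠ 0`, so `(val χ (ω 0 0) (conj (ω 0 0))).re < 0`. `MukaiSignature` is `Sig4 (-χ)`.
POS with `h` of `ample` gives `w₀`, `hdgOn`, of negative `χ`-square. For `v` `hdgOn` and a large
natural number `m` also `v + m • w₀` has negative `χ`-square; `simple` for `w₀` and `v + m • w₀`,
`at_zero` and `semiregular` give `algNear` of positive multiples of `w₀` and `v + m • w₀`, hence of
`v`. -/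
def Stmt_LK3 : Prop := ∀ (T : Data), T.Facts → ∀ (d : ℕ) (L : T.Loc d), T.Surf (T.cat L 0) →
  K3Facts (T.cat L 0) → ∀ v : T.V (T.cat L 0), hdgOn L v → algNear L v

/-- LEX (30 lines). Kind (a): `v` is Hodge at `0` (`at_zero`), so it is a combination of classes of
objects with `Ext² = 0`; `deform`. -/
def Stmt_LEX : Prop := ∀ (T : Data), T.Facts → ∀ (d : ℕ) (L : T.Loc d), ExtFree (T.cat L 0) →
  ∀ v : T.V (T.cat L 0), hdgOn L v → algNear L v

/-- THS (60 lines; uses LSU, LK3, LEX). `spread`, `hodge_everywhere`; `subst o`; the components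
`A.pr 0 i (φ (A.c 0))` are `hdgOn` by `FlatOK`, `HdgOK`, so `algNear`; finitely many of them
(`Filter.eventually_all`), and `disc d` is a neighbourhood of `0`; `AlgOK`, `LocusOK`. The second
part follows with `algebraic_hodge`, `hodge_everywhere`. -/
def Stmt_THS : Prop := ∀ (T : Data), T.Facts → ∀ (F : T.Fam) (o : T.Pt F) (k : ℕ)
  (D : Fin k → T.Cat), T.Sod F o D → (∀ i, ExtFree (D i) ∨ T.Surf (D i)) →
  ∀ φ ∈ T.Sec F, (hdg (φ o) → ∀ s, alg (φ s)) ∧ ((∃ s, alg (φ s)) → ∀ s, alg (φ s))

end THS
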