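import Pool.Agent.Work.MP_298761_ths.Basic

/-!
# The cohomology of a smooth projective surface and its twisted Mukai Hodge structure

`V = H⁰ ⊕ H² ⊕ H⁴ = ℚ^{m+2}`, coordinates `(r, c, s)` (rank, first Chern class, second Chern
character).
-/

set_option autoImplicit false

namespace THS

/-- A real vector as a complex vector. -/
def ofR {n : ℕ} (x : Fin n → ℝ) : Fin n → ℂ := fun i => (x i : ℂ)

/-- The vector `(r, c, s)`. -/
def vec {R : Type} {m : ℕ} (r : R) (c : Fin m → R) (s : R) : Fin (m + 2) → R :=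
  Fin.cons r (Fin.snoc c s : Fin (m + 1) → R)

/-- The component in `H²`. -/
def mid {R : Type} {m : ℕ} (x : Fin (m + 2) → R) : Fin m → R := fun i => x i.castSucc.succ

/-- The rational cohomology of a smooth projective surface `Y` over `ℂ`, and a Brauer class. -/
structure Surface where
  /-- the second Betti number; a basis identifies `H²(Y, ℚ)` with `ℚᵐ` -/
  m : ℕ
  /-- the intersection form on `H²(Y, ℚ)` -/
  cup : Matrix (Fin m) (Fin m) ℚ
  /-- the geometric genus -/
  p : ℕ
  /-- a basis of `H^{2,0}(Y)` -/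
  η : Fin p → Fin m → ℂ
  /-- the canonical class -/
  K : Fin m → ℚ
  /-- an ample class -/
  h : Fin m → ℚ
  /-- a rational `B`-field for the Brauer class (`0` if there is none; since `exp(B)` is a rational
  isometry `B = 0` is the general case) -/
  B : Fin m → ℚ
  /-- `χ(𝒪_Y)` -/
  e : ℚ
  symm : cup.transpose = cup
  nondeg : cup.det ≠ 0
  indep : LinearIndependent ℂ η
  isotropic : ∀ i j, val cup (η i) (η j) = 0
  canonical : ∀ j, val cup (toC K) (η j) = 0
  ample : ∀ j, val cup (toC h) (η j) = 0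
  /-- Hodge-Riemann relations and Hodge index theorem -/
  positive : ∀ a ∈ Submodule.span ℂ (Set.range η), a ≠ 0 → 0 < (val cup a (conj a)).re
  square : 0 < valQ cup h h
  index : ∀ x : Fin m → ℝ, x ≠ 0 → val cup (toC h) (ofR x) = 0 →
    (∀ j, val cup (ofR x) (η j) = 0) → valR cup x x < 0
  /-- a 2-form on a surface with numerically trivial canonical class has no zeros -/
  trivial : K = 0 → p ≤ 1

namespace Surface

variable (Y : Surface)

/-- The Euler form of Riemann-Roch,
`χ((r,c,s),(r',c',s')) = r s' + s r' - c·c' - ½ K·(r c' - r' c) + χ(𝒪_Y) r r'`, at basis vectors. -/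
def euler : Matrix (Fin (Y.m + 2)) (Fin (Y.m + 2)) ℚ := Matrix.of fun a b =>
  let x : Fin (Y.m + 2) → ℚ := Pi.single a 1
  let y : Fin (Y.m + 2) → ℚ := Pi.single b 1
  x 0 * y (Fin.last _) + x (Fin.last _) * y 0 - valQ Y.cup (mid x) (mid y)
    - (x 0 * valQ Y.cup Y.K (mid y) - y 0 * valQ Y.cup Y.K (mid x)) / 2 + Y.e * x 0 * y 0

/-- `F¹ = V^{1,-1}`, spanned by `exp(B) η = (0, η, B·η)`. -/
def F1 : Submodule ℂ (Fin (Y.m + 2) → ℂ) :=
  Submodule.span ℂ (Set.range fun j => vec 0 (Y.η j) (val Y.cup (toC Y.B) (Y.η j)))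

/-- The class of a point. -/
def point : Fin (Y.m + 2) → ℚ := vec 0 0 1

end Surface

/-- `v` is a Hodge class on the whole polydisc. -/
def Flat {n d g : ℕ} (χ : Matrix (Fin n) (Fin n) ℚ) (ω : (Fin d → ℂ) → Fin g → Fin n → ℂ)
    (v : Fin n → ℚ) : Prop :=
  ∀ s ∈ disc d, ∀ j, val χ (toC v) (ω s j) = 0

end THS
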