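import Pool.Agent.Work.MP_298761_ths.Interface
import Pool.Agent.Work.MP_298761_ths.Surface

/-!
# THEOREM S, unconditional form: the blocks on true surfaces
-/

set_option autoImplicit false

namespace THS

open Filter Topology

/-- EUL (90 lines). Both sides are bilinear (write the right side as a `LinearMap.mk₂`), a bilinear
map is determined by its values at basis vectors `Pi.single a 1`, `Pi.single b 1`, and there the
right side is the cast of the entry of `euler` (for `ℚ` it is the definition). -/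
def Stmt_EUL : Prop := ∀ Y : Surface,
  (∀ x y : Fin (Y.m + 2) → ℂ, val Y.euler x y =
    x 0 * y (Fin.last _) + x (Fin.last _) * y 0 - val Y.cup (mid x) (mid y)
      - (x 0 * val Y.cup (toC Y.K) (mid y) - y 0 * val Y.cup (toC Y.K) (mid x)) / 2
      + (Y.e : ℂ) * x 0 * y 0) ∧
  (∀ x y : Fin (Y.m + 2) → ℚ, valQ Y.euler x y =
    x 0 * y (Fin.last _) + x (Fin.last _) * y 0 - valQ Y.cup (mid x) (mid y)
      - (x 0 * valQ Y.cup Y.K (mid y) - y 0 * valQ Y.cup Y.K (mid x)) / 2 + Y.e * x 0 * y 0) ∧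
  (Y.K = 0 → ∀ x y : Fin (Y.m + 2) → ℝ, valR Y.euler x y =
    x 0 * y (Fin.last _) + x (Fin.last _) * y 0 - valR Y.cup (mid x) (mid y)
      + (Y.e : ℝ) * x 0 * y 0)

/-- EXK (120 lines; uses EUL). `E x = exp(K) x = (r, c + r K, s + c·K + r K²/2)` for `x = (r, c, s)`.
Serre duality is a computation with EUL. `E x - x = (0, r K, c·K + r K²/2)` is orthogonal to every
`(0, η j, B·η j)` because `K·η j = 0`, hence to `F1`, hence to `ω 0 j`. If `K ≠ 0` there is `c` with
`c·K = 1` (`cup` nondegenerate), and `E (0, c, 0) - (0, c, 0) = point`. -/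
def Stmt_EXK : Prop := ∀ Y : Surface, ∃ E : (Fin (Y.m + 2) → ℚ) →ₗ[ℚ] (Fin (Y.m + 2) → ℚ),
  (∀ x y, valQ Y.euler x y = valQ Y.euler y (E x)) ∧
  (∀ x, ∀ a ∈ Y.F1, val Y.euler (toC (E x - x)) a = 0) ∧
  (Y.K ≠ 0 → ∃ x, E x - x = Y.point)

/-- SGN (150 lines; uses EUL). `K = 0`, `p ≠ 0`, so `p = 1` (`trivial`); let `η = η 0`. Symmetry of
`euler` is clear from its definition (`symm`). `b = -euler` is
`b(x,x) = c·c - 2 r s - e r²` for `x = (r, c, s)`. `P` = the real span of `(0, Re η, 0)`,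
`(0, Im η, 0)`, `(0, h, 0)` and `(1, 0, -(e + 1)/2)`: pairwise orthogonal (from `isotropic`,
`positive`: `Re η · Re η = Im η · Im η = ½ η · conj η > 0`, `Re η · Im η = 0`; `h · η = 0`) with
positive squares (the last: `1`). `N` = the real vectors orthogonal to these four: for
`x = (r, c, s)` in `N`, `c` is orthogonal to `h`, `Re η`, `Im η`, so `c·c ≤ 0` with equality only for
`c = 0` (`index`), and `b(x, (1,0,-(e+1)/2)) = r (e+1)/2 - s - e r = 0`, so `s = r (1 - e)/2` and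
`-2 r s - e r² = - r²`. `IsCompl`: orthogonal projection. -/
def Stmt_SGN : Prop := ∀ Y : Surface, Y.K = 0 → Y.p ≠ 0 →
  Y.euler.transpose = Y.euler ∧ Sig4 (-Y.euler)

/-- LIN (100 lines; uses EUL). `K = 0`, `p ≠ 0`. `p = 1` and `F1` is the line of
`σ = (0, η, B·η)`, not `0`; the independent family `ω 0` spans it, so `g = 1` and every `ω 0 j` is
`t • σ` with `t ≠ 0`. `val euler σ (conj σ) = - val cup η (conj η)` has negative real part. `h' =
(0, h, 0)` has `valQ euler h' h' = - h·h < 0` and `val euler h' σ = - h·η = 0`. -/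
def Stmt_LIN : Prop := ∀ (Y : Surface) (g : ℕ) (τ : Fin g → Fin (Y.m + 2) → ℂ), Y.K = 0 →
  Y.p ≠ 0 → LinearIndependent ℂ τ → Submodule.span ℂ (Set.range τ) = Y.F1 →
  g = 1 ∧ (∀ j, (val Y.euler (τ j) (conj (τ j))).re < 0) ∧
  ∃ h' : Fin (Y.m + 2) → ℚ, valQ Y.euler h' h' < 0 ∧ ∀ j, val Y.euler (toC h') (τ j) = 0

/-- FN1 (120 lines; uses EUL, EXK, SER, RKU). `K ≠ 0` or `p = 0`. The point is `Flat`: for `K ≠ 0` by
EXK and SER; for `p = 0` the span of `ω 0` is `0`, so `g = 0` and everything is `Flat`. `point ≠ 0`.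
RKU gives `u`, `Flat`, with `0 < valQ euler u point = u 0`. For `φ` `Flat` choose a natural number
`k` with `0 < φ 0 + k u 0`; put `x = φ + k • u`, also `Flat`. The three vectors
`N x • x - M₀ x • p`, `N u • u - M₀ u • p`, `N u • u - (M₀ u + 1) • p` are in the set; `p` is the
difference of the last two, so `p`, `u`, `x` and `φ = x - k • u` are in the span. -/
def Stmt_FN1 : Prop := ∀ (Y : Surface) (d g : ℕ)
  (ω : (Fin d → ℂ) → Fin g → Fin (Y.m + 2) → ℂ), IsVariation Y.euler ω →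
  Submodule.span ℂ (Set.range (ω 0)) = Y.F1 → (Y.K ≠ 0 ∨ Y.p = 0) →
  ∀ (N M₀ : (Fin (Y.m + 2) → ℚ) → ℤ), (∀ v, 0 < N v) → ∀ φ, Flat Y.euler ω φ →
  φ ∈ Submodule.span ℚ {x | Flat Y.euler ω x ∧ ∃ v, Flat Y.euler ω v ∧ 0 < v 0 ∧
    ∃ M ≥ M₀ v, x = N v • v - M • Y.point}

/-- FN2 (80 lines; uses SGN, LIN, POS). `K = 0`, `p ≠ 0`: by LIN `g = 1` (`subst`, then `Fin 1`), POS
gives `w`, `Flat`, with `valQ euler w w < 0`; for `φ` `Flat` and a large natural number `k` also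
`φ + k • w` has negative value, and `φ = (φ + k • w) - k • w`. -/
def Stmt_FN2 : Prop := ∀ (Y : Surface) (d g : ℕ)
  (ω : (Fin d → ℂ) → Fin g → Fin (Y.m + 2) → ℂ), IsVariation Y.euler ω →
  Submodule.span ℂ (Set.range (ω 0)) = Y.F1 → Y.K = 0 → Y.p ≠ 0 → ∀ φ, Flat Y.euler ω φ →
  φ ∈ Submodule.span ℚ {x | Flat Y.euler ω x ∧ valQ Y.euler x x < 0}

end THS
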